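import Mathlib
import Pool.Agent.Helper11.CDefs

/-! Symbols of functions with infinitely many zeros in total: units of `A` and values of
polynomials with integral coefficients at finitely many affine functions. -/

namespace Pool.Agent.ISI

open Pool.Agent.Helper11

/-- The function `a 0 * x₀ + a 1 * x₁ + e` on the curve `c ∏ᵢ (α i · x + β i) = 1`. -/
noncomputable def affFun {N : ℕ} (α : Fin N → Fin 2 → ℤ) (β : Fin N → ℤ) (c : ℤ)
    (a : Fin 2 → ℤ) (e : ℤ) : HypRingQ (n := 1) α β c :=
  Ideal.Quotient.mk (Ideal.span {MvPolynomial.map (Int.castRingHom ℚ) (hypPoly (n := 1) α β c)})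
    (MvPolynomial.C (a 0 : ℚ) * MvPolynomial.X 0 + MvPolynomial.C (a 1 : ℚ) * MvPolynomial.X 1 +
      MvPolynomial.C (e : ℚ))

/-- The subgroup of `Kˣ` generated by the units of `A` and by the values at `x` of the polynomials
with integral coefficients whose leading coefficient is at most `Λ` in absolute value. -/
def suppGroup (A K : Type) [CommRing A] [Field K] [Algebra A K] (Λ : ℕ) (x : K) :
    Subgroup Kˣ :=
  Subgroup.closure ({u | ∃ f : Aˣ, (u : K) = algebraMap A K f} ∪
    {u | ∃ p : Polynomial ℤ, p.leadingCoeff.natAbs ≤ Λ ∧ (u : K) = Polynomial.aeval x p})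

/-- The combinations of symbols of elements of `suppGroup A K Λ x`. -/
noncomputable def suppSym (A K : Type) [CommRing A] [Field K] [Algebra A K] (Λ : ℕ) (x : K) :
    Submodule ℚ (KMQ K 2) :=
  Submodule.span ℚ {z | ∃ f : Fin 2 → Kˣ, (∀ i, f i ∈ suppGroup A K Λ x) ∧ z = symM f}

/-- The integral elements of the span of the symbols of units of `A` and of the symbols of
elements of `suppGroup A K Λ (x i)`, for some `i`. -/
noncomputable def suppPart (A K : Type) [CommRing A] [Field K] [Algebra A K] (Λ : ℕ) {t : ℕ}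
    (x : Fin t → K) : Submodule ℚ (KMQ K 2) :=
  (LinearMap.range (KMQ.map (algebraMap A K) 2) ⊔ ⨆ i, suppSym A K Λ (x i)) ⊓ integralM K 2

end Pool.Agent.ISI
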