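import Mathlib
import Pool.Agent.ISI.Defs
import Pool.Agent.Helper11.CFinal
import Pool.Agent.Helper11.Tame

/-! Common definitions and simple lemmas for the project ISI (MP_a09a03_nt, infinite supports). -/

namespace Pool.Agent.ISI

open Pool.Agent.Helper11 Polynomial

/-- general position of the arrangement -/
structure Good {N : ℕ} (α : Fin N → Fin 2 → ℤ) (β : Fin N → ℤ) (c : ℤ) : Prop where
  hN : 0 < N
  hrk : ∀ i, ∃ j, hypDet α ![i, j] ≠ 0
  hgp : ∀ (J : Fin 2 → Fin N) k, hypDet α J ≠ 0 → (∀ m, J m ≠ k) → hypVal α β J k ≠ 0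
  hc : c ≠ 0

/-- the bounds -/
structure Bd {N : ℕ} (α : Fin N → Fin 2 → ℤ) (β : Fin N → ℤ) (c : ℤ) (M Λ : ℕ) : Prop where
  hM : 1 ≤ M
  hΛ : 1 ≤ Λ
  hα : ∀ i m, |α i m| ≤ M
  hβ : ∀ i, |β i| ≤ M
  hc : (10 * M * Λ : ℤ) ^ (10 * N ^ 3) ≤ |c|

/-- an affine form `a 0 x + a 1 y + e` with coefficients at most `M` -/
structure Frm (M : ℕ) (a : Fin 2 → ℤ) (e : ℤ) : Prop where
  ha : a ≠ 0
  haM : ∀ m, |a m| ≤ M
  heM : |e| ≤ M

section forms

variable {N : ℕ}

/-- the determinant of the form `a` and the form `j` -/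
def dl (α : Fin N → Fin 2 → ℤ) (a : Fin 2 → ℤ) (j : Fin N) : ℤ := a 0 * α j 1 - a 1 * α j 0

/-- the determinant of the three forms `(a, e)`, `j`, `k` -/
def d3 (α : Fin N → Fin 2 → ℤ) (β : Fin N → ℤ) (a : Fin 2 → ℤ) (e : ℤ) (j k : Fin N) : ℤ :=
  e * hypDet α ![j, k] - β j * dl α a k + β k * dl α a j

/-- the value of an affine form at a point -/
def av {S : Type*} [CommRing S] (a : Fin 2 → ℤ) (e : ℤ) (s : Fin 2 → S) : S :=
  (a 0 : S) * s 0 + (a 1 : S) * s 1 + (e : S)

end forms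

/-- an admissible polynomial -/
structure Irr (Λ : ℕ) (π : ℤ[X]) : Prop where
  irr : Irreducible π
  deg : 0 < π.natDegree
  pos : 0 < π.leadingCoeff
  le : π.leadingCoeff ≤ Λ

section field

variable {K : Type} [Field K] [CharZero K]

open Classical in
/-- the value of a polynomial at `x`, as a unit (`1` if it vanishes) -/
noncomputable def pq (x : K) (p : ℚ[X]) : Kˣ :=
  if h : aeval x p ≠ 0 then Units.mk0 _ h else 1

/-- the value of a polynomial with integral coefficients -/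
noncomputable def pz (x : K) (p : ℤ[X]) : Kˣ := pq x (p.map (Int.castRingHom ℚ))

lemma aeval_ne {x : K} (hx : Transcendental ℚ x) {p : ℚ[X]} (hp : p ≠ 0) : aeval x p ≠ 0 :=
  fun h => hp ((transcendental_iff.1 hx) p h)

lemma pq_val {x : K} (hx : Transcendental ℚ x) {p : ℚ[X]} (hp : p ≠ 0) :
    (pq x p : K) = aeval x p := by
  unfold pq
  rw [dif_pos (aeval_ne hx hp), Units.val_mk0]

lemma pq_mul {x : K} (hx : Transcendental ℚ x) {p q : ℚ[X]} (hp : p ≠ 0) (hq : q ≠ 0) :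
    pq x (p * q) = pq x p * pq x q := by
  apply Units.ext
  rw [Units.val_mul, pq_val hx hp, pq_val hx hq, pq_val hx (mul_ne_zero hp hq), map_mul]

lemma pq_C {x : K} (hx : Transcendental ℚ x) (q : ℚˣ) : pq x (C (q : ℚ)) = cst K q := by
  apply Units.ext
  rw [pq_val hx (C_ne_zero.2 q.ne_zero), cst_val, aeval_C, eq_ratCast]

lemma pq_pow {x : K} (hx : Transcendental ℚ x) {p : ℚ[X]} (hp : p ≠ 0) (n : ℕ) :
    pq x (p ^ n) = pq x p ^ n := by
  apply Units.ext
  rw [Units.val_pow_eq_pow_val, pq_val hx hp, pq_val hx (pow_ne_zero n hp), map_pow]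

lemma pq_congr {x : K} (hx : Transcendental ℚ x) {p : ℚ[X]} (hp : p ≠ 0) {u : Kˣ}
    (h : (u : K) = aeval x p) : u = pq x p := by
  apply Units.ext
  rw [pq_val hx hp, h]

lemma map_ne {p : ℤ[X]} (hp : p ≠ 0) : p.map (Int.castRingHom ℚ) ≠ 0 :=
  (Polynomial.map_ne_zero_iff (RingHom.injective_int (Int.castRingHom ℚ))).2 hp

lemma aeval_map (x : K) (p : ℤ[X]) : aeval x (p.map (Int.castRingHom ℚ)) = aeval x p := by
  have h : (Int.castRingHom ℚ) = algebraMap ℤ ℚ := rfl
  rw [h, aeval_map_algebraMap]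

lemma pz_val {x : K} (hx : Transcendental ℚ x) {p : ℤ[X]} (hp : p ≠ 0) :
    (pz x p : K) = aeval x p := by
  unfold pz
  rw [pq_val hx (map_ne hp), aeval_map]

lemma pz_mul {x : K} (hx : Transcendental ℚ x) {p q : ℤ[X]} (hp : p ≠ 0) (hq : q ≠ 0) :
    pz x (p * q) = pz x p * pz x q := by
  unfold pz
  rw [Polynomial.map_mul, pq_mul hx (map_ne hp) (map_ne hq)]

/-- the combinations of symbols of two polynomials in `x` -/
noncomputable def LP (x : K) : Submodule ℚ (KMQ K 2) :=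
  Submodule.span ℚ {z | ∃ p q : ℚ[X], p ≠ 0 ∧ q ≠ 0 ∧ z = sy (pq x p) (pq x q)}

/-- the combinations of symbols of two polynomials of degree at most `d` in `x` -/
noncomputable def LPd (x : K) (d : ℕ) : Submodule ℚ (KMQ K 2) :=
  Submodule.span ℚ {z | ∃ p q : ℚ[X], p ≠ 0 ∧ q ≠ 0 ∧ p.natDegree ≤ d ∧ q.natDegree ≤ d ∧
    z = sy (pq x p) (pq x q)}

end field

section curve

variable {N : ℕ} (α : Fin N → Fin 2 → ℤ) (β : Fin N → ℤ) (c : ℤ)
variable (K : Type) [Field K] [Algebra (HypRingQ (n := 1) α β c) K]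

/-- the symbols of units of the ring of the curve -/
noncomputable def US : Submodule ℚ (KMQ K 2) :=
  LinearMap.range (KMQ.map (algebraMap (HypRingQ (n := 1) α β c) K) 2)

/-- a unit of the ring of the curve as a unit of `K` -/
noncomputable def uK (w : (HypRingQ (n := 1) α β c)ˣ) : Kˣ :=
  Units.map (algebraMap (HypRingQ (n := 1) α β c) K : HypRingQ (n := 1) α β c →* K) w

/-- the units of the ring of the curve -/
noncomputable def UA : Subgroup Kˣ :=
  (Units.map (algebraMap (HypRingQ (n := 1) α β c) K : HypRingQ (n := 1) α β c →* K)).range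

/-- the affine function on the curve, in `K` -/
noncomputable def xK (a : Fin 2 → ℤ) (e : ℤ) : K :=
  algebraMap (HypRingQ (n := 1) α β c) K (affFun α β c a e)

/-- the group generated by the constants, the forms parallel to `a` and the polynomials in the
function `(a, e)` with leading coefficient at most `Λ` -/
noncomputable def GP [CharZero K] (Λ : ℕ) (a : Fin 2 → ℤ) (e : ℤ) : Subgroup Kˣ :=
  Subgroup.closure ({u | ∃ q : ℚˣ, u = cst K q} ∪ {u | ∃ j, dl α a j = 0 ∧ u = LK α β c K j} ∪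
    {u | ∃ p : ℤ[X], p ≠ 0 ∧ p.leadingCoeff.natAbs ≤ Λ ∧ u = pz (xK α β c K a e) p})

/-- the combinations of symbols of elements of `GP` -/
noncomputable def LG [CharZero K] (Λ : ℕ) (a : Fin 2 → ℤ) (e : ℤ) : Submodule ℚ (KMQ K 2) :=
  Submodule.span ℚ {z | ∃ f g : Kˣ, f ∈ GP α β c K Λ a e ∧ g ∈ GP α β c K Λ a e ∧ z = sy f g}

variable {α β c K}

lemma uK_mem (w : (HypRingQ (n := 1) α β c)ˣ) : uK α β c K w ∈ UA α β c K := ⟨w, rfl⟩

lemma cst_mem [CharZero K] (q : ℚˣ) : cst K q ∈ UA α β c K :=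
  ⟨cstA α β c q, map_cstA (α := α) (β := β) (c := c) q⟩

lemma LK_mem (j : Fin N) : LK α β c K j ∈ UA α β c K := ⟨crvU α β c j, rfl⟩

lemma sy_mem_US {u v : Kˣ} (hu : u ∈ UA α β c K) (hv : v ∈ UA α β c K) :
    sy u v ∈ US α β c K := by
  obtain ⟨f, rfl⟩ := hu
  obtain ⟨g, rfl⟩ := hv
  refine ⟨symM ![f, g], ?_⟩
  rw [KMQ.map_symM]
  change _ = symM _
  congr 1
  funext m
  fin_cases m <;> rfl

/-- `affFun` in terms of the coordinates -/
lemma affFun_eq (a : Fin 2 → ℤ) (e : ℤ) : affFun α β c a e =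
    av a e ![qmk α β c (MvPolynomial.X 0), qmk α β c (MvPolynomial.X 1)] := by
  have hC : ∀ k : ℤ, qmk α β c (MvPolynomial.C (k : ℚ)) = k := by
    intro k
    have h3 : (MvPolynomial.C (k : ℚ) : MvPolynomial (Fin 2) ℚ) =
      (k : MvPolynomial (Fin 2) ℚ) := map_intCast _ _
    rw [h3, map_intCast]
  change qmk α β c (MvPolynomial.C (a 0 : ℚ) * MvPolynomial.X 0 +
    MvPolynomial.C (a 1 : ℚ) * MvPolynomial.X 1 + MvPolynomial.C (e : ℚ)) = _
  unfold av
  simp only [map_add, map_mul, hC, Matrix.cons_val_zero, Matrix.cons_val_one]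

lemma lf_eq (j : Fin N) : qmk α β c (lf α β j) = affFun α β c (α j) (β j) := rfl

/-- homomorphisms preserve the values of affine forms -/
lemma map_affFun {S : Type*} [CommRing S] (φ : HypRingQ (n := 1) α β c →+* S) (a : Fin 2 → ℤ)
    (e : ℤ) : φ (affFun α β c a e) =
    av a e ![φ (qmk α β c (MvPolynomial.X 0)), φ (qmk α β c (MvPolynomial.X 1))] := by
  rw [affFun_eq]
  unfold av
  simp only [map_add, map_mul, map_intCast, Matrix.cons_val_zero, Matrix.cons_val_one]

/-- the relation of the curve at a homomorphism -/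
lemma hom_rel {S : Type*} [CommRing S] (φ : HypRingQ (n := 1) α β c →+* S) :
    (c : S) * ∏ j, φ (affFun α β c (α j) (β j)) = 1 := by
  have h := congrArg φ (crv_rel (α := α) (β := β) (c := c))
  rw [map_mul, map_intCast, map_prod, map_one] at h
  exact h

/-- points give homomorphisms -/
lemma exists_hom {S : Type*} [CommRing S] [Algebra ℚ S] (s : Fin 2 → S)
    (hs : (c : S) * ∏ j, av (α j) (β j) s = 1) :
    ∃ φ : HypRingQ (n := 1) α β c →+* S, ∀ a e, φ (affFun α β c a e) = av a e s := by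
  obtain ⟨φ, hφ⟩ := exists_crvHom (α := α) (β := β) (c := c) s hs
  refine ⟨φ, fun a e => ?_⟩
  rw [map_affFun, hφ, hφ, evm_X, evm_X]
  unfold av
  simp only [Matrix.cons_val_zero, Matrix.cons_val_one]

end curve

end Pool.Agent.ISI
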