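import Mathlib
import Pool.Agent.ISI.Base

/-! MODULE ISI-Tam (tame symbols of a discrete valuation ring as linear functionals on KMQ K 2).

A map `χ` on the units of the valuation ring, additive and trivial on the principal units, is
extended to all units of `K` through `f ↦ f * p ^ (-ord f)`; the tame symbol is
`ord (f 0) • χ (f 1) - ord (f 1) • χ (f 0)`. -/

namespace Pool.Agent.ISI

open Pool.Agent.Helper11 Polynomial

section aux

variable {K : Type} [Field K]

/-- the unit part -/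
private def rr (p : Kˣ) (ord : Kˣ → ℤ) (f : Kˣ) : Kˣ := f * (p ^ ord f)⁻¹

variable {O : ValuationSubring K} {p : Kˣ} {ord : Kˣ → ℤ}

private lemma rr_ord (H : IsOrd O p ord) (f : Kˣ) : ord (rr p ord f) = 0 := by
  unfold rr
  rw [H.mul, H.inv, H.zpow, H.uniformizer]
  ring

private lemma rr_mem (H : IsOrd O p ord) (f : Kˣ) : rr p ord f ∈ O.unitGroup :=
  (ValuationSubring.mem_unitGroup_iff O _).2 ((H.eq_one_iff _).2 (rr_ord H f))

private lemma rr_mul (H : IsOrd O p ord) (f g : Kˣ) :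
    rr p ord (f * g) = rr p ord f * rr p ord g := by
  unfold rr
  rw [H.mul, zpow_add, mul_inv]
  exact mul_mul_mul_comm _ _ _ _

private lemma ord_unit (H : IsOrd O p ord) {u : Kˣ} (hu : u ∈ O.unitGroup) : ord u = 0 :=
  (H.eq_one_iff u).1 ((ValuationSubring.mem_unitGroup_iff O u).1 hu)

private lemma rr_unit (H : IsOrd O p ord) {u : Kˣ} (hu : u ∈ O.unitGroup) : rr p ord u = u := by
  unfold rr
  rw [ord_unit H hu, zpow_zero, inv_one, mul_one]

variable {V : Type} [AddCommGroup V] [Module ℚ V] {χ : Kˣ → V}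

private lemma x_mul (H : IsOrd O p ord)
    (hχ : ∀ u ∈ O.unitGroup, ∀ v ∈ O.unitGroup, χ (u * v) = χ u + χ v) (f g : Kˣ) :
    χ (rr p ord (f * g)) = χ (rr p ord f) + χ (rr p ord g) := by
  rw [rr_mul H, hχ _ (rr_mem H f) _ (rr_mem H g)]

private lemma x_one (H : IsOrd O p ord)
    (hχ : ∀ u ∈ O.unitGroup, ∀ v ∈ O.unitGroup, χ (u * v) = χ u + χ v) :
    χ (rr p ord 1) = 0 := by
  have h := x_mul H hχ 1 1
  rw [mul_one] at h
  exact left_eq_add.1 h

private lemma x_neg_one (H : IsOrd O p ord)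
    (hχ : ∀ u ∈ O.unitGroup, ∀ v ∈ O.unitGroup, χ (u * v) = χ u + χ v) :
    χ (rr p ord (-1)) = 0 := by
  have h := x_mul H hχ (-1) (-1)
  rw [neg_one_mul, neg_neg, x_one H hχ] at h
  have h2 : (2 : ℚ) • χ (rr p ord (-1)) = 0 := by rw [two_smul, ← h]
  exact (smul_eq_zero.1 h2).resolve_left two_ne_zero

private lemma ord_neg_one (H : IsOrd O p ord) : ord (-1) = 0 := by
  have h := H.mul (-1) (-1)
  rw [neg_one_mul, neg_neg, H.one] at h
  omega

private lemma x_inv (H : IsOrd O p ord)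
    (hχ : ∀ u ∈ O.unitGroup, ∀ v ∈ O.unitGroup, χ (u * v) = χ u + χ v) (f : Kˣ) :
    χ (rr p ord f⁻¹) = - χ (rr p ord f) := by
  have h := x_mul H hχ f f⁻¹
  rw [mul_inv_cancel, x_one H hχ] at h
  exact (neg_eq_of_add_eq_zero_right h.symm).symm

private lemma st_pos (H : IsOrd O p ord)
    (h1 : ∀ u ∈ O.unitGroup, O.valuation ((u : K) - 1) < 1 → χ u = 0) {f g : Kˣ}
    (h : (f : K) + g = 1) (hf : 0 < ord f) : ord g = 0 ∧ χ (rr p ord g) = 0 := by
  have hvf : O.valuation (f : K) < 1 := (H.lt_one_iff f).2 hf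
  have hg : (g : K) = 1 - f := by rw [← h]; ring
  have hvg : O.valuation (g : K) = 1 := by
    apply le_antisymm
    · rw [hg]
      refine (Valuation.map_sub _ _ _).trans ?_
      rw [map_one]
      exact max_le (le_refl _) hvf.le
    · by_contra hlt
      have h2 := Valuation.map_add_lt O.valuation hvf (not_le.1 hlt)
      rw [h, map_one] at h2
      exact lt_irrefl _ h2
  have hgm : g ∈ O.unitGroup := (ValuationSubring.mem_unitGroup_iff O g).2 hvg
  refine ⟨ord_unit H hgm, ?_⟩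
  rw [rr_unit H hgm]
  apply h1 g hgm
  have h3 : (g : K) - 1 = -f := by rw [hg]; ring
  rw [h3, Valuation.map_neg]
  exact hvf

private lemma st_neg (H : IsOrd O p ord)
    (hχ : ∀ u ∈ O.unitGroup, ∀ v ∈ O.unitGroup, χ (u * v) = χ u + χ v)
    (h1 : ∀ u ∈ O.unitGroup, O.valuation ((u : K) - 1) < 1 → χ u = 0) {f g : Kˣ}
    (h : (f : K) + g = 1) (hf : ord f < 0) :
    ord g = ord f ∧ χ (rr p ord g) = χ (rr p ord f) := by
  have h2 : ((f⁻¹ : Kˣ) : K) + ((-1 * (g * f⁻¹) : Kˣ) : K) = 1 := by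
    rw [Units.val_mul, Units.val_mul, Units.val_neg, Units.val_one, Units.val_inv_eq_inv_val]
    have hf0 := f.ne_zero
    have hg : (g : K) = 1 - f := by rw [← h]; ring
    rw [hg]
    field_simp
    ring
  have h3 : 0 < ord f⁻¹ := by
    rw [H.inv]
    omega
  obtain ⟨h4, h5⟩ := st_pos H h1 h2 h3
  rw [H.mul, H.mul, H.inv, ord_neg_one H] at h4
  rw [x_mul H hχ, x_mul H hχ, x_inv H hχ, x_neg_one H hχ, zero_add, ← sub_eq_add_neg,
    sub_eq_zero] at h5
  exact ⟨by omega, h5⟩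

private lemma st_all (H : IsOrd O p ord)
    (hχ : ∀ u ∈ O.unitGroup, ∀ v ∈ O.unitGroup, χ (u * v) = χ u + χ v)
    (h1 : ∀ u ∈ O.unitGroup, O.valuation ((u : K) - 1) < 1 → χ u = 0) {f g : Kˣ}
    (h : (f : K) + g = 1) :
    (ord f : ℚ) • χ (rr p ord g) - (ord g : ℚ) • χ (rr p ord f) = 0 := by
  rcases lt_trichotomy (ord f) 0 with h2 | h2 | h2
  · obtain ⟨h3, h4⟩ := st_neg H hχ h1 h h2
    rw [h3, h4, sub_self]
  · rcases lt_trichotomy (ord g) 0 with h3 | h3 | h3
    · obtain ⟨h4, h5⟩ := st_neg H hχ h1 (by rw [add_comm]; exact h) h3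
      rw [h4, h5, sub_self]
    · rw [h2, h3]
      simp
    · obtain ⟨h4, h5⟩ := st_pos H h1 (f := g) (g := f) (by rw [add_comm]; exact h) h3
      rw [h4, h5]
      simp
  · obtain ⟨h3, h4⟩ := st_pos H h1 h h2
    rw [h3, h4]
    simp

end aux

variable {K : Type} [Field K] [CharZero K]

theorem exists_tame' (O : ValuationSubring K) [IsDiscreteValuationRing O] {V : Type}
    [AddCommGroup V] [Module ℚ V] (χ : Kˣ → V)
    (hχ : ∀ u ∈ O.unitGroup, ∀ v ∈ O.unitGroup, χ (u * v) = χ u + χ v)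
    (h1 : ∀ u ∈ O.unitGroup, O.valuation ((u : K) - 1) < 1 → χ u = 0) :
    ∃ (τ : KMQ K 2 →ₗ[ℚ] V) (ord : Kˣ → ℤ) (p : Kˣ), IsOrd O p ord ∧
      (∀ x : Kˣ, ∀ u ∈ O.unitGroup, τ (sy x u) = (ord x : ℚ) • χ u) ∧
      ∀ z ∈ unrM O 2, τ z = 0 := by
  obtain ⟨p, ord, H⟩ := exists_ord O
  obtain ⟨τ, hτ⟩ := KMQ.exists_lift (R := K) (d := 2) (V := V)
    (fun f => (ord (f 0) : ℚ) • χ (rr p ord (f 1)) - (ord (f 1) : ℚ) • χ (rr p ord (f 0))) (by
      intro f i u v
      fin_cases i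
      · simp only [Fin.zero_eta, Fin.isValue, Function.update_self, ne_eq, one_ne_zero,
          not_false_eq_true, Function.update_of_ne, H.mul, x_mul H hχ]
        push_cast
        rw [add_smul, smul_add]
        abel
      · simp only [Fin.mk_one, Fin.isValue, Function.update_self, ne_eq, zero_ne_one,
          not_false_eq_true, Function.update_of_ne, H.mul, x_mul H hχ]
        push_cast
        rw [add_smul, smul_add]
        abel) (by
      intro f i j hij h
      fin_cases i <;> fin_cases j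
      · exact absurd rfl hij
      · exact st_all H hχ h1 h
      · exact st_all H hχ h1 (f := f 0) (g := f 1) (by rw [add_comm]; exact h)
      · exact absurd rfl hij)
  refine ⟨τ, ord, p, H, fun x u hu => ?_, fun z hz => ?_⟩
  · change τ (symM ![x, u]) = _
    rw [hτ]
    simp only [Matrix.cons_val_zero, Matrix.cons_val_one]
    rw [ord_unit H hu, rr_unit H hu, Int.cast_zero, zero_smul, sub_zero]
  · have hle : unrM O 2 ≤ LinearMap.ker τ := by
      rw [unrM, Submodule.span_le]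
      rintro _ ⟨f, hf, rfl⟩
      rw [SetLike.mem_coe, LinearMap.mem_ker, hτ, ord_unit H (hf 0), ord_unit H (hf 1)]
      simp
    exact hle hz

end Pool.Agent.ISI
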