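import Mathlib
import Pool.Agent.ISI.Tam

/-! MODULE ISI-TamB (two special cases of the tame functional `exists_tame'` of Tam.lean).

PLAN of `exists_tameR`: apply `exists_tame'` to `χ u = if h : (u : K) ∈ O then
Real.log ‖ρ ⟨u, h⟩‖ else 0` (V = ℝ); for `u ∈ O.unitGroup`, `u ∈ O` and `ρ u ≠ 0` by `hρ`
(valuation 1), so `log` is additive; if `O.valuation (u - 1) < 1` then `ρ u = 1`.

PLAN of `exists_tameT`: `V = ℚ ⊗[ℤ] Additive (IsLocalRing.ResidueField O)ˣ`,
`χ u = 1 ⊗ (residue of u)` via `Units.map (IsLocalRing.residue O)` for `u ∈ O.unitGroup` and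
`0` for the others. If `1 ⊗ x = 0` then `x` is torsion: `ℚ ⊗ G` is the localization of `G` at the
non zero integers (`IsLocalizedModule (nonZeroDivisors ℤ) (TensorProduct.mk ℤ ℚ G 1)`,
`IsLocalizedModule.eq_zero_iff`). One may instead take
`V = LocalizedModule (nonZeroDivisors ℤ) G` (with its `ℚ`-module structure) or any other
construction. Then `m • x = 0` for some `m ≠ 0`, i.e. `u ^ m ≡ 1` modulo the maximal ideal
(replace `m` by `|m|`); `O.valuation z < 1 ↔ z ∈ maximalIdeal O` is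
`ValuationSubring.valuation_lt_one_iff`. -/

namespace Pool.Agent.ISI

open Pool.Agent.Helper11 Polynomial

variable {K : Type} [Field K] [CharZero K]

omit [CharZero K] in
private theorem tamb_mem (O : ValuationSubring K) {u : Kˣ} (hu : u ∈ O.unitGroup) : (u : K) ∈ O := by
  rw [← ValuationSubring.valuation_le_one_iff]
  exact (((O.mem_unitGroup_iff u).1 hu)).le

/-- the logarithmic version -/
theorem exists_tameR (O : ValuationSubring K) [IsDiscreteValuationRing O] (ρ : O →+* ℂ)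
    (hρ : ∀ z : O, ρ z = 0 ↔ O.valuation (z : K) < 1) :
    ∃ (τ : KMQ K 2 →ₗ[ℚ] ℝ) (ord : Kˣ → ℤ) (p : Kˣ), IsOrd O p ord ∧
      (∀ x : Kˣ, ∀ u ∈ O.unitGroup, ∀ h : (u : K) ∈ O,
        τ (sy x u) = ord x * Real.log ‖ρ ⟨u, h⟩‖) ∧
      ∀ z ∈ unrM O 2, τ z = 0 := by
  classical
  let χ : Kˣ → ℝ := fun u => if h : (u : K) ∈ O then Real.log ‖ρ ⟨u, h⟩‖ else 0
  have hval : ∀ (u : Kˣ) (h : (u : K) ∈ O), χ u = Real.log ‖ρ ⟨u, h⟩‖ := fun u h => dif_pos h
  obtain ⟨τ, ord, p, h1, h2, h3⟩ := exists_tame' O χ (by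
      intro u hu v hv
      have hu' := tamb_mem O hu
      have hv' := tamb_mem O hv
      have huv' := tamb_mem O (mul_mem hu hv)
      rw [hval u hu', hval v hv', hval (u * v) huv']
      have e : (⟨((u * v : Kˣ) : K), huv'⟩ : O) = ⟨u, hu'⟩ * ⟨v, hv'⟩ := by
        apply Subtype.ext
        simp
      have hne : ∀ (w : Kˣ) (hw : w ∈ O.unitGroup) (hw' : (w : K) ∈ O), ‖ρ ⟨w, hw'⟩‖ ≠ 0 := by
        intro w hw hw' h0
        rw [norm_eq_zero, hρ] at h0
        have h4 := (O.mem_unitGroup_iff w).1 hw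
        exact absurd h4 (ne_of_lt h0)
      rw [e, map_mul, norm_mul, Real.log_mul (hne u hu hu') (hne v hv hv')])
    (by
      intro u hu h0
      have hu' := tamb_mem O hu
      rw [hval u hu']
      have h4 : ρ (⟨u, hu'⟩ - 1) = 0 := by
        rw [hρ]
        exact h0
      rw [map_sub, map_one, sub_eq_zero] at h4
      rw [h4, norm_one, Real.log_one])
  refine ⟨τ, ord, p, h1, ?_, h3⟩
  intro x u hu h
  rw [h2 x u hu, hval u h, Rat.smul_def, Rat.cast_intCast]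

/-- the version modulo torsion -/
theorem exists_tameT (O : ValuationSubring K) [IsDiscreteValuationRing O] :
    ∃ (V : Type) (_ : AddCommGroup V) (_ : Module ℚ V) (χ : Kˣ → V) (τ : KMQ K 2 →ₗ[ℚ] V)
      (ord : Kˣ → ℤ) (p : Kˣ), IsOrd O p ord ∧
      (∀ x : Kˣ, ∀ u ∈ O.unitGroup, τ (sy x u) = (ord x : ℚ) • χ u) ∧
      (∀ z ∈ unrM O 2, τ z = 0) ∧
      ∀ u ∈ O.unitGroup, χ u = 0 → ∃ m : ℕ, m ≠ 0 ∧ O.valuation ((u : K) ^ m - 1) < 1 := by
  classical
  let r : O.unitGroup →* (IsLocalRing.ResidueField O)ˣ :=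
    (Units.map (IsLocalRing.residue O).toMonoidHom).comp O.unitGroupMulEquiv.toMonoidHom
  have hr : ∀ u : O.unitGroup, r u = 1 ↔ O.valuation (((u : Kˣ) : K) - 1) < 1 := by
    intro u
    have h4 := O.coe_mem_principalUnitGroup_iff (x := u)
    rw [O.mem_principalUnitGroup_iff, MonoidHom.mem_ker] at h4
    exact h4.symm
  let G := Additive (IsLocalRing.ResidueField O)ˣ
  let f : G →ₗ[ℤ] TensorProduct ℤ ℚ G := TensorProduct.mk ℤ ℚ G 1
  have hloc : IsLocalizedModule (nonZeroDivisors ℤ) f :=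
    (isLocalizedModule_iff_isBaseChange (nonZeroDivisors ℤ) ℚ f).2
      (TensorProduct.isBaseChange ℤ G ℚ)
  let χ : Kˣ → TensorProduct ℤ ℚ G := fun u =>
    if h : u ∈ O.unitGroup then f (Additive.ofMul (r ⟨u, h⟩)) else 0
  have hval : ∀ (u : Kˣ) (h : u ∈ O.unitGroup), χ u = f (Additive.ofMul (r ⟨u, h⟩)) :=
    fun u h => dif_pos h
  obtain ⟨τ, ord, p, h1, h2, h3⟩ := exists_tame' O χ (by
      intro u hu v hv
      rw [hval u hu, hval v hv, hval (u * v) (mul_mem hu hv), ← map_add, ← ofMul_mul, ← map_mul]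
      rfl)
    (by
      intro u hu h0
      rw [hval u hu, (hr ⟨u, hu⟩).2 h0, ofMul_one, map_zero])
  refine ⟨TensorProduct ℤ ℚ G, inferInstance, inferInstance, χ, τ, ord, p, h1, h2, h3, ?_⟩
  intro u hu h0
  rw [hval u hu] at h0
  obtain ⟨c, hc⟩ := (IsLocalizedModule.eq_zero_iff (nonZeroDivisors ℤ) f).1 h0
  have hc0 : (c : ℤ) ≠ 0 := nonZeroDivisors.coe_ne_zero c
  have hc' : (c : ℤ) • (Additive.ofMul (r ⟨u, hu⟩) : G) = 0 := hc
  have hm : (c : ℤ).natAbs • (Additive.ofMul (r ⟨u, hu⟩) : G) = 0 := by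
    rcases Int.natAbs_eq (c : ℤ) with h | h
    · rw [h, natCast_zsmul] at hc'
      exact hc'
    · rw [h, neg_smul, neg_eq_zero, natCast_zsmul] at hc'
      exact hc'
  refine ⟨(c : ℤ).natAbs, Int.natAbs_ne_zero.2 hc0, ?_⟩
  rw [← ofMul_pow, ← map_pow] at hm
  have h4 : r (⟨u, hu⟩ ^ (c : ℤ).natAbs) = 1 := hm
  have h5 := (hr _).1 h4
  simpa using h5

end Pool.Agent.ISI
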