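import Mathlib
import Pool.Agent.ISI.Base

/-! # ISI-Lin: linear algebra of affine forms

Determinant relations between the affine form `(a, e)` and the forms of the arrangement. -/

namespace Pool.Agent.ISI

open Pool.Agent.Helper11 Polynomial

variable {N : ℕ} {α : Fin N → Fin 2 → ℤ} {β : Fin N → ℤ} {c : ℤ} {a : Fin 2 → ℤ} {e : ℤ}

private theorem gp_pair (hG : Good α β c) {j i k : Fin N} (h : hypDet α ![j, i] ≠ 0)
    (hjk : j ≠ k) (hik : i ≠ k) : hypVal α β ![j, i] k ≠ 0 := by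
  refine hG.hgp ![j, i] k h (fun m => ?_)
  fin_cases m
  · exact hjk
  · exact hik

theorem lin3 {S : Type*} [CommRing S] (s : Fin 2 → S) (j k : Fin N) :
    (hypDet α ![j, k] : S) * av a e s - (dl α a k : S) * av (α j) (β j) s +
      (dl α a j : S) * av (α k) (β k) s = (d3 α β a e j k : S) := by
  unfold d3 dl av
  rw [dt_eq]
  push_cast
  ring

theorem linp {S : Type*} [CommRing S] (s : Fin 2 → S) {j : Fin N} (h : dl α a j = 0)
    (m : Fin 2) :
    (a m : S) * av (α j) (β j) s = (α j m : S) * av a e s + ((a m * β j - α j m * e : ℤ) : S) := by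
  have h1 : ((a 0 : S)) * (α j 1 : S) - (a 1 : S) * (α j 0 : S) = 0 := by
    have h2 : ((dl α a j : ℤ) : S) = 0 := by rw [h, Int.cast_zero]
    unfold dl at h2
    push_cast at h2
    exact h2
  unfold av
  push_cast
  fin_cases m
  · simp only [Fin.zero_eta, Fin.isValue]
    linear_combination (s 1) * h1
  · simp only [Fin.mk_one, Fin.isValue]
    linear_combination (-(s 0)) * h1

theorem exists_not_par (hG : Good α β c) (ha : a ≠ 0) : ∃ j, dl α a j ≠ 0 := by
  by_contra hcon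
  push Not at hcon
  obtain ⟨j, hj⟩ := hG.hrk ⟨0, hG.hN⟩
  have h1 := hcon ⟨0, hG.hN⟩
  have h2 := hcon j
  unfold dl at h1 h2
  rw [dt_eq] at hj
  apply ha
  have h0 : a 0 = 0 := by
    have : a 0 * (α ⟨0, hG.hN⟩ 0 * α j 1 - α ⟨0, hG.hN⟩ 1 * α j 0) = 0 := by
      linear_combination (α ⟨0, hG.hN⟩ 0) * h2 - (α j 0) * h1
    rcases mul_eq_zero.1 this with h | h
    · exact h
    · exact absurd h hj
  have h3 : a 1 = 0 := by
    have : a 1 * (α ⟨0, hG.hN⟩ 0 * α j 1 - α ⟨0, hG.hN⟩ 1 * α j 0) = 0 := by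
      linear_combination (α ⟨0, hG.hN⟩ 1) * h2 - (α j 1) * h1
    rcases mul_eq_zero.1 this with h | h
    · exact h
    · exact absurd h hj
  funext m
  fin_cases m
  · exact h0
  · exact h3

theorem alpha_ne (hG : Good α β c) {j : Fin N} (h : dl α a j = 0) {m : Fin 2} (hm : a m ≠ 0) :
    α j m ≠ 0 := by
  intro h0
  obtain ⟨i, hi⟩ := hG.hrk j
  rw [dt_eq] at hi
  unfold dl at h
  apply hi
  fin_cases m
  · simp only [Fin.zero_eta, Fin.isValue] at hm h0
    rw [h0, mul_zero, sub_zero] at h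
    rcases mul_eq_zero.1 h with h | h
    · exact absurd h hm
    · rw [h0, h]; ring
  · simp only [Fin.mk_one, Fin.isValue] at hm h0
    rw [h0, mul_zero, zero_sub, neg_eq_zero] at h
    rcases mul_eq_zero.1 h with h | h
    · exact absurd h hm
    · rw [h0, h]; ring

theorem par_det (hG : Good α β c) (ha : a ≠ 0) {j k : Fin N} (hj : dl α a j ≠ 0)
    (hk : dl α a k = 0) : hypDet α ![j, k] ≠ 0 := by
  intro h0
  obtain ⟨i, hi⟩ := hG.hrk k
  rw [dt_eq] at hi h0
  apply hi
  have h1 : dl α a j * α k 0 = 0 := by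
    unfold dl at hk ⊢
    linear_combination (α j 0) * hk - (a 0) * h0
  have h2 : dl α a j * α k 1 = 0 := by
    unfold dl at hk ⊢
    linear_combination (α j 1) * hk - (a 1) * h0
  rcases mul_eq_zero.1 h1 with h | h
  · exact absurd h hj
  · rcases mul_eq_zero.1 h2 with h' | h'
    · exact absurd h' hj
    · rw [h, h']; ring

theorem d3_ne (hG : Good α β c) {j k : Fin N} (hjk : j ≠ k) (hj : dl α a j ≠ 0)
    (h : hypDet α ![j, k] = 0) : d3 α β a e j k ≠ 0 := by
  intro h0
  unfold d3 at h0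
  rw [h, mul_zero, zero_sub] at h0
  obtain ⟨i, hi⟩ := hG.hrk j
  have hik : i ≠ k := by
    rintro rfl
    exact hi h
  have hv := gp_pair hG hi hjk hik
  apply hv
  have h1 : dl α a j * hypVal α β ![j, i] k = 0 := by
    rw [hypVal_pair, h]
    rw [dt_eq] at h ⊢
    rw [dt_eq]
    unfold dl at h0 ⊢
    linear_combination (α j 0 * α i 1 - α j 1 * α i 0) * h0 +
      (β j * (a 0 * α i 1 - a 1 * α i 0)) * h
  rcases mul_eq_zero.1 h1 with h2 | h2
  · exact absurd h2 hj
  · exact h2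

theorem triple (hG : Good α β c) {F : Type*} [Field F] [CharZero F] (s : Fin 2 → F)
    {j k l : Fin N} (hjl : j ≠ l) (hkl : k ≠ l) (h : hypDet α ![j, k] ≠ 0)
    (h1 : av (α j) (β j) s = 0) (h2 : av (α k) (β k) s = 0) (h3 : av (α l) (β l) s = 0) :
    False := by
  have hv := gp_pair hG h hjl hkl
  have h4 : ((hypVal α β ![j, k] l : ℤ) : F) = 0 := by
    rw [hypVal_pair, dt_eq, dt_eq, dt_eq]
    unfold av at h1 h2 h3
    push_cast
    linear_combination ((α j 0 : F) * α k 1 - α j 1 * α k 0) * h3 -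
      ((α l 0 : F) * α k 1 - α l 1 * α k 0) * h1 - ((α j 0 : F) * α l 1 - α j 1 * α l 0) * h2
  exact hv (by exact_mod_cast h4)

end Pool.Agent.ISI
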