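import Mathlib
import Pool.Agent.ISI.Base

/-! MODULE ISI-ExpA (factorization of integral polynomials; two distinct normalized irreducible
polynomials have no common root).

`exists_factors`: PROOF. Strong induction on `natDegree`, or `WfDvdMonoid.exists_factors` /
`UniqueFactorizationMonoid.factors` in ℤ[X]: `p = unit * ∏ irreducibles`. Irreducible factors
of degree 0 are constants `C n`; for an irreducible factor `π` of positive degree replace `π` by `-π` if its
leading coefficient is negative (the sign goes into `n`); units of ℤ[X] are `±1`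
(`Polynomial.isUnit_iff`, `Int.isUnit_iff`). The leading coefficient of a factor divides the one of `p`
(`leadingCoeff_mul`, multiset products: `Polynomial.leadingCoeff_multiset_prod`), which is non zero,
hence `≤ |lc p| ≤ Λ` (`Int.le_of_dvd` on absolute values).

`coprime_roots`: PROOF. By Gauss's lemma (`Irreducible.isPrimitive`,
`Polynomial.IsPrimitive.Int.irreducible_iff_irreducible_map_cast`) both are irreducible over ℚ. If
they had a common complex root `η` they would be associated over ℚ (both associated to `minpoly ℚ η`,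
or Bezout), `π' = C r * π` over ℚ, hence (primitive: `IsPrimitive.Int.dvd_iff_map_cast_dvd_map_cast`)
each divides the other in ℤ[X], `π' = ± π`, and the positive leading coefficients give `π = π'`. -/

namespace Pool.Agent.ISI

open Pool.Agent.Helper11 Polynomial

theorem exists_factors {Λ : ℕ} {p : ℤ[X]} (hp : p ≠ 0) (hl : p.leadingCoeff.natAbs ≤ Λ) :
    ∃ (n : ℤ) (s : Multiset ℤ[X]), n ≠ 0 ∧ (∀ π ∈ s, Irr Λ π) ∧ p = C n * s.prod := by
  have key : ∀ p : ℤ[X], p ≠ 0 → p.leadingCoeff.natAbs ≤ Λ →
      ∃ (n : ℤ) (s : Multiset ℤ[X]), n ≠ 0 ∧ (∀ π ∈ s, Irr Λ π) ∧ p = C n * s.prod := by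
    intro p
    refine WfDvdMonoid.induction_on_irreducible
      (motive := fun p => p ≠ 0 → p.leadingCoeff.natAbs ≤ Λ →
        ∃ (n : ℤ) (s : Multiset ℤ[X]), n ≠ 0 ∧ (∀ π ∈ s, Irr Λ π) ∧ p = C n * s.prod)
      p ?_ ?_ ?_
    · intro h
      exact absurd rfl h
    · intro u hu _ _
      obtain ⟨r, hr, rfl⟩ := Polynomial.isUnit_iff.1 hu
      exact ⟨r, 0, hr.ne_zero, fun π h => absurd h (Multiset.notMem_zero π), by
        rw [Multiset.prod_zero, mul_one]⟩
    · intro a i ha hi ih _ hl
      rw [leadingCoeff_mul, Int.natAbs_mul] at hl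
      have hi0 : 0 < i.leadingCoeff.natAbs :=
        Int.natAbs_pos.2 (leadingCoeff_ne_zero.2 hi.ne_zero)
      have ha0 : 0 < a.leadingCoeff.natAbs := Int.natAbs_pos.2 (leadingCoeff_ne_zero.2 ha)
      obtain ⟨n, s, hn, hs, hp⟩ := ih ha ((Nat.le_mul_of_pos_left _ hi0).trans hl)
      have hiΛ : i.leadingCoeff.natAbs ≤ Λ := (Nat.le_mul_of_pos_right _ ha0).trans hl
      by_cases hd : i.natDegree = 0
      · obtain ⟨k, hk⟩ := natDegree_eq_zero.1 hd
        have hk0 : k ≠ 0 := by
          rintro rfl
          apply hi.ne_zero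
          rw [← hk, C_0]
        refine ⟨k * n, s, mul_ne_zero hk0 hn, hs, ?_⟩
        rw [hp, ← hk, C_mul, mul_assoc]
      · have hd' : 0 < i.natDegree := Nat.pos_of_ne_zero hd
        rcases lt_or_gt_of_ne (leadingCoeff_ne_zero.2 hi.ne_zero) with h1 | h1
        · refine ⟨-n, (-i) ::ₘ s, neg_ne_zero.2 hn, ?_, ?_⟩
          · intro π hπ
            rcases Multiset.mem_cons.1 hπ with h | h
            · rw [h]
              refine ⟨(Associated.neg_right (Associated.refl i)).irreducible hi, ?_, ?_, ?_⟩
              · rw [natDegree_neg]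
                exact hd'
              · rw [leadingCoeff_neg]
                omega
              · rw [leadingCoeff_neg]
                omega
            · exact hs π h
          · rw [hp, Multiset.prod_cons, C_neg]
            ring
        · refine ⟨n, i ::ₘ s, hn, ?_, ?_⟩
          · intro π hπ
            rcases Multiset.mem_cons.1 hπ with h | h
            · rw [h]
              exact ⟨hi, hd', h1, by omega⟩
            · exact hs π h
          · rw [hp, Multiset.prod_cons]
            ring
  exact key p hp hl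

theorem coprime_roots {Λ : ℕ} {π π' : ℤ[X]} (h : Irr Λ π) (h' : Irr Λ π') (hne : π ≠ π') {η : ℂ}
    (h1 : aeval η π = 0) (h2 : aeval η π' = 0) : False := by
  have hprim : ∀ {π : ℤ[X]}, Irr Λ π → π.IsPrimitive := fun h =>
    h.irr.isPrimitive (Nat.pos_iff_ne_zero.1 h.deg)
  have hass : ∀ {π : ℤ[X]}, Irr Λ π → aeval η π = 0 →
      Associated (minpoly ℚ η) (π.map (Int.castRingHom ℚ)) := by
    intro π h h1
    have hirr : Irreducible (π.map (Int.castRingHom ℚ)) :=
      (IsPrimitive.Int.irreducible_iff_irreducible_map_cast (hprim h)).1 h.irr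
    have h2 : aeval η (π.map (Int.castRingHom ℚ)) = 0 := by
      rw [aeval_map, h1]
    have hint : IsIntegral ℚ η :=
      (isAlgebraic_iff_isIntegral (K := ℚ)).1 ⟨_, hirr.ne_zero, h2⟩
    exact (minpoly.irreducible hint).associated_of_dvd hirr (minpoly.dvd ℚ η h2)
  have h3 : Associated (π.map (Int.castRingHom ℚ)) (π'.map (Int.castRingHom ℚ)) :=
    (hass h h1).symm.trans (hass h' h2)
  have h4 : π ∣ π' :=
    (IsPrimitive.Int.dvd_iff_map_cast_dvd_map_cast π π' (hprim h)).2 h3.dvd
  have h5 : Associated π π' := h.irr.associated_of_dvd h'.irr h4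
  obtain ⟨u, hu⟩ := h5
  obtain ⟨r, hr, hru⟩ := Polynomial.isUnit_iff.1 u.isUnit
  apply hne
  rcases Int.isUnit_iff.1 hr with h6 | h6
  · rw [h6, C_1] at hru
    rw [← hru, mul_one] at hu
    exact hu
  · exfalso
    rw [h6] at hru
    have h7 : π' = -π := by
      rw [← hu, ← hru, C_neg, C_1]
      ring
    have h8 := h'.pos
    rw [h7, leadingCoeff_neg] at h8
    have h9 := h.pos
    omega

end Pool.Agent.ISI
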