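import Mathlib
import Pool.Agent.ISI.ExpA

/-! MODULE ISI-Exp (normal form of the elements of `suppSym`).

`x = xK α β c K a e` transcendental over ℚ (`hx`). `Irr Λ π`: irreducible in ℤ[X], positive degree,
`0 < leadingCoeff ≤ Λ`.

PROOF. (1) Every `u ∈ suppGroup A K Λ x` is `u = v * g` with `v ∈ UA`, `g ∈ GP α β c K Λ a e`
(closure induction; the second kind of generators is `pz x p`, `p ≠ 0` because `u ≠ 0`, `pq_congr`-like).
So (expand `sy (v g) (v' g')`, `symM f = sy (f 0) (f 1)`) every element of `suppSym` is a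
combination of elements of `US` (`sy_mem_US`), of `LG`, and of symbols `sy g v`, `g ∈ GP`,
`v ∈ UA` (`sy_anti`).
(2) The set `NF` of the `z` with the property of the statement is a ℚ-subspace containing `LG ⊔ US`:
for a sum take `M M'`, the union of the `P`'s (value `w = 1` outside), and combine
`a {π, w} + b {π, w'} = {π, w^a w'^b}` (`sy_mul_right`, `sy_zpow_right`; `a, b` integers); for a rational scalar
`p / q` multiply the equation by `p`, using `w^p`, and take `M q`.
(3) `sy g v ∈ NF` for `g ∈ GP`, `v ∈ UA`: by closure induction on `g` (products, inverses: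
`sy_mul_left`, `sy (g⁻¹) v = - sy g v`) it suffices to take generators: `g = cst q`, `g = LK j`
are in `UA` (`cst_mem, LK_mem`), so `sy g v ∈ US`. For `g = pz x p`: `exists_factors` (ExpA.lean)
gives `p = C n * s.prod`; `pz_mul` and induction over the multiset; `pz x (C n) = cst n ∈ UA`
(`pq_C`, `Polynomial.map_C`); and `sy (pz x π) v` is in `NF` with `P = {π}`, `M = 1`. -/

namespace Pool.Agent.ISI

open Pool.Agent.Helper11 Polynomial

variable {N : ℕ} {α : Fin N → Fin 2 → ℤ} {β : Fin N → ℤ} {c : ℤ} {a : Fin 2 → ℤ} {e : ℤ}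

private def NF (α : Fin N → Fin 2 → ℤ) (β : Fin N → ℤ) (c : ℤ) (K : Type) [Field K] [CharZero K]
    [Algebra (HypRingQ (n := 1) α β c) K] (Λ : ℕ) (a : Fin 2 → ℤ) (e : ℤ) (z : KMQ K 2) : Prop :=
  ∃ (M : ℕ) (P : Finset ℤ[X]) (w : ℤ[X] → (HypRingQ (n := 1) α β c)ˣ), M ≠ 0 ∧
      (∀ π ∈ P, Irr Λ π) ∧
      (M : ℚ) • z - ∑ π ∈ P, sy (pz (xK α β c K a e) π) (uK α β c K (w π)) ∈
        LG α β c K Λ a e ⊔ US α β c K

variable {K : Type} [Field K] [CharZero K] [Algebra (HypRingQ (n := 1) α β c) K] {Λ : ℕ}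

private lemma uK_mul (v w : (HypRingQ (n := 1) α β c)ˣ) :
    uK α β c K (v * w) = uK α β c K v * uK α β c K w := map_mul _ v w

private lemma uK_one : uK α β c K 1 = 1 := map_one _

private lemma uK_zpow (v : (HypRingQ (n := 1) α β c)ˣ) (n : ℤ) :
    uK α β c K (v ^ n) = uK α β c K v ^ n := map_zpow _ v n

private lemma NF_of_mem {z : KMQ K 2} (hz : z ∈ LG α β c K Λ a e ⊔ US α β c K) :
    NF α β c K Λ a e z := by
  refine ⟨1, ∅, fun _ => 1, one_ne_zero, by simp, ?_⟩
  simpa using hz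

private lemma NF_add {z z' : KMQ K 2} (h : NF α β c K Λ a e z) (h' : NF α β c K Λ a e z') :
    NF α β c K Λ a e (z + z') := by
  classical
  obtain ⟨M, P, w, hM, hP, hm⟩ := h
  obtain ⟨M', P', w', hM', hP', hm'⟩ := h'
  have hext : ∀ (Q : Finset ℤ[X]) (v : ℤ[X] → (HypRingQ (n := 1) α β c)ˣ) (R : Finset ℤ[X]),
      Q ⊆ R → ∑ π ∈ Q, sy (pz (xK α β c K a e) π) (uK α β c K (v π)) =
        ∑ π ∈ R, sy (pz (xK α β c K a e) π) (uK α β c K (if π ∈ Q then v π else 1)) := by
    intro Q v R hQR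
    rw [← Finset.sum_subset hQR]
    · refine Finset.sum_congr rfl fun π hπ => ?_
      rw [if_pos hπ]
    · intro π _ hπ
      rw [if_neg hπ, uK_one, sy_one_right]
  have e1 := hext P w (P ∪ P') Finset.subset_union_left
  have e2 := hext P' w' (P ∪ P') Finset.subset_union_right
  refine ⟨M * M', P ∪ P', fun π => (if π ∈ P then w π else 1) ^ (M' : ℤ) *
    (if π ∈ P' then w' π else 1) ^ (M : ℤ), mul_ne_zero hM hM', ?_, ?_⟩
  · intro π hπ
    rcases Finset.mem_union.1 hπ with h | h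
    · exact hP π h
    · exact hP' π h
  · have e3 : ∑ π ∈ P ∪ P', sy (pz (xK α β c K a e) π) (uK α β c K
        ((if π ∈ P then w π else 1) ^ (M' : ℤ) * (if π ∈ P' then w' π else 1) ^ (M : ℤ))) =
        (M' : ℚ) • ∑ π ∈ P, sy (pz (xK α β c K a e) π) (uK α β c K (w π)) +
        (M : ℚ) • ∑ π ∈ P', sy (pz (xK α β c K a e) π) (uK α β c K (w' π)) := by
      rw [e1, e2, Finset.smul_sum, Finset.smul_sum, ← Finset.sum_add_distrib]
      refine Finset.sum_congr rfl fun π _ => ?_
      rw [uK_mul, uK_zpow, uK_zpow, sy_mul_right, sy_zpow_right, sy_zpow_right, Int.cast_natCast,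
        Int.cast_natCast]
    rw [e3]
    have e4 : ((M * M' : ℕ) : ℚ) • (z + z') -
        ((M' : ℚ) • ∑ π ∈ P, sy (pz (xK α β c K a e) π) (uK α β c K (w π)) +
        (M : ℚ) • ∑ π ∈ P', sy (pz (xK α β c K a e) π) (uK α β c K (w' π))) =
        (M' : ℚ) • ((M : ℚ) • z - ∑ π ∈ P, sy (pz (xK α β c K a e) π) (uK α β c K (w π))) +
        (M : ℚ) • ((M' : ℚ) • z' - ∑ π ∈ P', sy (pz (xK α β c K a e) π) (uK α β c K (w' π))) := by
      push_cast
      module
    rw [e4]
    exact Submodule.add_mem _ (Submodule.smul_mem _ _ hm) (Submodule.smul_mem _ _ hm')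

private lemma NF_smul {z : KMQ K 2} (q : ℚ) (h : NF α β c K Λ a e z) :
    NF α β c K Λ a e (q • z) := by
  obtain ⟨M, P, w, hM, hP, hm⟩ := h
  refine ⟨M * q.den, P, fun π => w π ^ q.num, mul_ne_zero hM q.den_nz, hP, ?_⟩
  have e3 : ∑ π ∈ P, sy (pz (xK α β c K a e) π) (uK α β c K (w π ^ q.num)) =
      (q.num : ℚ) • ∑ π ∈ P, sy (pz (xK α β c K a e) π) (uK α β c K (w π)) := by
    rw [Finset.smul_sum]
    refine Finset.sum_congr rfl fun π _ => ?_
    rw [uK_zpow, sy_zpow_right]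
  rw [e3]
  have e5 : ((M * q.den : ℕ) : ℚ) • (q • z) = (q.num : ℚ) • ((M : ℚ) • z) := by
    rw [smul_smul, smul_smul]
    congr 1
    push_cast
    have := Rat.den_mul_eq_num q
    rw [← this]
    ring
  rw [e5, ← smul_sub]
  exact Submodule.smul_mem _ _ hm

private lemma NF_neg {z : KMQ K 2} (h : NF α β c K Λ a e z) : NF α β c K Λ a e (-z) := by
  have := NF_smul (-1) h
  rwa [neg_one_smul] at this

private lemma sy_one_left' (u : Kˣ) : sy 1 u = 0 := by
  rw [sy_anti, sy_one_right, neg_zero]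

private lemma sy_inv_left' (u v : Kˣ) : sy u⁻¹ v = - sy u v := by
  rw [sy_anti, sy_inv_right, neg_neg, sy_anti]

private lemma NF_pz (hx : Transcendental ℚ (xK α β c K a e)) {p : ℤ[X]} (hp : p ≠ 0)
    (hl : p.leadingCoeff.natAbs ≤ Λ) {v : Kˣ} (hv : v ∈ UA α β c K) :
    NF α β c K Λ a e (sy (pz (xK α β c K a e) p) v) := by
  obtain ⟨n, s, hn, hs, rfl⟩ := exists_factors hp hl
  have hirr : ∀ π : ℤ[X], Irr Λ π → NF α β c K Λ a e (sy (pz (xK α β c K a e) π) v) := by
    intro π hπ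
    obtain ⟨f, rfl⟩ := hv
    refine ⟨1, {π}, fun _ => f, one_ne_zero, ?_, ?_⟩
    · intro π' hπ'
      rw [Finset.mem_singleton.1 hπ']
      exact hπ
    · have : ((1 : ℕ) : ℚ) • sy (pz (xK α β c K a e) π)
          ((Units.map (algebraMap (HypRingQ (n := 1) α β c) K : HypRingQ (n := 1) α β c →* K)) f) -
          ∑ π' ∈ {π}, sy (pz (xK α β c K a e) π') (uK α β c K f) = 0 := by
        rw [Finset.sum_singleton, Nat.cast_one, one_smul]
        exact sub_self _
      rw [this]
      exact Submodule.zero_mem _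
  have hprod : ∀ s : Multiset ℤ[X], (∀ π ∈ s, Irr Λ π) →
      NF α β c K Λ a e (sy (pz (xK α β c K a e) s.prod) v) := by
    intro s
    induction s using Multiset.induction with
    | empty =>
      intro _
      have h1 : pz (xK α β c K a e) (1 : ℤ[X]) = 1 := by
        apply Units.ext
        rw [pz_val hx one_ne_zero, map_one, Units.val_one]
      rw [Multiset.prod_zero, h1, sy_one_left']
      exact NF_of_mem (Submodule.zero_mem _)
    | cons π s ih =>
      intro hs
      have h0 : π ≠ 0 := (hs π (Multiset.mem_cons_self π s)).irr.ne_zero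
      have h1 : s.prod ≠ 0 := by
        rw [Ne, Multiset.prod_eq_zero_iff]
        intro h
        exact (hs 0 (Multiset.mem_cons_of_mem h)).irr.ne_zero rfl
      rw [Multiset.prod_cons, pz_mul hx h0 h1, sy_mul_left]
      exact NF_add (hirr π (hs π (Multiset.mem_cons_self π s)))
        (ih fun π' h => hs π' (Multiset.mem_cons_of_mem h))
  have hs0 : s.prod ≠ 0 := by
    rw [Ne, Multiset.prod_eq_zero_iff]
    intro h
    exact (hs 0 h).irr.ne_zero rfl
  have hC0 : (C n : ℤ[X]) ≠ 0 := C_ne_zero.2 hn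
  have hnQ : (n : ℚ) ≠ 0 := by exact_mod_cast hn
  have hCn : pz (xK α β c K a e) (C n) = cst K (Units.mk0 (n : ℚ) hnQ) := by
    unfold pz
    rw [Polynomial.map_C]
    exact pq_C hx (Units.mk0 (n : ℚ) hnQ)
  rw [pz_mul hx hC0 hs0, sy_mul_left, hCn]
  exact NF_add (NF_of_mem (Submodule.mem_sup_right (sy_mem_US (cst_mem _) hv))) (hprod s hs)

private lemma NF_GP (hx : Transcendental ℚ (xK α β c K a e)) {g v : Kˣ}
    (hg : g ∈ GP α β c K Λ a e) (hv : v ∈ UA α β c K) : NF α β c K Λ a e (sy g v) := by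
  unfold GP at hg
  induction hg using Subgroup.closure_induction with
  | mem u hu =>
    rcases hu with (⟨q, rfl⟩ | ⟨j, _, rfl⟩) | ⟨p, hp, hl, rfl⟩
    · exact NF_of_mem (Submodule.mem_sup_right (sy_mem_US (cst_mem _) hv))
    · exact NF_of_mem (Submodule.mem_sup_right (sy_mem_US (LK_mem _) hv))
    · exact NF_pz hx hp hl hv
  | one =>
    rw [sy_one_left']
    exact NF_of_mem (Submodule.zero_mem _)
  | mul u u' _ _ h h' =>
    rw [sy_mul_left]
    exact NF_add h h'
  | inv u _ h =>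
    rw [sy_inv_left']
    exact NF_neg h

private lemma supp_split (hx : Transcendental ℚ (xK α β c K a e)) {u : Kˣ}
    (hu : u ∈ suppGroup (HypRingQ (n := 1) α β c) K Λ (xK α β c K a e)) :
    ∃ v ∈ UA α β c K, ∃ g ∈ GP α β c K Λ a e, u = v * g := by
  have h : suppGroup (HypRingQ (n := 1) α β c) K Λ (xK α β c K a e) ≤
      UA α β c K ⊔ GP α β c K Λ a e := by
    unfold suppGroup
    rw [Subgroup.closure_le]
    rintro u (⟨f, hf⟩ | ⟨p, hl, hp⟩)
    · refine Subgroup.mem_sup_left ⟨f, ?_⟩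
      apply Units.ext
      rw [hf]
      rfl
    · have hp0 : p ≠ 0 := by
        rintro rfl
        rw [map_zero] at hp
        exact u.ne_zero hp
      refine Subgroup.mem_sup_right (Subgroup.subset_closure (Or.inr ⟨p, hp0, hl, ?_⟩))
      apply Units.ext
      rw [hp, pz_val hx hp0]
  obtain ⟨v, hv, g, hg, h1⟩ := Subgroup.mem_sup.1 (h hu)
  exact ⟨v, hv, g, hg, h1.symm⟩

private lemma NF_sym (hx : Transcendental ℚ (xK α β c K a e)) {u u' : Kˣ}
    (hu : u ∈ suppGroup (HypRingQ (n := 1) α β c) K Λ (xK α β c K a e))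
    (hu' : u' ∈ suppGroup (HypRingQ (n := 1) α β c) K Λ (xK α β c K a e)) :
    NF α β c K Λ a e (sy u u') := by
  obtain ⟨v, hv, g, hg, rfl⟩ := supp_split hx hu
  obtain ⟨v', hv', g', hg', rfl⟩ := supp_split hx hu'
  rw [sy_mul_left, sy_mul_right, sy_mul_right]
  refine NF_add (NF_add ?_ ?_) (NF_add ?_ ?_)
  · exact NF_of_mem (Submodule.mem_sup_right (sy_mem_US hv hv'))
  · rw [sy_anti]
    exact NF_neg (NF_GP hx hg' hv)
  · exact NF_GP hx hg hv'
  · exact NF_of_mem (Submodule.mem_sup_left (Submodule.subset_span ⟨g, g', hg, hg', rfl⟩))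

theorem normal_form {K : Type} [Field K] [CharZero K] [Algebra (HypRingQ (n := 1) α β c) K]
    {Λ : ℕ} (hx : Transcendental ℚ (xK α β c K a e)) {z : KMQ K 2}
    (hz : z ∈ suppSym (HypRingQ (n := 1) α β c) K Λ (xK α β c K a e)) :
    ∃ (M : ℕ) (P : Finset ℤ[X]) (w : ℤ[X] → (HypRingQ (n := 1) α β c)ˣ), M ≠ 0 ∧
      (∀ π ∈ P, Irr Λ π) ∧
      (M : ℚ) • z - ∑ π ∈ P, sy (pz (xK α β c K a e) π) (uK α β c K (w π)) ∈
        LG α β c K Λ a e ⊔ US α β c K := by
  change NF α β c K Λ a e z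
  unfold suppSym at hz
  induction hz using Submodule.span_induction with
  | mem z hz =>
    obtain ⟨f, hf, rfl⟩ := hz
    have h1 : (symM f : KMQ K 2) = sy (f 0) (f 1) := by
      change symM f = symM ![f 0, f 1]
      congr 1
      funext m
      fin_cases m <;> rfl
    rw [h1]
    exact NF_sym hx (hf 0) (hf 1)
  | zero => exact NF_of_mem (Submodule.zero_mem _)
  | add z z' _ _ h h' => exact NF_add h h'
  | smul q z _ h => exact NF_smul q h

end Pool.Agent.ISI
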