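import Mathlib
import Pool.Agent.ISI.Base
import Pool.Agent.ISI.Lin

/-! MODULE ISI-Stb (Steinberg relation for three concurrent lines; membership lemmas).

`stb`: PROOF. `r₁ g / f + r₂ h / f = 1`, so `{r₁ g/f, r₂ h/f} = 0` (`sy_steinberg`, with
`cst K r₁` as constants). Expand with `sy_mul_left, sy_mul_right, sy_div_left, sy_div_right`,
`sy_self`, and `{r₁, r₂} = 0` (`sy_isC, isC_cst`):
`0 = {r₁,h} - {r₁,f} + {g,r₂} + {g,h} - {g,f} - {f,r₂} - {f,h}`, and `-{g,f} = {f,g}`, so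
`{f, g/h} = {r₁,f} + {f,r₂} - {r₁,h} - {g,r₂} - {g,h}`.

`pz_mem_GP` etc.: subset_closure. `pq_mem`: a polynomial `C r * (C A * X + C B)` over ℚ with value
`r (A x + B)`: used to compare `pz x π` with the forms.

`par_val`: if `dl α a j = 0` and `π = r (α j m X + (a m β j - α j m e))` then (by `linp` for the
point with coordinates `algebraMap (qmk (X 0)), ..`, `affFun_eq`, `map_affFun`, `lf_eq`)
`π(x) = r a m L_j` in `K`: so `pz x π = cst (r a m) * LK j` lies in `UA` (`cst_mem, LK_mem`).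

`pair_val`: if `π = r (hypDet X - d3 j k)` then by `lin3`
`π(x) = r (dl k L_j - dl j L_k) = (r dl k) L_j + (- r dl j) L_k`. -/

namespace Pool.Agent.ISI

open Pool.Agent.Helper11 Polynomial

theorem stb {K : Type} [Field K] [CharZero K] {f g h : Kˣ} {r₁ r₂ : ℚˣ}
    (hf : (f : K) = (r₁ : ℚ) * g + (r₂ : ℚ) * h) :
    sy f (g / h) = sy (cst K r₁) f + sy f (cst K r₂) - sy (cst K r₁) h - sy g (cst K r₂) -
      sy g h := by
  have h1 : ((cst K r₁ * g / f : Kˣ) : K) + ((cst K r₂ * h / f : Kˣ) : K) = 1 := by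
    rw [Units.val_div_eq_div_val, Units.val_div_eq_div_val, Units.val_mul, Units.val_mul,
      cst_val, cst_val, ← add_div, ← hf]
    exact div_self f.ne_zero
  have h2 := sy_steinberg h1
  rw [sy_div_left, sy_div_right, sy_div_right, sy_self, sy_mul_left, sy_mul_right, sy_mul_right,
    sy_mul_left, sy_mul_right, sy_isC (isC_cst r₁) (isC_cst r₂)] at h2
  rw [sy_div_right, sy_anti f g]
  have h3 : sy f h = sy g h + sy (cst K r₁) h + sy g (cst K r₂) - sy (cst K r₁) f - sy g f -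
      sy f (cst K r₂) := by
    rw [← sub_eq_zero]
    rw [← neg_eq_zero, ← h2]
    abel
  rw [h3]
  abel

variable {N : ℕ} {α : Fin N → Fin 2 → ℤ} {β : Fin N → ℤ} {c : ℤ} {a : Fin 2 → ℤ} {e : ℤ}

private lemma xK_av {K : Type} [Field K] [Algebra (HypRingQ (n := 1) α β c) K] :
    xK α β c K a e = av a e ![algebraMap (HypRingQ (n := 1) α β c) K
      (qmk α β c (MvPolynomial.X 0)), algebraMap (HypRingQ (n := 1) α β c) K
      (qmk α β c (MvPolynomial.X 1))] :=
  map_affFun (α := α) (β := β) (c := c) (algebraMap (HypRingQ (n := 1) α β c) K) a e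

private lemma LK_av {K : Type} [Field K] [Algebra (HypRingQ (n := 1) α β c) K] (j : Fin N) :
    (LK α β c K j : K) = av (α j) (β j) ![algebraMap (HypRingQ (n := 1) α β c) K
      (qmk α β c (MvPolynomial.X 0)), algebraMap (HypRingQ (n := 1) α β c) K
      (qmk α β c (MvPolynomial.X 1))] :=
  map_affFun (α := α) (β := β) (c := c) (algebraMap (HypRingQ (n := 1) α β c) K) (α j) (β j)

private lemma aeval_form {K : Type} [Field K] [CharZero K] (x : K) {π : ℤ[X]} {r : ℚ} {u v : ℤ}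
    (h : π.map (Int.castRingHom ℚ) = C r * (C (u : ℚ) * X + C (v : ℚ))) :
    aeval x π = (r : K) * ((u : K) * x + (v : K)) := by
  rw [← aeval_map, h, map_mul, map_add, map_mul, aeval_C, aeval_C, aeval_C, aeval_X,
    eq_ratCast, eq_ratCast, eq_ratCast]
  push_cast
  rfl

theorem par_val {K : Type} [Field K] [CharZero K] [Algebra (HypRingQ (n := 1) α β c) K]
    (hx : Transcendental ℚ (xK α β c K a e)) {π : ℤ[X]} (hπ : π ≠ 0) {j : Fin N} {m : Fin 2}
    (hj : dl α a j = 0) (hm : a m ≠ 0) {r : ℚ} (hr : r ≠ 0)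
    (h : π.map (Int.castRingHom ℚ) =
      C r * (C (α j m : ℚ) * X + C ((a m * β j - α j m * e : ℤ) : ℚ))) :
    ∃ q : ℚˣ, pz (xK α β c K a e) π = cst K q * LK α β c K j := by
  have hq : r * (a m : ℚ) ≠ 0 := mul_ne_zero hr (by exact_mod_cast hm)
  refine ⟨Units.mk0 _ hq, ?_⟩
  apply Units.ext
  rw [pz_val hx hπ, Units.val_mul, cst_val, Units.val_mk0, aeval_form _ h, LK_av]
  have h1 := linp (S := K) ![algebraMap (HypRingQ (n := 1) α β c) K
      (qmk α β c (MvPolynomial.X 0)), algebraMap (HypRingQ (n := 1) α β c) K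
      (qmk α β c (MvPolynomial.X 1))] (a := a) (e := e) (β := β) hj m
  rw [← xK_av (α := α) (β := β) (c := c) (a := a) (e := e)] at h1
  rw [Rat.cast_mul, Rat.cast_intCast, mul_assoc, h1]

theorem pair_val {K : Type} [Field K] [CharZero K] [Algebra (HypRingQ (n := 1) α β c) K]
    (hx : Transcendental ℚ (xK α β c K a e)) {π : ℤ[X]} (hπ : π ≠ 0) {j k : Fin N}
    (hj : dl α a j ≠ 0) (hk : dl α a k ≠ 0) {r : ℚ} (hr : r ≠ 0)
    (h : π.map (Int.castRingHom ℚ) =
      C r * (C (hypDet α ![j, k] : ℚ) * X + C ((-d3 α β a e j k : ℤ) : ℚ))) :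
    ∃ r₁ r₂ : ℚˣ, (pz (xK α β c K a e) π : K) =
      (r₁ : ℚ) * (LK α β c K j : K) + (r₂ : ℚ) * (LK α β c K k : K) := by
  have h1 : r * (dl α a k : ℚ) ≠ 0 := mul_ne_zero hr (by exact_mod_cast hk)
  have h2 : -(r * (dl α a j : ℚ)) ≠ 0 := neg_ne_zero.2 (mul_ne_zero hr (by exact_mod_cast hj))
  refine ⟨Units.mk0 _ h1, Units.mk0 _ h2, ?_⟩
  rw [pz_val hx hπ, Units.val_mk0, Units.val_mk0, aeval_form _ h, LK_av, LK_av]
  have h3 := lin3 (S := K) ![algebraMap (HypRingQ (n := 1) α β c) K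
      (qmk α β c (MvPolynomial.X 0)), algebraMap (HypRingQ (n := 1) α β c) K
      (qmk α β c (MvPolynomial.X 1))] (α := α) (a := a) (e := e) (β := β) j k
  rw [← xK_av (α := α) (β := β) (c := c) (a := a) (e := e)] at h3
  push_cast
  linear_combination (r : K) * h3

end Pool.Agent.ISI
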