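import Mathlib
import Pool.Agent.ISI.Base
import Pool.Agent.ISI.Lin
import Pool.Agent.ISI.Stb

/-! MODULE ISI-Glp (the elements of `GP` are quotients of polynomials in `x`).

PROOF of `GP_quot`: closure induction. `cst q = pq x (C q) / pq x 1`; `pz x p = pq x (p.map ..)`;
`LK j` with `dl α a j = 0`: choose `m` with `a m ≠ 0` (`ha`); by `linp` (for the point with
coordinates `![qmk (X 0), qmk (X 1)]` in `A`, pushed to `K`; `affFun_eq`, `lf_eq`, `crvU_val`,
`LK`) `a m L_j = α j m x + (a m β j - α j m e)` in `K`, so `LK j = pq x (C (α j m) * X + C (..)) / cst (a m)`,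
the polynomial being non zero since `LK j ≠ 0`. Products and inverses: `pq_mul`.
PROOF of `LG_le_LP`: `sy (P/Q) (P'/Q')` expands by `sy_div_left, sy_div_right`.
PROOF of `root_mem`: the polynomial `X - C s` with `s = -(a m β j - α j m e)/α j m` is
`(α j m)⁻¹ (α j m X + (a m β j - α j m e))`, so `pq x (X - C s) = cst (a m / α j m) * LK j`. -/

namespace Pool.Agent.ISI

open Pool.Agent.Helper11 Polynomial

variable {N : ℕ} {α : Fin N → Fin 2 → ℤ} {β : Fin N → ℤ} {c : ℤ} {a : Fin 2 → ℤ} {e : ℤ}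
variable {K : Type} [Field K] [CharZero K] [Algebra (HypRingQ (n := 1) α β c) K]

omit [CharZero K] in
private lemma par_eq {j : Fin N} (hj : dl α a j = 0) (m : Fin 2) :
    ((a m : ℤ) : K) * (LK α β c K j : K) =
      ((α j m : ℤ) : K) * xK α β c K a e + ((a m * β j - α j m * e : ℤ) : K) := by
  have h := linp (S := HypRingQ (n := 1) α β c) (β := β) (e := e)
    ![qmk α β c (MvPolynomial.X 0), qmk α β c (MvPolynomial.X 1)] hj m
  rw [← affFun_eq, ← affFun_eq] at h
  have h2 := congrArg (algebraMap (HypRingQ (n := 1) α β c) K) h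
  rw [map_mul, map_add, map_mul, map_intCast, map_intCast, map_intCast] at h2
  exact h2

private lemma pq_one' {x : K} (hx : Transcendental ℚ x) : pq x 1 = 1 :=
  (pq_congr hx one_ne_zero (by rw [map_one, Units.val_one])).symm

theorem GP_quot (hx : Transcendental ℚ (xK α β c K a e)) (ha : a ≠ 0) {Λ : ℕ} {f : Kˣ}
    (hf : f ∈ GP α β c K Λ a e) :
    ∃ p q : ℚ[X], p ≠ 0 ∧ q ≠ 0 ∧ f = pq (xK α β c K a e) p / pq (xK α β c K a e) q := by
  refine Subgroup.closure_induction (p := fun f _ => ∃ p q : ℚ[X], p ≠ 0 ∧ q ≠ 0 ∧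
    f = pq (xK α β c K a e) p / pq (xK α β c K a e) q) ?_ ?_ ?_ ?_ hf
  · rintro u ((⟨q, rfl⟩ | ⟨j, hj, rfl⟩) | ⟨p, hp, -, rfl⟩)
    · refine ⟨C (q : ℚ), 1, C_ne_zero.2 q.ne_zero, one_ne_zero, ?_⟩
      rw [pq_C hx, pq_one' hx, div_one]
    · obtain ⟨m, hm⟩ := Function.ne_iff.1 ha
      have hm' : a m ≠ 0 := hm
      have hmQ : (a m : ℚ) ≠ 0 := Int.cast_ne_zero.2 hm'
      have hval : aeval (xK α β c K a e)
          (C (α j m : ℚ) * X + C ((a m * β j - α j m * e : ℤ) : ℚ)) =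
          ((a m : ℤ) : K) * (LK α β c K j : K) := by
        rw [par_eq (e := e) hj m]
        simp only [map_add, map_mul, aeval_C, aeval_X, eq_ratCast, Rat.cast_intCast]
      have hne : (C (α j m : ℚ) * X + C ((a m * β j - α j m * e : ℤ) : ℚ)) ≠ 0 := by
        intro h0
        rw [h0, map_zero] at hval
        exact mul_ne_zero (Int.cast_ne_zero.2 hm') (LK α β c K j).ne_zero hval.symm
      refine ⟨C (α j m : ℚ) * X + C ((a m * β j - α j m * e : ℤ) : ℚ), C (a m : ℚ), hne,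
        C_ne_zero.2 hmQ, ?_⟩
      rw [eq_div_iff_mul_eq']
      apply Units.ext
      rw [Units.val_mul, pq_val hx hne, pq_val hx (C_ne_zero.2 hmQ), hval, aeval_C, eq_ratCast,
        Rat.cast_intCast, mul_comm]
    · refine ⟨p.map (Int.castRingHom ℚ), 1, map_ne hp, one_ne_zero, ?_⟩
      rw [pq_one' hx, div_one]
      rfl
  · exact ⟨1, 1, one_ne_zero, one_ne_zero, by rw [div_self']⟩
  · rintro f g - - ⟨p, q, hp, hq, rfl⟩ ⟨p', q', hp', hq', rfl⟩
    refine ⟨p * p', q * q', mul_ne_zero hp hp', mul_ne_zero hq hq', ?_⟩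
    rw [pq_mul hx hp hp', pq_mul hx hq hq', div_mul_div_comm]
  · rintro f - ⟨p, q, hp, hq, rfl⟩
    exact ⟨q, p, hq, hp, by rw [inv_div]⟩

theorem LG_le_LP (hx : Transcendental ℚ (xK α β c K a e)) (ha : a ≠ 0) (Λ : ℕ) :
    LG α β c K Λ a e ≤ LP (xK α β c K a e) := by
  refine Submodule.span_le.2 ?_
  rintro z ⟨f, g, hf, hg, rfl⟩
  obtain ⟨p, q, hp, hq, rfl⟩ := GP_quot hx ha hf
  obtain ⟨p', q', hp', hq', rfl⟩ := GP_quot hx ha hg
  have hmem : ∀ r s : ℚ[X], r ≠ 0 → s ≠ 0 →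
      sy (pq (xK α β c K a e) r) (pq (xK α β c K a e) s) ∈ LP (xK α β c K a e) :=
    fun r s hr hs => Submodule.subset_span ⟨r, s, hr, hs, rfl⟩
  rw [SetLike.mem_coe, sy_div_left, sy_div_right, sy_div_right]
  exact sub_mem (sub_mem (hmem _ _ hp hp') (hmem _ _ hp hq'))
    (sub_mem (hmem _ _ hq hp') (hmem _ _ hq hq'))


theorem root_mem (hx : Transcendental ℚ (xK α β c K a e)) {j : Fin N} (hj : dl α a j = 0)
    {m : Fin 2} (hm : a m ≠ 0) (hα : α j m ≠ 0) {s : ℚ}
    (hs : s = -((a m * β j - α j m * e : ℤ) : ℚ) / α j m) :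
    pq (xK α β c K a e) (X - C s) ∈ UA α β c K := by
  have hmQ : (a m : ℚ) ≠ 0 := Int.cast_ne_zero.2 hm
  have hαQ : (α j m : ℚ) ≠ 0 := Int.cast_ne_zero.2 hα
  have hαK : ((α j m : ℤ) : K) ≠ 0 := Int.cast_ne_zero.2 hα
  have key : pq (xK α β c K a e) (X - C s) =
      cst K (Units.mk0 ((a m : ℚ) / α j m) (div_ne_zero hmQ hαQ)) * LK α β c K j := by
    apply Units.ext
    rw [pq_val hx (X_sub_C_ne_zero s), Units.val_mul, cst_val, Units.val_mk0, map_sub, aeval_X,
      aeval_C, eq_ratCast, hs]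
    have h := par_eq (K := K) (β := β) (c := c) (e := e) hj m
    have h2 : (((a m : ℚ) / (α j m : ℚ) : ℚ) : K) * (LK α β c K j : K) =
        (((a m : ℤ) : K) * (LK α β c K j : K)) / ((α j m : ℤ) : K) := by
      push_cast
      ring
    rw [h2, h]
    push_cast
    field_simp
    ring
  rw [key]
  exact mul_mem (cst_mem _) (LK_mem _)

end Pool.Agent.ISI
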