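import Mathlib
import Pool.Agent.ISI.Base

/-! MODULE ISI-Nor (Noether normalization of the curve).

PROOF. By `exists_kappa hG.hrk` (Helper11/CRing.lean) there is `κ` with `nb α κ k ≠ 0` for all `k`.
Let `ψ : ℚ[X] →+* A`, `ψ p = qmk (theta' κ (C p))` (`theta' κ : ℚ[X][X] →+* MvPolynomial (Fin 2) ℚ`
is the inverse of the isomorphism `thetaE κ`), i.e. `ψ X = x - κ y`.
The ring `A = MvPolynomial / (crvP)` is isomorphic to `ℚ[X][Y] / (newP κ)` (`theta_crvP`), and
`newP` has degree `N ≥ 1` in `Y` with constant non zero leading coefficient `C k`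
(`newP_lead hG.hc hκ hG.hN`, Helper11/CUnits.lean).
Finite: the image `y₀` of `Y` satisfies the monic equation `C k⁻¹ * newP`, and `A` is generated by
`y₀` as an algebra over `ψ`: every element of `A` is `qmk f = qmk (theta' (theta f))`, and
`theta f` modulo the monic `C (C k⁻¹) * newP` has degree < N in `Y`
(`Polynomial.modByMonic`), so `1, y₀, ..., y₀^(N-1)` generate `A` over `ℚ[X]`.
(Or: `RingHom.Finite` of `ℚ[X] → AdjoinRoot (monic)` is `Polynomial.Monic.finite_adjoinRoot`-like,
`AdjoinRoot.powerBasis'`, and `A` is a quotient / isomorphic.)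
Injective: if `newP ∣ C p` in `ℚ[X][Y]` with `p ≠ 0` then degrees in `Y` give `N ≤ 0`
(`(qmk_eq_zero)`, transported by `theta κ`; `theta_theta'`). -/

namespace Pool.Agent.ISI

open Pool.Agent.Helper11 Polynomial

variable {N : ℕ} {α : Fin N → Fin 2 → ℤ} {β : Fin N → ℤ} {c : ℤ}

theorem noether (hG : Good α β c) :
    ∃ ψ : ℚ[X] →+* HypRingQ (n := 1) α β c, Function.Injective ψ ∧ ψ.Finite := by
  obtain ⟨κ, hκ⟩ := exists_kappa hG.hrk
  obtain ⟨hdeg, k, hk, hlead⟩ := newP_lead (β := β) hG.hc hκ hG.hN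
  set P := newP α β c κ with hP
  set M : ℚ[X][X] := C (C k⁻¹) * P with hM
  have hMm : M.Monic := by
    unfold Monic
    rw [hM, leadingCoeff_mul, leadingCoeff_C, hlead, ← C_mul, inv_mul_cancel₀ hk, C_1]
  set G : ℚ[X][X] →+* HypRingQ (n := 1) α β c := (qmk α β c).comp (theta' κ) with hGd
  set ψ : ℚ[X] →+* HypRingQ (n := 1) α β c := G.comp C with hψ
  have hP' : theta' κ P = crvP α β c := by
    rw [hP, ← theta_crvP, theta'_theta]
  have hGM : G M = 0 := by
    rw [hGd, RingHom.comp_apply, hM, map_mul, hP', map_mul, qmk_eq_zero.2 dvd_rfl, mul_zero]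
  have hev : ∀ f : ℚ[X][X], f.eval₂ ψ (G X) = G f := by
    intro f
    have h1 : eval₂RingHom ψ (G X) = G := by
      refine Polynomial.ringHom_ext' ?_ ?_
      · refine RingHom.ext fun p => ?_
        simp [hψ]
      · simp
    have h2 := RingHom.congr_fun h1 f
    rw [coe_eval₂RingHom] at h2
    exact h2
  have hr : M.eval₂ ψ (G X) = 0 := by rw [hev, hGM]
  set ρ : AdjoinRoot M →+* HypRingQ (n := 1) α β c := AdjoinRoot.lift ψ (G X) hr with hρ
  have hρs : Function.Surjective ρ := by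
    intro a
    obtain ⟨f, rfl⟩ := qmk_surjective a
    refine ⟨AdjoinRoot.mk M (theta κ f), ?_⟩
    rw [hρ, AdjoinRoot.lift_mk, hev, hGd, RingHom.comp_apply, theta'_theta]
  have hρψ : ρ.comp (AdjoinRoot.of M) = ψ := by
    refine RingHom.ext fun p => ?_
    rw [RingHom.comp_apply, hρ, AdjoinRoot.lift_of]
  refine ⟨ψ, ?_, ?_⟩
  · rw [injective_iff_map_eq_zero]
    intro p hp
    by_contra hp0
    rw [hψ, RingHom.comp_apply, hGd, RingHom.comp_apply, qmk_eq_zero] at hp
    have h1 := map_dvd (theta κ) hp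
    rw [theta_crvP, theta_theta', ← hP] at h1
    have h2 := natDegree_le_of_dvd h1 (C_ne_zero.2 hp0)
    rw [hdeg, natDegree_C] at h2
    exact absurd hG.hN (by omega)
  · rw [← hρψ]
    refine RingHom.Finite.comp (RingHom.Finite.of_surjective ρ hρs) ?_
    have h1 : Module.Finite ℚ[X] (AdjoinRoot M) := hMm.finite_adjoinRoot
    rw [← AdjoinRoot.algebraMap_eq]
    exact RingHom.finite_algebraMap.2 h1

end Pool.Agent.ISI
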