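import Mathlib

/-! MODULE ISI-Ptsa (the integral closure of a finite extension of ℚ[X]; Mathlib only).

PROOF. Make `A` and `K` algebras over `R = ℚ[X]` with `ψ.toAlgebra` and
`((algebraMap A K).comp ψ).toAlgebra`, `IsScalarTower R A K`. Let `F = FractionRing R` (or
`RatFunc ℚ`), which embeds in `K` (`IsFractionRing.lift` of the injective `R → K`); `Algebra F K`,
`IsScalarTower R F K`. `K` is finite over `F`: `A` is a finite `R`-module, `K` is the fraction field of
`A` (every element of `A` is algebraic over `F`, `K = F(A)`, generated by finitely many algebraic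
elements; useful: `IsIntegralClosure`-free route `Algebra.IsAlgebraic`, `FiniteDimensional` from
`IsLocalization` of `A` at the non zero elements of `R`: since `A` is a domain integral over `R`,
`Algebra.algebraMapSubmonoid A R⁰` already inverts everything,
`IsIntegral.isField...`/`IsFractionRing.isFractionRing_of_isDomain_of_isLocalization`,
`Module.Finite.of_isLocalization R A R⁰`). Characteristic 0 gives separability
(`Algebra.IsSeparable` instance for `CharZero` and algebraic/perfect fields).
Then `B₀ = integralClosure R K` is a Dedekind domain (`integralClosure.isDedekindDomain R F K`) with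
fraction field `K` (`integralClosure.isFractionRing_of_finite_extension F K`).
Put `B = B₀.toSubring`. Elements of `A` are integral over `R`, so `algebraMap A K b ∈ B`; elements of
`B` are integral over `R`, hence over the image of `A`. -/

namespace Pool.Agent.ISI

open Polynomial nonZeroDivisors

theorem exists_dedekind (A : Type) [CommRing A] [IsDomain A] (ψ : ℚ[X] →+* A)
    (hψ : Function.Injective ψ) (hf : ψ.Finite) (K : Type) [Field K] [Algebra A K]
    [IsFractionRing A K] :
    ∃ B : Subring K, IsDedekindDomain B ∧ IsFractionRing B K ∧ (∀ b : A, algebraMap A K b ∈ B) ∧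
      ∀ z ∈ B, (algebraMap A K).IsIntegralElem z := by
  let _ : Algebra ℚ[X] A := ψ.toAlgebra
  let _ : Algebra ℚ[X] K := ((algebraMap A K).comp ψ).toAlgebra
  have : IsScalarTower ℚ[X] A K := IsScalarTower.of_algebraMap_eq fun _ => rfl
  have : Module.Finite ℚ[X] A := hf
  have : FaithfulSMul ℚ[X] A := (faithfulSMul_iff_algebraMap_injective _ _).2 hψ
  have hinj : Function.Injective (algebraMap ℚ[X] K) :=
    (IsFractionRing.injective A K).comp hψ
  have : FaithfulSMul ℚ[X] K := (faithfulSMul_iff_algebraMap_injective _ _).2 hinj
  let _ : Algebra (FractionRing ℚ[X]) K := FractionRing.liftAlgebra ℚ[X] K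
  have : IsScalarTower ℚ[X] (FractionRing ℚ[X]) K :=
    FractionRing.isScalarTower_liftAlgebra ℚ[X] K
  have : Algebra.IsAlgebraic ℚ[X] A := inferInstance
  have hfd : Module.Finite (FractionRing ℚ[X]) K := Module.Finite.of_isLocalization ℚ[X] A ℚ[X]⁰
  have : CharZero (FractionRing ℚ[X]) := inferInstance
  have h1 : IsDedekindDomain (integralClosure ℚ[X] K) := inferInstance
  have h2 : IsFractionRing (integralClosure ℚ[X] K) K :=
    integralClosure.isFractionRing_of_finite_extension (FractionRing ℚ[X]) K
  refine ⟨(integralClosure ℚ[X] K).toSubring, h1, h2, ?_, ?_⟩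
  · intro b
    show IsIntegral ℚ[X] (algebraMap A K b)
    exact (Algebra.IsIntegral.isIntegral (R := ℚ[X]) b).algebraMap
  · intro z hz
    have h3 : IsIntegral ℚ[X] z := hz
    exact (h3.tower_top : IsIntegral A z)

end Pool.Agent.ISI
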