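import Mathlib
import Pool.Agent.ISI.Base

/-! Definitions for the fibres of an affine form over a complex number. -/

namespace Pool.Agent.ISI

open Pool.Agent.Helper11 Polynomial

variable {N : ℕ}

/-- a point with `av a e = η` -/
noncomputable def pt0 (a : Fin 2 → ℤ) (e : ℤ) (η : ℂ) : Fin 2 → ℂ :=
  fun m => (η - e) * a m / ((a 0 : ℂ) ^ 2 + (a 1 : ℂ) ^ 2)

/-- the points with `av a e = η` -/
noncomputable def ptt (a : Fin 2 → ℤ) (e : ℤ) (η t : ℂ) : Fin 2 → ℂ :=
  ![pt0 a e η 0 - t * a 1, pt0 a e η 1 + t * a 0]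

/-- the parameter of the zero of the form `j` -/
noncomputable def tt (α : Fin N → Fin 2 → ℤ) (β : Fin N → ℤ) (a : Fin 2 → ℤ) (e : ℤ) (η : ℂ)
    (j : Fin N) : ℂ := - av (α j) (β j) (pt0 a e η) / dl α a j

/-- the constant value of a parallel form -/
noncomputable def lam (α : Fin N → Fin 2 → ℤ) (β : Fin N → ℤ) (a : Fin 2 → ℤ) (e : ℤ) (η : ℂ)
    (j : Fin N) : ℂ := av (α j) (β j) (pt0 a e η)

/-- the forms which are not parallel to `a` -/
def JJ (α : Fin N → Fin 2 → ℤ) (a : Fin 2 → ℤ) : Finset (Fin N) :=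
  Finset.univ.filter fun j => dl α a j ≠ 0

/-- the leading coefficient of the equation of the fibre -/
noncomputable def CC (α : Fin N → Fin 2 → ℤ) (β : Fin N → ℤ) (c : ℤ) (a : Fin 2 → ℤ) (e : ℤ)
    (η : ℂ) : ℂ := c * ∏ j, if dl α a j = 0 then lam α β a e η j else (dl α a j : ℂ)

end Pool.Agent.ISI
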