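import Mathlib
import Pool.Agent.ISI.FibDefs
import Pool.Agent.ISI.Lin

/-! MODULE ISI-Fib (the fibres of the affine form `(a, e)` on the curve, over ℂ).

PLAN. `a ≠ 0` integral, so `(a 0)² + (a 1)² ≠ 0` in ℂ. `av_ptt`: direct computation.
`av_ptt_j`: `av (α j) (β j) (ptt t) = av (α j) (β j) (pt0) + t * dl α a j`
(`α j 0 * (-a 1) + α j 1 * a 0 = dl`), and the definition of `tt`.
`lam_eq`: `linp` at the point `pt0` (`av a e pt0 = η`).
`tt_sub`: `lin3` at the point `ptt (tt k)`, where `av (α k) (β k) = 0` and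
`av (α j) (β j) = dl j (tt k - tt j)`: `hypDet * η - dl k * dl j * (tt k - tt j) = d3`.
`prod_ptt`: product over `j` of `av_ptt_j`/`lam`: `Finset.prod_filter`-style splitting
(`∏ j, f j = (∏ j ∈ JJ, ...) ...`; e.g. prove
`∏ j, av (α j) (β j) (ptt t) = ∏ j, (if dl = 0 then lam j else dl j) * ∏ j, (if dl ≠ 0 then t - tt j else 1)`
and `Finset.prod_filter`).
`exists_hom_of_root`: `exists_hom` (Base.lean) for the point `ptt t`.
`exists_root`: the polynomial `C (CC) * ∏ j ∈ JJ, (X - C (tt j)) - 1` has degree `card JJ > 0`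
(`exists_not_par`), so it has a complex root (`Complex.exists_root` / `IsAlgClosed.exists_root`).
`CC_ne`: all factors are non zero.
`exists_pt`: `CC ≠ 0`, `exists_root`, `exists_hom_of_root`, `av_ptt`.
`transc`: if `p(affine function) = 0` in `K`, `p ≠ 0`, then (the map `A → K` is injective)
`p` vanishes at `affFun` in `A` (as `aeval` in K: work with
`(evaluation) : ℚ[X] →+* A`, `eval₂RingHom ((qmk α β c).comp MvPolynomial.C) (affFun ..)`,
whose composition with `A → K` is `aeval (xK ..)`), and applying `φ : A →+* ℂ` of `exists_pt` for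
`η` we get `p(η) = 0` for all `η` outside a finite set (`lam_eq`: for parallel `j`, choose `m` with `a m ≠ 0`;
`lam j = 0` only for one value of `η`, since `α j m ≠ 0` by `alpha_ne`): infinitely many roots. -/

namespace Pool.Agent.ISI

open Pool.Agent.Helper11 Polynomial

variable {N : ℕ} {α : Fin N → Fin 2 → ℤ} {β : Fin N → ℤ} {c : ℤ} {a : Fin 2 → ℤ} {e : ℤ}

private lemma sq_ne (ha : a ≠ 0) : ((a 0 : ℂ) ^ 2 + (a 1 : ℂ) ^ 2) ≠ 0 := by
  have h : (a 0) ^ 2 + (a 1) ^ 2 ≠ 0 := by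
    intro h
    apply ha
    have h0 : a 0 = 0 := by nlinarith [sq_nonneg (a 0), sq_nonneg (a 1)]
    have h1 : a 1 = 0 := by nlinarith [sq_nonneg (a 0), sq_nonneg (a 1)]
    funext m
    fin_cases m
    · exact h0
    · exact h1
  exact_mod_cast h

private lemma av_pt0 (ha : a ≠ 0) (η : ℂ) : av a e (pt0 a e η) = η := by
  have h := sq_ne ha
  unfold av pt0
  field_simp
  ring

private lemma av_gen (η t : ℂ) (j : Fin N) :
    av (α j) (β j) (ptt a e η t) = av (α j) (β j) (pt0 a e η) + t * dl α a j := by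
  unfold av dl
  simp only [ptt, Matrix.cons_val_zero, Matrix.cons_val_one]
  push_cast
  ring

theorem av_ptt (ha : a ≠ 0) (η t : ℂ) : av a e (ptt a e η t) = η := by
  have h := av_pt0 (e := e) ha η
  unfold av at h ⊢
  simp only [ptt, Matrix.cons_val_zero, Matrix.cons_val_one]
  linear_combination h

theorem av_ptt_j (η t : ℂ) {j : Fin N} (h : dl α a j ≠ 0) :
    av (α j) (β j) (ptt a e η t) = dl α a j * (t - tt α β a e η j) := by
  rw [av_gen]
  have h' : (dl α a j : ℂ) ≠ 0 := Int.cast_ne_zero.2 h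
  unfold tt
  field_simp
  ring

theorem av_ptt_par (η t : ℂ) {j : Fin N} (h : dl α a j = 0) :
    av (α j) (β j) (ptt a e η t) = lam α β a e η j := by
  rw [av_gen, h]
  unfold lam
  simp

theorem lam_eq (ha : a ≠ 0) (η : ℂ) {j : Fin N} (h : dl α a j = 0) (m : Fin 2) :
    (a m : ℂ) * lam α β a e η j = (α j m : ℂ) * η + ((a m * β j - α j m * e : ℤ) : ℂ) := by
  have h1 := linp (a := a) (e := e) (β := β) (pt0 a e η) h m
  rw [av_pt0 ha] at h1
  exact h1

theorem tt_sub (ha : a ≠ 0) (η : ℂ) {j k : Fin N} (hj : dl α a j ≠ 0) (hk : dl α a k ≠ 0) :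
    (dl α a j : ℂ) * dl α a k * (tt α β a e η k - tt α β a e η j) =
      (hypDet α ![j, k] : ℂ) * η - d3 α β a e j k := by
  have h1 := lin3 (α := α) (β := β) (a := a) (e := e) (ptt a e η (tt α β a e η k)) j k
  rw [av_ptt ha, av_ptt_j η _ hj, av_ptt_j η _ hk] at h1
  linear_combination -h1

theorem prod_ptt (η t : ℂ) :
    (c : ℂ) * ∏ j, av (α j) (β j) (ptt a e η t) =
      CC α β c a e η * ∏ j ∈ JJ α a, (t - tt α β a e η j) := by
  unfold CC JJ
  rw [Finset.prod_filter, mul_assoc, ← Finset.prod_mul_distrib]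
  congr 1
  refine Finset.prod_congr rfl (fun j _ => ?_)
  by_cases h : dl α a j = 0
  · rw [if_pos h, if_neg (not_not.2 h), mul_one]
    exact av_ptt_par η t h
  · rw [if_neg h, if_pos h]
    exact av_ptt_j η t h

theorem exists_hom_of_root (η t : ℂ)
    (h : CC α β c a e η * ∏ j ∈ JJ α a, (t - tt α β a e η j) = 1) :
    ∃ φ : HypRingQ (n := 1) α β c →+* ℂ,
      ∀ a' e', φ (affFun α β c a' e') = av a' e' (ptt a e η t) := by
  exact exists_hom (ptt a e η t) (by rw [prod_ptt]; exact h)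

theorem exists_root (hG : Good α β c) (ha : a ≠ 0) {η : ℂ} (h : CC α β c a e η ≠ 0) :
    ∃ t : ℂ, CC α β c a e η * ∏ j ∈ JJ α a, (t - tt α β a e η j) = 1 := by
  obtain ⟨j, hj⟩ := exists_not_par hG ha
  have hcard : 0 < (JJ α a).card :=
    Finset.card_pos.2 ⟨j, Finset.mem_filter.2 ⟨Finset.mem_univ _, hj⟩⟩
  have hd : (C (CC α β c a e η) * ∏ j ∈ JJ α a, (X - C (tt α β a e η j))).degree =
      ((JJ α a).card : WithBot ℕ) := by
    rw [degree_C_mul h, degree_prod, Finset.sum_congr rfl (fun j _ => degree_X_sub_C _)]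
    simp
  have hd0 : 0 < (C (CC α β c a e η) * ∏ j ∈ JJ α a, (X - C (tt α β a e η j))).degree := by
    rw [hd]
    exact_mod_cast hcard
  have hd1 : (C (CC α β c a e η) * ∏ j ∈ JJ α a, (X - C (tt α β a e η j)) - C 1).degree ≠ 0 := by
    rw [degree_sub_C hd0]
    exact hd0.ne'
  obtain ⟨t, ht⟩ := IsAlgClosed.exists_root _ hd1
  refine ⟨t, ?_⟩
  rw [IsRoot.def, eval_sub, eval_mul, eval_C, eval_C, eval_prod] at ht
  simp only [eval_sub, eval_X, eval_C] at ht
  exact sub_eq_zero.1 ht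

theorem CC_ne (hG : Good α β c) {η : ℂ} (h : ∀ j, dl α a j = 0 → lam α β a e η j ≠ 0) :
    CC α β c a e η ≠ 0 := by
  unfold CC
  refine mul_ne_zero (Int.cast_ne_zero.2 hG.hc) (Finset.prod_ne_zero_iff.2 (fun j _ => ?_))
  by_cases hj : dl α a j = 0
  · rw [if_pos hj]
    exact h j hj
  · rw [if_neg hj]
    exact Int.cast_ne_zero.2 hj

theorem exists_pt (hG : Good α β c) (ha : a ≠ 0) {η : ℂ}
    (h : ∀ j, dl α a j = 0 → lam α β a e η j ≠ 0) :
    ∃ φ : HypRingQ (n := 1) α β c →+* ℂ, φ (affFun α β c a e) = η := by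
  obtain ⟨t, ht⟩ := exists_root hG ha (CC_ne hG h)
  obtain ⟨φ, hφ⟩ := exists_hom_of_root η t ht
  exact ⟨φ, by rw [hφ, av_ptt ha]⟩

theorem transc (hG : Good α β c) (ha : a ≠ 0) (K : Type) [Field K] [CharZero K]
    [Algebra (HypRingQ (n := 1) α β c) K] [IsFractionRing (HypRingQ (n := 1) α β c) K] :
    Transcendental ℚ (xK α β c K a e) := by
  intro halg
  have halg' : IsAlgebraic ℤ (xK α β c K a e) := (IsFractionRing.isAlgebraic_iff ℤ ℚ K).2 halg
  obtain ⟨p, hp, hpx⟩ := halg'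
  have h0 : p.eval₂ (Int.castRingHom (HypRingQ (n := 1) α β c)) (affFun α β c a e) = 0 := by
    apply IsFractionRing.injective (HypRingQ (n := 1) α β c) K
    rw [map_zero, Polynomial.hom_eval₂]
    have e1 : ((algebraMap (HypRingQ (n := 1) α β c) K).comp
        (Int.castRingHom (HypRingQ (n := 1) α β c))) = algebraMap ℤ K := RingHom.ext_int _ _
    rw [e1]
    exact hpx
  obtain ⟨m, hm⟩ : ∃ m, a m ≠ 0 := by
    by_contra hcon
    push Not at hcon
    exact ha (funext hcon)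
  have hp' : p.map (Int.castRingHom ℂ) ≠ 0 :=
    (Polynomial.map_ne_zero_iff (RingHom.injective_int (Int.castRingHom ℂ))).2 hp
  obtain ⟨η, hη⟩ := Infinite.exists_notMem_finset ((p.map (Int.castRingHom ℂ)).roots.toFinset ∪
    Finset.univ.image (fun j => -((a m * β j - α j m * e : ℤ) : ℂ) / (α j m : ℂ)))
  rw [Finset.mem_union, not_or] at hη
  have hlam : ∀ j, dl α a j = 0 → lam α β a e η j ≠ 0 := by
    intro j hj h0
    have h1 := lam_eq (β := β) (e := e) ha η hj m
    rw [h0, mul_zero] at h1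
    have h2 : (α j m : ℂ) ≠ 0 := Int.cast_ne_zero.2 (alpha_ne hG hj hm)
    apply hη.2
    rw [Finset.mem_image]
    refine ⟨j, Finset.mem_univ _, ?_⟩
    rw [div_eq_iff h2]
    linear_combination h1
  obtain ⟨φ, hφ⟩ := exists_pt hG ha hlam
  apply hη.1
  rw [Multiset.mem_toFinset, mem_roots hp', IsRoot.def, eval_map]
  have h3 := congrArg φ h0
  rw [map_zero, Polynomial.hom_eval₂, hφ] at h3
  have e2 : (φ.comp (Int.castRingHom (HypRingQ (n := 1) α β c))) = Int.castRingHom ℂ :=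
    RingHom.ext_int _ _
  rw [e2] at h3
  exact h3

end Pool.Agent.ISI
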