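import Mathlib

/-! An archimedean lemma on the roots of `C ∏ (x - t_j) = 1`.

The averages of `b` over the fibres of `t` are functions `κ_j`; a root close to the point `t_k` with
`κ_k` maximal shows that all `κ_j` are equal. -/

namespace Pool.Agent.ISI

open Polynomial

/-- the roots of a complex polynomial as a function on `Fin` -/
private theorem arc_roots (F : ℂ[X]) (hF : F ≠ 0) (D : ℕ) (hD : F.natDegree = D) :
    ∃ r : Fin D → ℂ,
      (∀ y, F.eval y = F.leadingCoeff * ∏ i, (y - r i)) ∧ ∀ i, F.eval (r i) = 0 := by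
  subst hD
  have hs : F.roots.card = F.natDegree := IsAlgClosed.card_roots_eq_natDegree
  have hl : F.roots.toList.length = F.natDegree := by rw [Multiset.length_toList, hs]
  have hp : F = C F.leadingCoeff * (F.roots.map fun a => X - C a).prod :=
    (C_leadingCoeff_mul_prod_multiset_X_sub_C hs).symm
  refine ⟨fun i => F.roots.toList.get (i.cast hl.symm), ?_, ?_⟩
  · intro y
    have h1 : F.roots = (Finset.univ : Finset (Fin F.natDegree)).val.map
        fun i => F.roots.toList.get (i.cast hl.symm) := by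
      rw [Fin.univ_val_map]
      conv_lhs => rw [← Multiset.coe_toList F.roots]
      congr 1
      apply List.ext_get
      · rw [List.length_ofFn, hl]
      · intro n h1 h2
        simp
    have h2 : (F.roots.map fun a => X - C a).prod =
        ∏ i : Fin F.natDegree, (X - C (F.roots.toList.get (i.cast hl.symm))) := by
      conv_lhs => rw [h1]
      rw [Multiset.map_map]
      rfl
    conv_lhs => rw [hp, h2]
    rw [eval_mul, eval_C, eval_prod]
    congr 1
    exact Finset.prod_congr rfl fun i _ => by simp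
  · intro i
    have h1 : F.roots.toList.get (i.cast hl.symm) ∈ F.roots :=
      Multiset.mem_toList.1 (List.get_mem _ _)
    exact (mem_roots hF).1 h1

/-- replacing `b` by its averages over the fibres -/
private theorem arc_avg {ι : Type} [DecidableEq ι] (s : Finset ι) (t : ι → ℂ) (b : ι → ℝ)
    (g : ℂ → ℝ) :
    ∑ j ∈ s, ((∑ l ∈ s.filter (fun l => t l = t j), b l) /
      ((s.filter fun l => t l = t j).card : ℝ)) * g (t j) = ∑ j ∈ s, b j * g (t j) := by
  have h1 : ∀ j ∈ s, ((∑ l ∈ s.filter (fun l => t l = t j), b l) /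
      ((s.filter fun l => t l = t j).card : ℝ)) * g (t j) =
      ∑ l ∈ s, if t l = t j then b l * g (t l) / ((s.filter fun m => t m = t l).card : ℝ)
        else 0 := by
    intro j _
    rw [← Finset.sum_filter, Finset.sum_div, Finset.sum_mul]
    refine Finset.sum_congr rfl fun l hl => ?_
    rw [(Finset.mem_filter.1 hl).2]
    ring
  rw [Finset.sum_congr rfl h1, Finset.sum_comm]
  refine Finset.sum_congr rfl fun l hl => ?_
  have h2 : ∑ j ∈ s, (if t l = t j then b l * g (t l) / ((s.filter fun m => t m = t l).card : ℝ)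
      else 0) = ∑ j ∈ s.filter (fun m => t m = t l),
        b l * g (t l) / ((s.filter fun m => t m = t l).card : ℝ) := by
    rw [Finset.sum_filter]
    refine Finset.sum_congr rfl fun j _ => ?_
    by_cases h : t l = t j
    · rw [if_pos h, if_pos h.symm]
    · rw [if_neg h, if_neg fun h' => h h'.symm]
  rw [h2, Finset.sum_const, nsmul_eq_mul]
  have h3 : ((s.filter fun m => t m = t l).card : ℝ) ≠ 0 := by
    have : 0 < (s.filter fun m => t m = t l).card :=
      Finset.card_pos.2 ⟨l, Finset.mem_filter.2 ⟨hl, rfl⟩⟩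
    exact_mod_cast this.ne'
  field_simp

theorem arch {ι : Type} [DecidableEq ι] (s : Finset ι) (t : ι → ℂ) (C : ℂ) (ρ : ℝ) (hρ : 0 < ρ)
    (hC : ‖C‖ * ρ ^ s.card = 1)
    (hsep : ∀ j ∈ s, ∀ k ∈ s, t j = t k ∨ 2 * ρ < ‖t j - t k‖) (b : ι → ℝ) (H : ℝ)
    (hH : ∀ x : ℂ, C * ∏ j ∈ s, (x - t j) = 1 → ∑ j ∈ s, b j * Real.log ‖x - t j‖ = H)
    {k l : ι} (hk : k ∈ s) (hl : l ∈ s) :
    (∑ j ∈ s.filter (fun j => t j = t k), b j) * ((s.filter fun j => t j = t l).card : ℝ) =
      (∑ j ∈ s.filter (fun j => t j = t l), b j) * ((s.filter fun j => t j = t k).card : ℝ) := by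
  classical
  have hD : 0 < s.card := Finset.card_pos.2 ⟨k, hk⟩
  have hD' : (0 : ℝ) < s.card := by exact_mod_cast hD
  have hC0 : C ≠ 0 := by
    rintro rfl
    rw [norm_zero, zero_mul] at hC
    exact zero_ne_one hC
  have hCn : 0 < ‖C‖ := norm_pos_iff.2 hC0
  have hlogC : Real.log ‖C‖ = -(s.card * Real.log ρ) := by
    have h1 := congrArg Real.log hC
    rw [Real.log_mul hCn.ne' (pow_ne_zero _ hρ.ne'), Real.log_pow, Real.log_one] at h1
    linarith
  -- the polynomial
  set G : ℂ[X] := Polynomial.C C * ∏ j ∈ s, (X - Polynomial.C (t j)) with hG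
  have hmon : (∏ j ∈ s, (X - Polynomial.C (t j))).Monic :=
    monic_prod_of_monic _ _ fun j _ => monic_X_sub_C (t j)
  have hGdeg : G.natDegree = s.card := by
    rw [hG, natDegree_C_mul hC0, natDegree_prod_of_monic _ _ fun j _ => monic_X_sub_C (t j)]
    simp
  have hGlead : G.leadingCoeff = C := by
    rw [hG, leadingCoeff_mul, leadingCoeff_C, hmon.leadingCoeff, mul_one]
  have hFdeg : (G - 1).natDegree = s.card := by
    rw [natDegree_sub_eq_left_of_natDegree_lt, hGdeg]
    rw [natDegree_one, hGdeg]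
    exact hD
  have hFlead : (G - 1).leadingCoeff = C := by
    rw [leadingCoeff_sub_of_degree_lt, hGlead]
    rw [degree_one]
    rw [← natDegree_pos_iff_degree_pos, hGdeg]
    exact hD
  have hF0 : G - 1 ≠ 0 := by
    intro h
    rw [h, natDegree_zero] at hFdeg
    omega
  obtain ⟨r, hr1, hr2⟩ := arc_roots (G - 1) hF0 _ hFdeg
  rw [hFlead] at hr1
  have hGe : ∀ y, G.eval y = C * ∏ j ∈ s, (y - t j) := by
    intro y
    rw [hG, eval_mul, eval_C, eval_prod]
    congr 1
    exact Finset.prod_congr rfl fun i _ => by simp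
  have hroot : ∀ i, C * ∏ j ∈ s, (r i - t j) = 1 := by
    intro i
    have h1 := hr2 i
    rw [eval_sub, eval_one, hGe, sub_eq_zero] at h1
    exact h1
  have hprod : ∀ k ∈ s, C * ∏ i, (t k - r i) = -1 := by
    intro k hk
    rw [← hr1, eval_sub, eval_one, hGe, Finset.prod_eq_zero hk (sub_self _)]
    ring
  have hne : ∀ i, ∀ j ∈ s, r i - t j ≠ 0 := by
    intro i j hj h
    have h1 := hroot i
    rw [Finset.prod_eq_zero hj h, mul_zero] at h1
    exact zero_ne_one h1
  have hnp : ∀ i, ∀ j ∈ s, ‖r i - t j‖ ≠ 0 := fun i j hj => norm_ne_zero_iff.2 (hne i j hj)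
  -- (3)
  have h3 : ∀ i, ∑ j ∈ s, Real.log ‖r i - t j‖ = s.card * Real.log ρ := by
    intro i
    have h1 := congrArg (fun z : ℂ => Real.log ‖z‖) (hroot i)
    simp only [norm_mul, norm_one, norm_prod, Real.log_one] at h1
    rw [Real.log_mul hCn.ne' (Finset.prod_ne_zero_iff.2 fun j hj => hnp i j hj),
      Real.log_prod fun j hj => hnp i j hj, hlogC] at h1
    linarith
  -- (2)
  have h2 : ∀ j ∈ s, ∑ i, Real.log ‖r i - t j‖ = s.card * Real.log ρ := by
    intro j hj
    have h1 := congrArg (fun z : ℂ => Real.log ‖z‖) (hprod j hj)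
    simp only [norm_mul, norm_neg, norm_one, norm_prod, Real.log_one] at h1
    have h4 : ∀ i ∈ (Finset.univ : Finset (Fin s.card)), ‖t j - r i‖ ≠ 0 := by
      intro i _
      rw [norm_sub_rev]
      exact hnp i j hj
    rw [Real.log_mul hCn.ne' (Finset.prod_ne_zero_iff.2 h4), Real.log_prod h4, hlogC] at h1
    have h5 : ∑ i, Real.log ‖t j - r i‖ = ∑ i, Real.log ‖r i - t j‖ :=
      Finset.sum_congr rfl fun i _ => by rw [norm_sub_rev]
    rw [h5] at h1
    linarith
  have hHv : H = (∑ j ∈ s, b j) * Real.log ρ := by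
    have h1 : ∑ i : Fin s.card, ∑ j ∈ s, b j * Real.log ‖r i - t j‖ =
        ∑ _i : Fin s.card, H := Finset.sum_congr rfl fun i _ => hH (r i) (hroot i)
    rw [Finset.sum_comm, Finset.sum_const, Finset.card_univ, Fintype.card_fin,
      nsmul_eq_mul] at h1
    have h4 : ∑ j ∈ s, ∑ i, b j * Real.log ‖r i - t j‖ =
        (∑ j ∈ s, b j) * (s.card * Real.log ρ) := by
      rw [Finset.sum_mul]
      refine Finset.sum_congr rfl fun j hj => ?_
      rw [← Finset.mul_sum, h2 j hj]
    rw [h4] at h1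
    have h5 : (s.card : ℝ) * ((∑ j ∈ s, b j) * Real.log ρ) = s.card * H := by
      rw [← h1]
      ring
    exact (mul_left_cancel₀ hD'.ne' h5).symm
  -- (4)
  set κ : ι → ℝ := fun j => (∑ l ∈ s.filter (fun l => t l = t j), b l) /
    ((s.filter fun l => t l = t j).card : ℝ) with hκ
  have hκt : ∀ i j, t i = t j → κ i = κ j := by
    intro i j h
    rw [hκ]
    simp only
    rw [h]
  have h4 : ∀ i, ∑ j ∈ s, κ j * Real.log ‖r i - t j‖ = H := by
    intro i
    rw [arc_avg s t b fun z => Real.log ‖r i - z‖]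
    exact hH (r i) (hroot i)
  have h4' : ∑ j ∈ s, κ j = ∑ j ∈ s, b j := by
    have h5 := arc_avg s t b fun _ => (1 : ℝ)
    simpa using h5
  -- (5)
  obtain ⟨k0, hk0, hmax⟩ := Finset.exists_max_image s κ ⟨k, hk⟩
  have h1 : ∃ i, ‖r i - t k0‖ ≤ ρ := by
    by_contra hcon
    push Not at hcon
    have h5 := h2 k0 hk0
    have h6 : ∑ _i : Fin s.card, Real.log ρ < ∑ i, Real.log ‖r i - t k0‖ := by
      refine Finset.sum_lt_sum_of_nonempty ?_ fun i _ => Real.log_lt_log hρ (hcon i)
      rw [← Finset.card_pos, Finset.card_univ, Fintype.card_fin]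
      exact hD
    rw [Finset.sum_const, Finset.card_univ, Fintype.card_fin, nsmul_eq_mul, h5] at h6
    exact lt_irrefl _ h6
  obtain ⟨i0, hi0⟩ := h1
  have hterm : ∀ j ∈ s, 0 ≤ (κ k0 - κ j) * (Real.log ‖r i0 - t j‖ - Real.log ρ) := by
    intro j hj
    rcases hsep j hj k0 hk0 with h | h
    · rw [hκt j k0 h, sub_self, zero_mul]
    · refine mul_nonneg (sub_nonneg.2 (hmax j hj)) (sub_nonneg.2 ?_)
      refine Real.log_le_log hρ ?_
      have h5 : ‖t j - t k0‖ ≤ ‖r i0 - t j‖ + ‖r i0 - t k0‖ := by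
        have h6 : t j - t k0 = (r i0 - t k0) - (r i0 - t j) := by ring
        rw [h6]
        linarith [norm_sub_le (r i0 - t k0) (r i0 - t j)]
      linarith
  have hsum : ∑ j ∈ s, (κ k0 - κ j) * (Real.log ‖r i0 - t j‖ - Real.log ρ) = 0 := by
    have h5 : ∑ j ∈ s, (κ k0 - κ j) * (Real.log ‖r i0 - t j‖ - Real.log ρ) =
        κ k0 * ∑ j ∈ s, Real.log ‖r i0 - t j‖ - ∑ j ∈ s, κ j * Real.log ‖r i0 - t j‖ -
          s.card * (κ k0 * Real.log ρ) + (∑ j ∈ s, κ j) * Real.log ρ := by
      rw [Finset.mul_sum, Finset.sum_mul, ← Finset.sum_sub_distrib, ← nsmul_eq_mul,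
        ← Finset.sum_const, ← Finset.sum_sub_distrib, ← Finset.sum_add_distrib]
      refine Finset.sum_congr rfl fun j _ => ?_
      ring
    rw [h5, h3 i0, h4 i0, h4', hHv]
    ring
  have hall : ∀ j ∈ s, κ j = κ k0 := by
    intro j hj
    have h5 := (Finset.sum_eq_zero_iff_of_nonneg hterm).1 hsum j hj
    rcases hsep j hj k0 hk0 with h | h
    · exact hκt j k0 h
    · rcases mul_eq_zero.1 h5 with h6 | h6
      · linarith
      · exfalso
        have h7 : ‖t j - t k0‖ ≤ ‖r i0 - t j‖ + ‖r i0 - t k0‖ := by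
          have h6 : t j - t k0 = (r i0 - t k0) - (r i0 - t j) := by ring
          rw [h6]
          linarith [norm_sub_le (r i0 - t k0) (r i0 - t j)]
        have h8 : Real.log ρ < Real.log ‖r i0 - t j‖ := Real.log_lt_log hρ (by linarith)
        linarith
  have hkl : κ k = κ l := (hall k hk).trans (hall l hl).symm
  have hnk : ((s.filter fun j => t j = t k).card : ℝ) ≠ 0 := by
    have : 0 < (s.filter fun m => t m = t k).card :=
      Finset.card_pos.2 ⟨k, Finset.mem_filter.2 ⟨hk, rfl⟩⟩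
    exact_mod_cast this.ne'
  have hnl : ((s.filter fun j => t j = t l).card : ℝ) ≠ 0 := by
    have : 0 < (s.filter fun m => t m = t l).card :=
      Finset.card_pos.2 ⟨l, Finset.mem_filter.2 ⟨hl, rfl⟩⟩
    exact_mod_cast this.ne'
  rw [hκ] at hkl
  simp only at hkl
  rwa [div_eq_div_iff hnk hnl] at hkl

end Pool.Agent.ISI
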