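import Mathlib

/-! MODULE ISI-Cls (combinatorics; Mathlib only).

The classes `{j ∈ s : t j = t k}` have at most two elements (`h3`) and the averages of `e` over the
classes agree (`hav`). Then there are an integer `κ` and an involution `σ` preserving `s` and the
classes, with `e j + e (σ j) = κ` for all `j ∈ s`.

PROOF. `σ j` = the other element of the class of `j` if there is one and `j ∈ s`, else `j`
(`open Classical`, `if h : ∃ k ∈ s, k ≠ j ∧ t k = t j ∧ j ∈ s then choose h else j`; by `h3` this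
element is unique). The class of `j` is `{j}` or `{j, σ j}`, so
`∑_{class of j} e = (e j + e (σ j)) * card / 2` in both cases. If `s = ∅` take `κ = 0`, otherwise
`κ = e k₀ + e (σ k₀)` for some `k₀ ∈ s`; `hav` (in ℝ, with positive cards) gives the claim. -/

namespace Pool.Agent.ISI

theorem pairing {ι : Type} [DecidableEq ι] (s : Finset ι) (t : ι → ℂ) (e : ι → ℤ)
    (h3 : ∀ j ∈ s, ∀ k ∈ s, ∀ l ∈ s, j ≠ k → k ≠ l → j ≠ l → t j = t k → t k = t l → False)
    (hav : ∀ k ∈ s, ∀ l ∈ s,
      (∑ j ∈ s.filter (fun j => t j = t k), (e j : ℝ)) *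
        ((s.filter fun j => t j = t l).card : ℝ) =
      (∑ j ∈ s.filter (fun j => t j = t l), (e j : ℝ)) *
        ((s.filter fun j => t j = t k).card : ℝ)) :
    ∃ (κ : ℤ) (σ : ι → ι), (∀ j, σ (σ j) = j) ∧
      (∀ j ∈ s, σ j ∈ s ∧ t (σ j) = t j ∧ e j + e (σ j) = κ) ∧ ∀ j, j ∉ s → σ j = j := by
  have hex : ∀ j, ∃ k, (j ∉ s → k = j) ∧
      (j ∈ s → k ∈ s ∧ t k = t j ∧ ∀ l ∈ s, t l = t j → l = j ∨ l = k) := by
    intro j
    by_cases hj : j ∈ s
    · by_cases h : ∃ k ∈ s, k ≠ j ∧ t k = t j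
      · obtain ⟨k, hk, hkj, htk⟩ := h
        refine ⟨k, fun h => absurd hj h, fun _ => ⟨hk, htk, ?_⟩⟩
        intro l hl htl
        by_contra hcon
        push Not at hcon
        exact h3 j hj k hk l hl hkj.symm hcon.2.symm hcon.1.symm htk.symm (htk.trans htl.symm)
      · refine ⟨j, fun _ => rfl, fun _ => ⟨hj, rfl, ?_⟩⟩
        intro l hl htl
        by_contra hcon
        push Not at hcon
        exact h ⟨l, hl, hcon.1, htl⟩
    · exact ⟨j, fun _ => rfl, fun h => absurd h hj⟩
  choose σ hσ1 hσ2 using hex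
  have hcls : ∀ j ∈ s, (2 : ℝ) * ∑ i ∈ s.filter (fun i => t i = t j), (e i : ℝ) =
      ((e j : ℝ) + e (σ j)) * ((s.filter fun i => t i = t j).card : ℝ) ∧
      0 < ((s.filter fun i => t i = t j).card : ℝ) := by
    intro j hj
    obtain ⟨h1, h2, h4⟩ := hσ2 j hj
    have hset : s.filter (fun i => t i = t j) = {j, σ j} := by
      ext l
      rw [Finset.mem_filter, Finset.mem_insert, Finset.mem_singleton]
      constructor
      · rintro ⟨h5, h6⟩
        exact h4 l h5 h6
      · rintro (rfl | rfl)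
        · exact ⟨hj, rfl⟩
        · exact ⟨h1, h2⟩
    rw [hset]
    by_cases h5 : σ j = j
    · rw [h5, Finset.pair_eq_singleton, Finset.sum_singleton, Finset.card_singleton, Nat.cast_one]
      exact ⟨by ring, one_pos⟩
    · rw [Finset.sum_pair (Ne.symm h5), Finset.card_pair (Ne.symm h5)]
      push_cast
      exact ⟨by ring, two_pos⟩
  have hinv : ∀ j, σ (σ j) = j := by
    intro j
    by_cases hj : j ∈ s
    · obtain ⟨h1, h2, h4⟩ := hσ2 j hj
      obtain ⟨h5, h6, h7⟩ := hσ2 (σ j) h1
      rcases h4 (σ (σ j)) h5 (h6.trans h2) with h8 | h8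
      · exact h8
      · have h9 := h7 j hj h2.symm
        rw [h8, or_self] at h9
        rw [h8]
        exact h9.symm
    · rw [hσ1 j hj, hσ1 j hj]
  rcases s.eq_empty_or_nonempty with hs | ⟨k, hk⟩
  · refine ⟨0, σ, hinv, ?_, hσ1⟩
    intro j hj
    rw [hs] at hj
    exact absurd hj (Finset.notMem_empty j)
  · refine ⟨e k + e (σ k), σ, hinv, ?_, hσ1⟩
    intro j hj
    obtain ⟨h1, h2, -⟩ := hσ2 j hj
    refine ⟨h1, h2, ?_⟩
    obtain ⟨a1, a2⟩ := hcls j hj
    obtain ⟨b1, b2⟩ := hcls k hk
    have h4 := hav j hj k hk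
    have h5 : ((e j : ℝ) + e (σ j)) * (((s.filter fun i => t i = t j).card : ℝ) *
        ((s.filter fun i => t i = t k).card : ℝ)) =
        ((e k : ℝ) + e (σ k)) * (((s.filter fun i => t i = t j).card : ℝ) *
        ((s.filter fun i => t i = t k).card : ℝ)) := by
      calc ((e j : ℝ) + e (σ j)) * (((s.filter fun i => t i = t j).card : ℝ) *
            ((s.filter fun i => t i = t k).card : ℝ)) =
            (((e j : ℝ) + e (σ j)) * ((s.filter fun i => t i = t j).card : ℝ)) *
            ((s.filter fun i => t i = t k).card : ℝ) := by ring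
        _ = 2 * ((∑ i ∈ s.filter (fun i => t i = t j), (e i : ℝ)) *
            ((s.filter fun i => t i = t k).card : ℝ)) := by rw [← a1]; ring
        _ = 2 * ((∑ i ∈ s.filter (fun i => t i = t k), (e i : ℝ)) *
            ((s.filter fun i => t i = t j).card : ℝ)) := by rw [h4]
        _ = (2 * ∑ i ∈ s.filter (fun i => t i = t k), (e i : ℝ)) *
            ((s.filter fun i => t i = t j).card : ℝ) := by ring
        _ = _ := by rw [b1]; ring
    have h6 := mul_right_cancel₀ (mul_pos a2 b2).ne' h5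
    exact_mod_cast h6

end Pool.Agent.ISI
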