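import Mathlib

/-! A root of an irreducible integral polynomial at which given linear forms are not small.

For a linear form the product of its values at the roots, times the leading coefficient, is an
integer; so at some root the product of the nonvanishing forms is at least one. -/

namespace Pool.Agent.ISI

open Polynomial

/-- the roots of a complex polynomial as a function on `Fin` -/
private theorem fac_roots (F : ℂ[X]) (hF : F ≠ 0) (D : ℕ) (hD : F.natDegree = D) :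
    ∃ r : Fin D → ℂ,
      (∀ y, F.eval y = F.leadingCoeff * ∏ i, (y - r i)) ∧ ∀ i, F.eval (r i) = 0 := by
  subst hD
  have hs : F.roots.card = F.natDegree := IsAlgClosed.card_roots_eq_natDegree
  have hl : F.roots.toList.length = F.natDegree := by rw [Multiset.length_toList, hs]
  have hp : F = C F.leadingCoeff * (F.roots.map fun a => X - C a).prod :=
    (C_leadingCoeff_mul_prod_multiset_X_sub_C hs).symm
  refine ⟨fun i => F.roots.toList.get (i.cast hl.symm), ?_, ?_⟩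
  · intro y
    have h1 : F.roots = (Finset.univ : Finset (Fin F.natDegree)).val.map
        fun i => F.roots.toList.get (i.cast hl.symm) := by
      rw [Fin.univ_val_map]
      conv_lhs => rw [← Multiset.coe_toList F.roots]
      congr 1
      apply List.ext_get
      · rw [List.length_ofFn, hl]
      · intro n h1 h2
        simp
    have h2 : (F.roots.map fun a => X - C a).prod =
        ∏ i : Fin F.natDegree, (X - C (F.roots.toList.get (i.cast hl.symm))) := by
      conv_lhs => rw [h1]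
      rw [Multiset.map_map]
      rfl
    conv_lhs => rw [hp, h2]
    rw [eval_mul, eval_C, eval_prod]
    congr 1
    exact Finset.prod_congr rfl fun i _ => by simp
  · intro i
    have h1 : F.roots.toList.get (i.cast hl.symm) ∈ F.roots :=
      Multiset.mem_toList.1 (List.get_mem _ _)
    exact (mem_roots hF).1 h1

/-- the linear form of a root -/
private theorem fac_lin (π : ℤ[X]) (hπ : Irreducible π) (hd : 0 < π.natDegree) {A B : ℤ}
    (hAB : A ≠ 0 ∨ B ≠ 0) {η : ℂ} (hη : aeval η π = 0) (h : (A : ℂ) * η + B = 0) :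
    A ≠ 0 ∧ ∃ r : ℚ, r ≠ 0 ∧
      π.map (Int.castRingHom ℚ) = C r * (C (A : ℚ) * X + C (B : ℚ)) := by
  have hA : A ≠ 0 := by
    rintro rfl
    rw [Int.cast_zero, zero_mul, zero_add] at h
    have h1 : B = 0 := by exact_mod_cast h
    rcases hAB with h2 | h2
    · exact h2 rfl
    · exact h2 h1
  refine ⟨hA, ?_⟩
  have hAc : (A : ℂ) ≠ 0 := by exact_mod_cast hA
  have hAq : (A : ℚ) ≠ 0 := by exact_mod_cast hA
  have hirr : Irreducible (π.map (Int.castRingHom ℚ)) :=
    (IsPrimitive.Int.irreducible_iff_irreducible_map_cast (hπ.isPrimitive hd.ne')).1 hπ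
  have hηv : η = ((-(B : ℚ) / A : ℚ) : ℂ) := by
    push_cast
    rw [eq_div_iff hAc]
    linear_combination h
  have hroot : (π.map (Int.castRingHom ℚ)).eval (-(B : ℚ) / A) = 0 := by
    have h1 : (((π.map (Int.castRingHom ℚ)).eval (-(B : ℚ) / A) : ℚ) : ℂ) = 0 := by
      rw [← hη, hηv, ← eq_ratCast (algebraMap ℚ ℂ) _, ← eq_ratCast (algebraMap ℚ ℂ) (-(B : ℚ) / A),
        aeval_algebraMap_apply]
      congr 1
      rw [aeval_def, eval_map]
      rfl
    exact_mod_cast h1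
  have hdeg := degree_eq_one_of_irreducible_of_root hirr hroot
  have hnat : (π.map (Int.castRingHom ℚ)).natDegree = 1 := natDegree_eq_of_degree_eq_some hdeg
  have heq := eq_X_add_C_of_natDegree_le_one hnat.le
  have ha : (π.map (Int.castRingHom ℚ)).coeff 1 ≠ 0 := by
    have h1 : (π.map (Int.castRingHom ℚ)).leadingCoeff ≠ 0 :=
      leadingCoeff_ne_zero.2 hirr.ne_zero
    rwa [leadingCoeff, hnat] at h1
  set a := (π.map (Int.castRingHom ℚ)).coeff 1 with hadef
  set b := (π.map (Int.castRingHom ℚ)).coeff 0 with hbdef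
  rw [heq] at hroot
  simp only [eval_add, eval_mul, eval_C, eval_X] at hroot
  refine ⟨a / A, div_ne_zero ha hAq, ?_⟩
  rw [heq, mul_add, ← mul_assoc, ← C_mul, ← C_mul]
  have h1 : a / A * A = a := div_mul_cancel₀ a hAq
  have h2 : a / A * B = b := by
    have h3 : a * (-(B : ℚ) / A) = -(a / A * B) := by ring
    rw [h3] at hroot
    linarith
  rw [h1, h2]

/-- the product of the values of a linear form at the roots -/
private theorem fac_int (π : ℤ[X]) (A B : ℤ) (D : ℕ) (hD : π.natDegree = D) (r : Fin D → ℂ)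
    (hr : ∀ y : ℂ, (π.map (Int.castRingHom ℂ)).eval y = (π.leadingCoeff : ℂ) * ∏ i, (y - r i)) :
    ∃ z : ℤ, (π.leadingCoeff : ℂ) * ∏ i, ((A : ℂ) * r i + B) = z := by
  by_cases hA : A = 0
  · subst hA
    refine ⟨π.leadingCoeff * B ^ D, ?_⟩
    simp
  · have hAc : (A : ℂ) ≠ 0 := by exact_mod_cast hA
    obtain ⟨z, b', hb', hz⟩ := denomsClearable_of_natDegree_le (i := Int.castRingHom ℂ) (b := A)
      (bi := (A : ℂ)⁻¹) D (-B) (by simpa using inv_mul_cancel₀ hAc) π hD.le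
    have hb : b' = (A : ℂ)⁻¹ := by
      rw [eq_intCast] at hb'
      exact eq_inv_of_mul_eq_one_left hb'
    rw [hb, hr] at hz
    simp only [eq_intCast, Int.cast_neg] at hz
    refine ⟨(-1) ^ D * z, ?_⟩
    push_cast
    rw [hz]
    have h1 : ∏ i, ((A : ℂ) * r i + B) = (-1) ^ D * ((A : ℂ) ^ D * ∏ i, (-(B : ℂ) * (A : ℂ)⁻¹ - r i)) := by
      have h2 : ∀ i, (A : ℂ) * r i + B = (-1) * ((A : ℂ) * (-(B : ℂ) * (A : ℂ)⁻¹ - r i)) := by
        intro i
        field_simp
        ring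
      rw [Finset.prod_congr rfl fun i _ => h2 i, Finset.prod_mul_distrib, Finset.prod_mul_distrib]
      simp
    rw [h1]
    ring

theorem fac {ι : Type} [Fintype ι] (π : ℤ[X]) (hπ : Irreducible π) (hd : 0 < π.natDegree)
    (Λ : ℕ) (hΛ : π.leadingCoeff.natAbs ≤ Λ) (A B : ι → ℤ) (M₁ : ℕ) (hM : 1 ≤ M₁)
    (hA : ∀ i, |A i| ≤ M₁) (hB : ∀ i, |B i| ≤ M₁) :
    ∃ η : ℂ, aeval η π = 0 ∧ ∀ i, (A i : ℂ) * η + B i = 0 ∨
      1 ≤ (3 * Λ * M₁ ^ 2 : ℝ) ^ Fintype.card ι * ‖(A i : ℂ) * η + B i‖ := by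
  classical
  have hπ0 : π ≠ 0 := hπ.ne_zero
  set F : ℂ[X] := π.map (Int.castRingHom ℂ) with hF
  have hinj : Function.Injective (Int.castRingHom ℂ) := by
    intro a b h
    simpa using h
  have hFdeg : F.natDegree = π.natDegree := natDegree_map_eq_of_injective hinj π
  have hFlead : F.leadingCoeff = (π.leadingCoeff : ℂ) := by
    rw [hF, leadingCoeff_map_of_injective hinj]
    simp
  have hF0 : F ≠ 0 := (Polynomial.map_ne_zero_iff hinj).2 hπ0
  obtain ⟨r, hr1, hr2⟩ := fac_roots F hF0 _ hFdeg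
  rw [hFlead] at hr1
  have haev : ∀ y : ℂ, aeval y π = F.eval y := by
    intro y
    rw [aeval_def, hF, eval_map]
    rfl
  have hr3 : ∀ m, aeval (r m) π = 0 := fun m => by rw [haev, hr2]
  -- vanishing at one root
  have hvan : ∀ i m m', (A i : ℂ) * r m + B i = 0 → (A i : ℂ) * r m' + B i = 0 := by
    intro i m m' h
    by_cases hAB : A i ≠ 0 ∨ B i ≠ 0
    · obtain ⟨hA0, q, hq, heq⟩ := fac_lin π hπ hd hAB (hr3 m) h
      have h1 := hr3 m'
      have h2 : F = (π.map (Int.castRingHom ℚ)).map (algebraMap ℚ ℂ) := by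
        rw [Polynomial.map_map, hF]
        congr 1
      rw [haev, h2, heq] at h1
      simp only [Polynomial.map_mul, Polynomial.map_add, map_C, map_X, eval_mul, eval_add,
        eval_C, eval_X, eq_ratCast, Rat.cast_intCast] at h1
      rcases mul_eq_zero.1 h1 with h3 | h3
      · exact absurd (by exact_mod_cast h3) hq
      · exact h3
    · push Not at hAB
      rw [hAB.1, hAB.2]
      simp
  set m0 : Fin π.natDegree := ⟨0, hd⟩ with hm0
  set I : Finset ι := Finset.univ.filter fun i => (A i : ℂ) * r m0 + B i ≠ 0 with hI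
  have hIne : ∀ i ∈ I, ∀ m, (A i : ℂ) * r m + B i ≠ 0 := by
    intro i hi m h
    exact (Finset.mem_filter.1 hi).2 (hvan i m m0 h)
  have hIof : ∀ i m, (A i : ℂ) * r m + B i ≠ 0 → i ∈ I := by
    intro i m h
    exact Finset.mem_filter.2 ⟨Finset.mem_univ _, fun h' => h (hvan i m0 m h')⟩
  set l : ℂ := (π.leadingCoeff : ℂ) with hl
  have hlz : π.leadingCoeff ≠ 0 := leadingCoeff_ne_zero.2 hπ0
  have hl1 : 1 ≤ ‖l‖ := by
    rw [hl, Complex.norm_intCast]
    exact_mod_cast Int.one_le_abs hlz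
  have hl2 : ‖l‖ ≤ Λ := by
    rw [hl, Complex.norm_intCast]
    have h1 : |π.leadingCoeff| ≤ (Λ : ℤ) := by
      rw [Int.abs_eq_natAbs]
      exact_mod_cast hΛ
    exact_mod_cast h1
  have hl0 : 0 < ‖l‖ := lt_of_lt_of_le one_pos hl1
  have hΛ1 : (1 : ℝ) ≤ Λ := hl1.trans hl2
  have hM1 : (1 : ℝ) ≤ M₁ := by exact_mod_cast hM
  have hAn : ∀ i, ‖(A i : ℂ)‖ ≤ M₁ := by
    intro i
    rw [Complex.norm_intCast]
    exact_mod_cast hA i
  have hBn : ∀ i, ‖(B i : ℂ)‖ ≤ M₁ := by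
    intro i
    rw [Complex.norm_intCast]
    exact_mod_cast hB i
  have hNi : ∀ i ∈ I, 1 ≤ ‖l‖ * ∏ m, ‖(A i : ℂ) * r m + B i‖ := by
    intro i hi
    obtain ⟨z, hz⟩ := fac_int π (A i) (B i) _ rfl r hr1
    have h1 : ‖l‖ * ∏ m, ‖(A i : ℂ) * r m + B i‖ = ‖(z : ℂ)‖ := by
      rw [← hz, norm_mul, norm_prod]
    have hz0 : z ≠ 0 := by
      rintro rfl
      rw [Int.cast_zero] at hz
      rcases mul_eq_zero.1 hz with h2 | h2
      · rw [← hl] at h2
        rw [h2, norm_zero] at hl0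
        exact lt_irrefl _ hl0
      · obtain ⟨m, _, hm⟩ := Finset.prod_eq_zero_iff.1 h2
        exact hIne i hi m hm
    rw [h1, Complex.norm_intCast]
    exact_mod_cast Int.one_le_abs hz0
  have hexm : ∃ m, 1 ≤ ∏ i ∈ I, (‖l‖ * ‖(A i : ℂ) * r m + B i‖) := by
    by_contra hcon
    push Not at hcon
    have h1 : ∏ m : Fin π.natDegree, ∏ i ∈ I, (‖l‖ * ‖(A i : ℂ) * r m + B i‖) <
        ∏ _m : Fin π.natDegree, (1 : ℝ) := by
      refine Finset.prod_lt_prod_of_nonempty ?_ (fun m _ => hcon m) ⟨m0, Finset.mem_univ _⟩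
      intro m _
      exact Finset.prod_pos fun i hi => mul_pos hl0 (norm_pos_iff.2 (hIne i hi m))
    rw [Finset.prod_const_one, Finset.prod_comm] at h1
    have h2 : (1 : ℝ) ≤ ∏ i ∈ I, ∏ m, (‖l‖ * ‖(A i : ℂ) * r m + B i‖) := by
      have h3 : ∏ i ∈ I, (1 : ℝ) ≤ ∏ i ∈ I, ∏ m, (‖l‖ * ‖(A i : ℂ) * r m + B i‖) := by
        refine Finset.prod_le_prod (fun _ _ => zero_le_one) fun i hi => ?_
        rw [Finset.prod_mul_distrib, Finset.prod_const, Finset.card_univ, Fintype.card_fin]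
        obtain ⟨e, he⟩ : ∃ e, π.natDegree = e + 1 := ⟨π.natDegree - 1, by omega⟩
        have h4 : ‖l‖ ^ π.natDegree = ‖l‖ ^ e * ‖l‖ := by rw [he, pow_succ]
        rw [h4, mul_assoc]
        exact one_le_mul_of_one_le_of_one_le (one_le_pow₀ hl1) (hNi i hi)
      rwa [Finset.prod_const_one] at h3
    linarith
  obtain ⟨m, hm⟩ := hexm
  refine ⟨r m, hr3 m, fun i => ?_⟩
  by_cases hi0 : (A i : ℂ) * r m + B i = 0
  · exact Or.inl hi0
  refine Or.inr ?_
  have hi : i ∈ I := hIof i m hi0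
  set K : ℝ := 3 * Λ * (M₁ : ℝ) ^ 2 with hK
  have hM2 : (1 : ℝ) ≤ (M₁ : ℝ) ^ 2 := one_le_pow₀ hM1
  have hMM : (M₁ : ℝ) ≤ (M₁ : ℝ) ^ 2 := by nlinarith
  have hKΛ : (Λ : ℝ) ≤ K := by
    rw [hK]
    nlinarith
  have hK1 : (1 : ℝ) ≤ K := hΛ1.trans hKΛ
  have hKn : (1 : ℝ) ≤ K ^ Fintype.card ι := one_le_pow₀ hK1
  by_cases hη : (M₁ : ℝ) + 1 ≤ ‖r m‖
  · have h1 : 1 ≤ ‖(A i : ℂ) * r m + B i‖ := by
      by_cases hA0 : A i = 0
      · rw [hA0] at hi0 ⊢
        rw [Int.cast_zero, zero_mul, zero_add] at hi0 ⊢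
        rw [Complex.norm_intCast]
        have h2 : B i ≠ 0 := by exact_mod_cast hi0
        exact_mod_cast Int.one_le_abs h2
      · have h2 : 1 ≤ ‖(A i : ℂ)‖ := by
          rw [Complex.norm_intCast]
          exact_mod_cast Int.one_le_abs hA0
        have h3 : ‖(A i : ℂ) * r m‖ ≤ ‖(A i : ℂ) * r m + B i‖ + ‖(B i : ℂ)‖ := by
          have h4 : (A i : ℂ) * r m = ((A i : ℂ) * r m + B i) - B i := by ring
          calc ‖(A i : ℂ) * r m‖ = ‖((A i : ℂ) * r m + B i) - B i‖ := by rw [← h4]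
            _ ≤ _ := norm_sub_le _ _
        rw [norm_mul] at h3
        have h5 : ‖r m‖ ≤ ‖(A i : ℂ)‖ * ‖r m‖ := le_mul_of_one_le_left (norm_nonneg _) h2
        linarith [hBn i]
    exact one_le_mul_of_one_le_of_one_le hKn h1
  · push Not at hη
    have hfac : ∀ j, ‖l‖ * ‖(A j : ℂ) * r m + B j‖ ≤ K := by
      intro j
      have h1 : ‖(A j : ℂ) * r m + B j‖ ≤ M₁ * (M₁ + 1) + M₁ := by
        refine (norm_add_le _ _).trans (add_le_add ?_ (hBn j))
        rw [norm_mul]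
        exact mul_le_mul (hAn j) hη.le (norm_nonneg _) (by linarith)
      have h2 : (M₁ : ℝ) * (M₁ + 1) + M₁ ≤ 3 * (M₁ : ℝ) ^ 2 := by nlinarith
      calc ‖l‖ * ‖(A j : ℂ) * r m + B j‖ ≤ Λ * (3 * (M₁ : ℝ) ^ 2) :=
            mul_le_mul hl2 (h1.trans h2) (norm_nonneg _) (by linarith)
        _ = K := by
            rw [hK]
            ring
    rw [← Finset.mul_prod_erase I _ hi] at hm
    have h3 : ∏ j ∈ I.erase i, (‖l‖ * ‖(A j : ℂ) * r m + B j‖) ≤ K ^ (I.erase i).card := by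
      rw [← Finset.prod_const]
      exact Finset.prod_le_prod (fun j _ => by positivity) fun j _ => hfac j
    have h4 : (I.erase i).card + 1 ≤ Fintype.card ι := by
      rw [Finset.card_erase_add_one hi]
      exact Finset.card_le_univ _
    have hf0 : 0 ≤ ‖(A i : ℂ) * r m + B i‖ := norm_nonneg _
    calc (1 : ℝ) ≤ ‖l‖ * ‖(A i : ℂ) * r m + B i‖ *
          ∏ j ∈ I.erase i, (‖l‖ * ‖(A j : ℂ) * r m + B j‖) := hm
      _ ≤ ‖l‖ * ‖(A i : ℂ) * r m + B i‖ * K ^ (I.erase i).card :=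
          mul_le_mul_of_nonneg_left h3 (by positivity)
      _ ≤ K * ‖(A i : ℂ) * r m + B i‖ * K ^ (I.erase i).card := by
          refine mul_le_mul_of_nonneg_right ?_ (by positivity)
          exact mul_le_mul_of_nonneg_right (hl2.trans hKΛ) hf0
      _ = K ^ ((I.erase i).card + 1) * ‖(A i : ℂ) * r m + B i‖ := by ring
      _ ≤ K ^ Fintype.card ι * ‖(A i : ℂ) * r m + B i‖ :=
          mul_le_mul_of_nonneg_right (pow_le_pow_right₀ hK1 h4) hf0

theorem lin_of_zero (π : ℤ[X]) (hπ : Irreducible π) (hd : 0 < π.natDegree) {A B : ℤ}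
    (hAB : A ≠ 0 ∨ B ≠ 0) {η : ℂ} (hη : aeval η π = 0) (h : (A : ℂ) * η + B = 0) :
    A ≠ 0 ∧ ∃ r : ℚ, r ≠ 0 ∧
      π.map (Int.castRingHom ℚ) = C r * (C (A : ℚ) * X + C (B : ℚ)) := by
  exact fac_lin π hπ hd hAB hη h

end Pool.Agent.ISI
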