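import Mathlib
import Pool.Agent.ISI.Fib

/-! MODULE ISI-Hgt (the absolute value of a unit on a fibre; coincidences of the points `tt j`).

`hgt_const`: PROOF. For every root `x` of `CC ∏_{j∈JJ} (x - tt j) = 1` there is `φ_x : A → ℂ`
(`exists_hom_of_root`) with `φ_x (affFun a e) = η` (`av_ptt`), `φ_x (L_j) = dl j (x - tt j)` for
`j ∈ JJ` (`av_ptt_j`) and `= lam j` otherwise (`av_ptt_par`); here `L_j = crvU j`,
`crvU_val`, `lf_eq : qmk (lf j) = affFun (α j) (β j)`. Apply `φ_x` to `w^n = cstA q ∏ crvU^e'` and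
take `log ‖·‖`: `n log ‖φ_x w‖ = log |q| + ∑_j e' j log ‖φ_x L_j‖`
(`φ_x (cstA q) = q`: two ring homs `ℚ → ℂ` agree, `cstA_val`; zpow: use units,
`Units.map φ_x`, or `map_units_zpow`; all factors are non zero). By `hH` the left side does not depend on `x`,
and `log ‖dl j (x - tt j)‖ = log |dl j| + log ‖x - tt j‖`. If there is no root take `H = 0`,
otherwise take for `H` the value at one root.

`tt_det`: PROOF. `tt_sub` gives `hypDet η = d3`. If `hypDet = 0` then `d3 = 0` (cast), against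
`d3_ne`.

`tt_triple`: PROOF. `hypDet ![j,k] ≠ 0` by `tt_det`; at the point `ptt a e η (tt j)` the forms
`j, k, l` vanish (`av_ptt_j`); apply `triple`. -/

namespace Pool.Agent.ISI

open Pool.Agent.Helper11 Polynomial

variable {N : ℕ} {α : Fin N → Fin 2 → ℤ} {β : Fin N → ℤ} {c : ℤ} {a : Fin 2 → ℤ} {e : ℤ}

/-- the logarithm of the absolute value of a unit -/
private noncomputable def hgtLg {A : Type*} [CommRing A] (φ : A →+* ℂ) :
    Aˣ →* Multiplicative ℝ where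
  toFun u := Multiplicative.ofAdd (Real.log ‖φ (u : A)‖)
  map_one' := by
    rw [Units.val_one, map_one, norm_one, Real.log_one]
    rfl
  map_mul' u v := by
    have hu : φ (u : A) ≠ 0 := (u.isUnit.map φ).ne_zero
    have hv : φ (v : A) ≠ 0 := (v.isUnit.map φ).ne_zero
    rw [Units.val_mul, map_mul, norm_mul, Real.log_mul (norm_ne_zero_iff.2 hu)
      (norm_ne_zero_iff.2 hv), ofAdd_add]

private lemma hgtLg_apply {A : Type*} [CommRing A] (φ : A →+* ℂ) (u : Aˣ) :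
    (hgtLg φ u).toAdd = Real.log ‖φ (u : A)‖ := rfl

private lemma hgt_key (ha : a ≠ 0) {η : ℂ}
    (w : (HypRingQ (n := 1) α β c)ˣ) {n : ℕ} (q : ℚˣ)
    (e' : Fin N → ℤ) (hw : w ^ n = cstA α β c q * ∏ j, crvU α β c j ^ e' j) {x : ℂ}
    (hx : CC α β c a e η * ∏ j ∈ JJ α a, (x - tt α β a e η j) = 1) :
    ∃ φ : HypRingQ (n := 1) α β c →+* ℂ, φ (affFun α β c a e) = η ∧
      (n : ℝ) * Real.log ‖φ w‖ = Real.log ‖((q : ℚ) : ℂ)‖ +
        ∑ j, (e' j : ℝ) * Real.log ‖if dl α a j = 0 then lam α β a e η j else (dl α a j : ℂ)‖ +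
        ∑ j ∈ JJ α a, (e' j : ℝ) * Real.log ‖x - tt α β a e η j‖ := by
  obtain ⟨φ, hφ⟩ := exists_hom_of_root η x hx
  refine ⟨φ, ?_, ?_⟩
  · rw [hφ, av_ptt ha]
  · have h1 := congrArg (fun u => (hgtLg φ u).toAdd) hw
    simp only [map_pow, map_mul, map_prod, map_zpow, toAdd_pow, toAdd_mul, toAdd_prod,
      toAdd_zpow, hgtLg_apply, nsmul_eq_mul, zsmul_eq_mul] at h1
    have h2 : φ (cstA α β c q : HypRingQ (n := 1) α β c) = ((q : ℚ) : ℂ) := by
      rw [cstA_val]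
      exact eq_ratCast ((φ.comp (qmk α β c)).comp MvPolynomial.C) (q : ℚ)
    have h3 : ∀ j, Real.log ‖φ (crvU α β c j : HypRingQ (n := 1) α β c)‖ =
        Real.log ‖if dl α a j = 0 then lam α β a e η j else (dl α a j : ℂ)‖ +
          if dl α a j ≠ 0 then Real.log ‖x - tt α β a e η j‖ else 0 := by
      intro j
      have h4 : φ (crvU α β c j : HypRingQ (n := 1) α β c) =
          av (α j) (β j) (ptt a e η x) := by
        rw [crvU_val, lf_eq, hφ]
      have h5 : φ (crvU α β c j : HypRingQ (n := 1) α β c) ≠ 0 :=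
        ((crvU α β c j).isUnit.map φ).ne_zero
      rw [h4] at h5 ⊢
      by_cases h : dl α a j = 0
      · rw [if_pos h, if_neg (not_not.2 h), add_zero, av_ptt_par η x h]
      · rw [if_neg h, if_pos h]
        rw [av_ptt_j η x h] at h5 ⊢
        rw [norm_mul, Real.log_mul (norm_ne_zero_iff.2 (left_ne_zero_of_mul h5))
          (norm_ne_zero_iff.2 (right_ne_zero_of_mul h5))]
    rw [h2] at h1
    simp only [h3, mul_add, Finset.sum_add_distrib] at h1
    rw [h1, add_assoc]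
    congr 2
    unfold JJ
    rw [Finset.sum_filter]
    refine Finset.sum_congr rfl fun j _ => ?_
    split_ifs
    · rfl
    · rw [mul_zero]

theorem hgt_const (ha : a ≠ 0) {η : ℂ} (h0 : ∀ j, dl α a j = 0 → lam α β a e η j ≠ 0)
    (w : (HypRingQ (n := 1) α β c)ˣ) {n : ℕ} (hn : n ≠ 0) (q : ℚˣ)
    (e' : Fin N → ℤ) (hw : w ^ n = cstA α β c q * ∏ j, crvU α β c j ^ e' j)
    (hH : ∀ φ φ' : HypRingQ (n := 1) α β c →+* ℂ, φ (affFun α β c a e) = η →
      φ' (affFun α β c a e) = η → ‖φ w‖ = ‖φ' w‖) :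
    ∃ H : ℝ, ∀ x : ℂ, CC α β c a e η * ∏ j ∈ JJ α a, (x - tt α β a e η j) = 1 →
      ∑ j ∈ JJ α a, (e' j : ℝ) * Real.log ‖x - tt α β a e η j‖ = H := by
  by_cases hex : ∃ x0 : ℂ, CC α β c a e η * ∏ j ∈ JJ α a, (x0 - tt α β a e η j) = 1
  · obtain ⟨x0, hx0⟩ := hex
    obtain ⟨φ0, h1, h2⟩ := hgt_key ha w q e' hw hx0
    refine ⟨∑ j ∈ JJ α a, (e' j : ℝ) * Real.log ‖x0 - tt α β a e η j‖, fun x hx => ?_⟩
    obtain ⟨φ, h3, h4⟩ := hgt_key ha w q e' hw hx
    have h5 := hH φ φ0 h3 h1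
    rw [h5] at h4
    linarith
  · exact ⟨0, fun x hx => (hex ⟨x, hx⟩).elim⟩

theorem tt_det (hG : Good α β c) (ha : a ≠ 0) {η : ℂ} {j k : Fin N} (hjk : j ≠ k)
    (hj : dl α a j ≠ 0) (hk : dl α a k ≠ 0) (h : tt α β a e η j = tt α β a e η k) :
    hypDet α ![j, k] ≠ 0 ∧ (hypDet α ![j, k] : ℂ) * η + ((-d3 α β a e j k : ℤ) : ℂ) = 0 := by
  have h1 := tt_sub (β := β) (e := e) ha η hj hk
  rw [h, sub_self, mul_zero] at h1
  refine ⟨fun h2 => ?_, ?_⟩
  · rw [h2, Int.cast_zero, zero_mul, zero_sub] at h1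
    have h3 : (d3 α β a e j k : ℂ) = 0 := by
      rw [← neg_eq_zero]
      exact h1.symm
    exact d3_ne (e := e) hG hjk hj h2 (by exact_mod_cast h3)
  · push_cast
    rw [← sub_eq_add_neg]
    exact h1.symm

theorem tt_triple (hG : Good α β c) (ha : a ≠ 0) {η : ℂ} {j k l : Fin N} (hjk : j ≠ k)
    (hkl : k ≠ l) (hjl : j ≠ l) (hj : dl α a j ≠ 0) (hk : dl α a k ≠ 0) (hl : dl α a l ≠ 0)
    (h1 : tt α β a e η j = tt α β a e η k) (h2 : tt α β a e η k = tt α β a e η l) : False := by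
  have h3 := (tt_det hG ha hjk hj hk h1).1
  refine triple hG (ptt a e η (tt α β a e η j)) hjl hkl h3 ?_ ?_ ?_
  · rw [av_ptt_j η _ hj, sub_self, mul_zero]
  · rw [av_ptt_j η _ hk, h1, sub_self, mul_zero]
  · rw [av_ptt_j η _ hl, h1, h2, sub_self, mul_zero]

end Pool.Agent.ISI
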