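import Mathlib
import Pool.Agent.ISI.Base
import Pool.Agent.ISI.FibDefs
import Pool.Agent.ISI.Lin
import Pool.Agent.ISI.Fib

/-! MODULE ISI-Sep (quantitative separation of the points `tt j` on a suitable fibre).

`κ = (3 Λ (6 M³)²)^(N²)`. The hypotheses say that at `η` the numbers `hypDet η - d3` and
`α j m η + (a m β j - α j m e)` (where `a m ≠ 0`) vanish or are at least `κ⁻¹`.

PROOF. Put `G = 8 κ M⁴` and `D = card JJ`. Different points satisfy `1 ≤ G s / 2`, `s` their distance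
(`tt_sub`), each factor of `CC` is at least `G⁻¹` (`1` if the form is not parallel), so
`|c| ≤ ‖CC‖ G^(N-D)` and `‖CC‖ (s/2)^D ≥ |c| / G^N > 1`, because `G^N < (10 M Λ)^(10 N³) ≤ |c|`. -/

namespace Pool.Agent.ISI

open Pool.Agent.Helper11 Polynomial

variable {N : ℕ} {α : Fin N → Fin 2 → ℤ} {β : Fin N → ℤ} {c : ℤ} {a : Fin 2 → ℤ} {e : ℤ}

private lemma abs_dl_le {M Λ : ℕ} (hB : Bd α β c M Λ) (hF : Frm M a e) (j : Fin N) :
    |((dl α a j : ℤ) : ℝ)| ≤ 2 * (M : ℝ) ^ 2 := by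
  have h1 : |dl α a j| ≤ 2 * (M : ℤ) ^ 2 := by
    unfold dl
    have hM : (0 : ℤ) ≤ M := Int.natCast_nonneg M
    calc |a 0 * α j 1 - a 1 * α j 0| ≤ |a 0 * α j 1| + |a 1 * α j 0| := abs_sub _ _
      _ = |a 0| * |α j 1| + |a 1| * |α j 0| := by rw [abs_mul, abs_mul]
      _ ≤ M * M + M * M := add_le_add
          (mul_le_mul (hF.haM 0) (hB.hα j 1) (abs_nonneg _) hM)
          (mul_le_mul (hF.haM 1) (hB.hα j 0) (abs_nonneg _) hM)
      _ = 2 * (M : ℤ) ^ 2 := by ring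
  rw [← Int.cast_abs]
  exact_mod_cast h1

private lemma one_le_abs {z : ℤ} (hz : z ≠ 0) : (1 : ℝ) ≤ |(z : ℝ)| := by
  rw [← Int.cast_abs]
  exact_mod_cast Int.one_le_abs hz

private lemma norm_int (z : ℤ) : ‖(z : ℂ)‖ = |(z : ℝ)| := by
  rw [Complex.norm_intCast]

private lemma numeric {M Λ N : ℕ} (hM : 1 ≤ M) (hΛ : 1 ≤ Λ) (hN : 1 ≤ N) :
    (8 * ((3 * Λ * (6 * M ^ 3) ^ 2 : ℝ) ^ (N ^ 2)) * (M : ℝ) ^ 4) ^ N <
      (10 * M * Λ : ℝ) ^ (10 * N ^ 3) := by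
  have hM' : (1 : ℝ) ≤ M := by exact_mod_cast hM
  have hΛ' : (1 : ℝ) ≤ Λ := by exact_mod_cast hΛ
  set B : ℝ := 10 * M * Λ with hB
  have hMΛ : (1 : ℝ) ≤ M * Λ := one_le_mul_of_one_le_of_one_le hM' hΛ'
  have hB1 : 1 ≤ B := by rw [hB]; nlinarith
  have h1 : (3 * Λ * (6 * M ^ 3) ^ 2 : ℝ) ≤ B ^ 6 := by
    have h2 : (Λ : ℝ) ≤ (Λ : ℝ) ^ 6 := le_self_pow₀ hΛ' (by norm_num)
    have h3 : (0 : ℝ) ≤ (M : ℝ) ^ 6 := by positivity
    calc (3 * Λ * (6 * M ^ 3) ^ 2 : ℝ) = 108 * ((M : ℝ) ^ 6 * Λ) := by ring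
      _ ≤ 108 * ((M : ℝ) ^ 6 * (Λ : ℝ) ^ 6) := by
          refine mul_le_mul_of_nonneg_left (mul_le_mul_of_nonneg_left h2 h3) (by norm_num)
      _ ≤ 10 ^ 6 * ((M : ℝ) ^ 6 * (Λ : ℝ) ^ 6) :=
          mul_le_mul_of_nonneg_right (by norm_num) (by positivity)
      _ = B ^ 6 := by rw [hB]; ring
  have h4 : (3 * Λ * (6 * M ^ 3) ^ 2 : ℝ) ^ (N ^ 2) ≤ B ^ (6 * N ^ 2) := by
    rw [pow_mul]
    exact pow_le_pow_left₀ (by positivity) h1 _
  have h5 : 8 * (M : ℝ) ^ 4 < B ^ 4 := by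
    have h6 : (1 : ℝ) ≤ (Λ : ℝ) ^ 4 := one_le_pow₀ hΛ'
    have h7 : (0 : ℝ) < (M : ℝ) ^ 4 := by positivity
    calc 8 * (M : ℝ) ^ 4 < 10 ^ 4 * (M : ℝ) ^ 4 := by nlinarith
      _ ≤ 10 ^ 4 * (M : ℝ) ^ 4 * (Λ : ℝ) ^ 4 := le_mul_of_one_le_right (by positivity) h6
      _ = B ^ 4 := by rw [hB]; ring
  have h8 : 8 * ((3 * Λ * (6 * M ^ 3) ^ 2 : ℝ) ^ (N ^ 2)) * (M : ℝ) ^ 4 < B ^ (4 + 6 * N ^ 2) := by
    have hκ : 0 < (3 * Λ * (6 * M ^ 3) ^ 2 : ℝ) ^ (N ^ 2) := by positivity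
    calc 8 * ((3 * Λ * (6 * M ^ 3) ^ 2 : ℝ) ^ (N ^ 2)) * (M : ℝ) ^ 4
        = 8 * (M : ℝ) ^ 4 * (3 * Λ * (6 * M ^ 3) ^ 2 : ℝ) ^ (N ^ 2) := by ring
      _ < B ^ 4 * (3 * Λ * (6 * M ^ 3) ^ 2 : ℝ) ^ (N ^ 2) := mul_lt_mul_of_pos_right h5 hκ
      _ ≤ B ^ 4 * B ^ (6 * N ^ 2) := mul_le_mul_of_nonneg_left h4 (by positivity)
      _ = B ^ (4 + 6 * N ^ 2) := by rw [← pow_add]
  calc _ < (B ^ (4 + 6 * N ^ 2)) ^ N := pow_lt_pow_left₀ h8 (by positivity) (by omega)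
    _ = B ^ ((4 + 6 * N ^ 2) * N) := by rw [← pow_mul]
    _ ≤ B ^ (10 * N ^ 3) := by
        refine pow_le_pow_right₀ hB1 ?_
        have h9 : N ≤ N ^ 3 := Nat.le_self_pow (by norm_num) N
        calc (4 + 6 * N ^ 2) * N = 4 * N + 6 * N ^ 3 := by ring
          _ ≤ 10 * N ^ 3 := by omega

theorem separation (hG : Good α β c) {M Λ : ℕ} (hB : Bd α β c M Λ) (hF : Frm M a e) {η : ℂ}
    {m : Fin 2} (hm : a m ≠ 0) (h0 : ∀ j, dl α a j = 0 → lam α β a e η j ≠ 0)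
    (h1 : ∀ j k, (hypDet α ![j, k] : ℂ) * η - d3 α β a e j k = 0 ∨
      1 ≤ (3 * Λ * (6 * M ^ 3) ^ 2 : ℝ) ^ (N ^ 2) *
        ‖(hypDet α ![j, k] : ℂ) * η - d3 α β a e j k‖)
    (h2 : ∀ j, (α j m : ℂ) * η + ((a m * β j - α j m * e : ℤ) : ℂ) = 0 ∨
      1 ≤ (3 * Λ * (6 * M ^ 3) ^ 2 : ℝ) ^ (N ^ 2) *
        ‖(α j m : ℂ) * η + ((a m * β j - α j m * e : ℤ) : ℂ)‖) :
    ∃ ρ : ℝ, 0 < ρ ∧ ‖CC α β c a e η‖ * ρ ^ (JJ α a).card = 1 ∧
      ∀ j ∈ JJ α a, ∀ k ∈ JJ α a, tt α β a e η j = tt α β a e η k ∨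
        2 * ρ < ‖tt α β a e η j - tt α β a e η k‖ := by
  have hM' : (1 : ℝ) ≤ M := by exact_mod_cast hB.hM
  have hΛ' : (1 : ℝ) ≤ Λ := by exact_mod_cast hB.hΛ
  set κ : ℝ := (3 * Λ * (6 * M ^ 3) ^ 2 : ℝ) ^ (N ^ 2) with hκ
  have hκ1 : 1 ≤ κ := by
    refine one_le_pow₀ ?_
    have h3 : (1 : ℝ) ≤ (M : ℝ) ^ 6 := one_le_pow₀ hM'
    have h4 : (1 : ℝ) ≤ Λ * (M : ℝ) ^ 6 := one_le_mul_of_one_le_of_one_le hΛ' h3
    calc (1 : ℝ) ≤ 108 * (Λ * (M : ℝ) ^ 6) := by linarith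
      _ = _ := by ring
  have hκ0 : 0 < κ := lt_of_lt_of_le one_pos hκ1
  set G : ℝ := 8 * κ * (M : ℝ) ^ 4 with hGd
  have hG0 : 0 < G := by positivity
  set D : ℕ := (JJ α a).card with hD
  have hDN : D ≤ N := by
    have := Finset.card_le_univ (JJ α a)
    rwa [Fintype.card_fin] at this
  have hD1 : D ≠ 0 := by
    obtain ⟨j, hj⟩ := exists_not_par hG hF.ha
    have : j ∈ JJ α a := Finset.mem_filter.2 ⟨Finset.mem_univ _, hj⟩
    exact (Finset.card_pos.2 ⟨j, this⟩).ne'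
  have hCC0 : CC α β c a e η ≠ 0 := CC_ne hG h0
  have hCC : 0 < ‖CC α β c a e η‖ := norm_pos_iff.2 hCC0
  -- the factors
  have hfac : |(c : ℝ)| ≤ ‖CC α β c a e η‖ * G ^ (N - D) := by
    have h3 : ∀ j : Fin N, 1 ≤ (if dl α a j = 0 then G else 1) *
        ‖(if dl α a j = 0 then lam α β a e η j else (dl α a j : ℂ))‖ := by
      intro j
      by_cases hj : dl α a j = 0
      · rw [if_pos hj, if_pos hj]
        have h4 := lam_eq (β := β) (e := e) hF.ha η hj m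
        rcases h2 j with h5 | h5
        · rw [← h4] at h5
          exact absurd h5 (mul_ne_zero (by exact_mod_cast hm) (h0 j hj))
        · rw [← h4, norm_mul, norm_int] at h5
          have h6 : |((a m : ℤ) : ℝ)| ≤ M := by
            rw [← Int.cast_abs]
            exact_mod_cast hF.haM m
          refine h5.trans ?_
          rw [← mul_assoc]
          refine mul_le_mul_of_nonneg_right ?_ (norm_nonneg _)
          calc κ * |((a m : ℤ) : ℝ)| ≤ κ * M := mul_le_mul_of_nonneg_left h6 hκ0.le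
            _ ≤ κ * (8 * (M : ℝ) ^ 4) := by
                refine mul_le_mul_of_nonneg_left ?_ hκ0.le
                have h7 : (M : ℝ) ≤ (M : ℝ) ^ 4 := le_self_pow₀ hM' (by norm_num)
                nlinarith
            _ = G := by rw [hGd]; ring
      · rw [if_neg hj, if_neg hj, one_mul, norm_int]
        exact one_le_abs hj
    have h4 : (1 : ℝ) ≤ ∏ j : Fin N, ((if dl α a j = 0 then G else 1) *
        ‖(if dl α a j = 0 then lam α β a e η j else (dl α a j : ℂ))‖) := by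
      calc (1 : ℝ) = ∏ j : Fin N, (1 : ℝ) := by rw [Finset.prod_const_one]
        _ ≤ _ := Finset.prod_le_prod (fun _ _ => zero_le_one) fun j _ => h3 j
    have h5 : ∏ j : Fin N, (if dl α a j = 0 then G else 1) = G ^ (N - D) := by
      rw [Finset.prod_ite, Finset.prod_const, Finset.prod_const_one, mul_one]
      congr 1
      have h6 := Finset.card_filter_add_card_filter_not (s := (Finset.univ : Finset (Fin N)))
        (fun j => dl α a j = 0)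
      rw [Finset.card_univ, Fintype.card_fin] at h6
      have h7 : D = (Finset.univ.filter fun j => ¬ dl α a j = 0).card := rfl
      omega
    rw [Finset.prod_mul_distrib, h5] at h4
    have h6 : ‖CC α β c a e η‖ = |(c : ℝ)| *
        ∏ j, ‖(if dl α a j = 0 then lam α β a e η j else (dl α a j : ℂ))‖ := by
      unfold CC
      rw [norm_mul, norm_int, norm_prod]
    rw [h6]
    calc |(c : ℝ)| = |(c : ℝ)| * 1 := (mul_one _).symm
      _ ≤ |(c : ℝ)| * (G ^ (N - D) *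
          ∏ j, ‖(if dl α a j = 0 then lam α β a e η j else (dl α a j : ℂ))‖) :=
          mul_le_mul_of_nonneg_left h4 (abs_nonneg _)
      _ = _ := by ring
  have hnum : G ^ N < |(c : ℝ)| := by
    have h3 : (10 * M * Λ : ℝ) ^ (10 * N ^ 3) ≤ |(c : ℝ)| := by
      rw [← Int.cast_abs]
      exact_mod_cast hB.hc
    refine lt_of_lt_of_le ?_ h3
    exact numeric hB.hM hB.hΛ hG.hN
  have hGND : G ^ (N - D) * G ^ D = G ^ N := by
    rw [← pow_add]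
    congr 1
    omega
  have hCG : G ^ D < ‖CC α β c a e η‖ := by
    have h3 : G ^ (N - D) * G ^ D < G ^ (N - D) * ‖CC α β c a e η‖ := by
      rw [hGND]
      refine hnum.trans_le (hfac.trans (le_of_eq (mul_comm _ _)))
    exact lt_of_mul_lt_mul_left h3 (by positivity)
  -- the radius
  refine ⟨(‖CC α β c a e η‖⁻¹) ^ ((D : ℝ)⁻¹), Real.rpow_pos_of_pos (inv_pos.2 hCC) _, ?_, ?_⟩
  · rw [Real.rpow_inv_natCast_pow (inv_pos.2 hCC).le hD1]
    exact mul_inv_cancel₀ hCC.ne'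
  · intro j hj k hk
    by_cases hjk : tt α β a e η j = tt α β a e η k
    · exact Or.inl hjk
    right
    have hj' : dl α a j ≠ 0 := (Finset.mem_filter.1 hj).2
    have hk' : dl α a k ≠ 0 := (Finset.mem_filter.1 hk).2
    set s : ℝ := ‖tt α β a e η j - tt α β a e η k‖ with hs
    have hs0 : 0 ≤ s := norm_nonneg _
    have h3 := tt_sub (β := β) (e := e) hF.ha η hj' hk'
    have hGs : 1 ≤ G * (s / 2) := by
      rcases h1 j k with h4 | h4
      · rw [← h3] at h4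
        refine absurd h4 (mul_ne_zero (mul_ne_zero ?_ ?_) (sub_ne_zero.2 (Ne.symm hjk)))
        · exact_mod_cast hj'
        · exact_mod_cast hk'
      · rw [← h3, norm_mul, norm_mul, norm_int, norm_int, norm_sub_rev, ← hs] at h4
        refine h4.trans ?_
        have h5 : |((dl α a j : ℤ) : ℝ)| * |((dl α a k : ℤ) : ℝ)| ≤
            2 * (M : ℝ) ^ 2 * (2 * (M : ℝ) ^ 2) :=
          mul_le_mul (abs_dl_le hB hF j) (abs_dl_le hB hF k) (abs_nonneg _) (by positivity)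
        calc κ * (|((dl α a j : ℤ) : ℝ)| * |((dl α a k : ℤ) : ℝ)| * s)
            ≤ κ * (2 * (M : ℝ) ^ 2 * (2 * (M : ℝ) ^ 2) * s) :=
              mul_le_mul_of_nonneg_left (mul_le_mul_of_nonneg_right h5 hs0) hκ0.le
          _ = G * (s / 2) := by rw [hGd]; ring
    have h6 : 1 < ‖CC α β c a e η‖ * (s / 2) ^ D := by
      have h7 : 1 ≤ G ^ D * (s / 2) ^ D := by
        rw [← mul_pow]
        exact one_le_pow₀ hGs
      have h8 : 0 < (s / 2) ^ D := by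
        by_contra hcon
        have : G ^ D * (s / 2) ^ D ≤ 0 :=
          mul_nonpos_of_nonneg_of_nonpos (by positivity) (not_lt.1 hcon)
        linarith
      exact h7.trans_lt (mul_lt_mul_of_pos_right hCG h8)
    have h9 : ((‖CC α β c a e η‖⁻¹) ^ ((D : ℝ)⁻¹)) ^ D < (s / 2) ^ D := by
      rw [Real.rpow_inv_natCast_pow (inv_pos.2 hCC).le hD1, inv_lt_iff_one_lt_mul₀ hCC, mul_comm]
      exact h6
    have h10 := lt_of_pow_lt_pow_left₀ D (by linarith) h9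
    linarith

end Pool.Agent.ISI
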