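import Mathlib
import Pool.Agent.ISI.Fib
import Pool.Agent.ISI.Sep
import Pool.Agent.ISI.Arc
import Pool.Agent.ISI.Cls
import Pool.Agent.ISI.Fac
import Pool.Agent.ISI.Hgt

/-! MODULE ISI-Red1 (the exponents of a unit whose absolute value is constant on fibres).

`fac` gives a root `η` of `π` at which the linear forms `hypDet X - d3` and
`α j m X + (a m β j - α j m e)` vanish or are not small. If a parallel form vanishes at `η`:
`lin_of_zero`. Otherwise `separation`, `hgt_const`, `arch` and `tt_triple` give the hypotheses of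
`pairing`, and `tt_det`, `lin_of_zero` the polynomial `π` for each pair. -/

namespace Pool.Agent.ISI

open Pool.Agent.Helper11 Polynomial

variable {N : ℕ} {α : Fin N → Fin 2 → ℤ} {β : Fin N → ℤ} {c : ℤ} {a : Fin 2 → ℤ} {e : ℤ}

private lemma abs_mul_le {x y X Y : ℤ} (hx : |x| ≤ X) (hy : |y| ≤ Y) : |x * y| ≤ X * Y := by
  rw [abs_mul]
  exact mul_le_mul hx hy (abs_nonneg _) ((abs_nonneg _).trans hx)

private lemma abs_sub_le' {x y X Y : ℤ} (hx : |x| ≤ X) (hy : |y| ≤ Y) : |x - y| ≤ X + Y :=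
  (abs_sub x y).trans (add_le_add hx hy)

private lemma abs_add_le' {x y X Y : ℤ} (hx : |x| ≤ X) (hy : |y| ≤ Y) : |x + y| ≤ X + Y :=
  (abs_add_le x y).trans (add_le_add hx hy)

theorem red1 (hG : Good α β c) {M Λ : ℕ} (hB : Bd α β c M Λ) (hF : Frm M a e) {π : ℤ[X]}
    (hπ : Irr Λ π) (w : (HypRingQ (n := 1) α β c)ˣ) {n : ℕ} (hn : n ≠ 0) (q : ℚˣ)
    (e' : Fin N → ℤ) (hw : w ^ n = cstA α β c q * ∏ j, crvU α β c j ^ e' j)
    (hH : ∀ φ φ' : HypRingQ (n := 1) α β c →+* ℂ,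
      φ (affFun α β c a e) = φ' (affFun α β c a e) → aeval (φ (affFun α β c a e)) π = 0 →
      ‖φ w‖ = ‖φ' w‖) :
    (∃ (j : Fin N) (m : Fin 2) (r : ℚ), dl α a j = 0 ∧ a m ≠ 0 ∧ r ≠ 0 ∧
      π.map (Int.castRingHom ℚ) =
        C r * (C (α j m : ℚ) * X + C ((a m * β j - α j m * e : ℤ) : ℚ))) ∨
    ∃ (κ : ℤ) (σ : Fin N → Fin N), (∀ j, σ (σ j) = j) ∧
      (∀ j, dl α a j ≠ 0 → dl α a (σ j) ≠ 0 ∧ e' j + e' (σ j) = κ) ∧
      (∀ j, dl α a j ≠ 0 → σ j ≠ j → hypDet α ![j, σ j] ≠ 0 ∧ ∃ r : ℚ, r ≠ 0 ∧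
        π.map (Int.castRingHom ℚ) =
          C r * (C (hypDet α ![j, σ j] : ℚ) * X + C ((-d3 α β a e j (σ j) : ℤ) : ℚ))) := by
  classical
  obtain ⟨m, hm⟩ : ∃ m, a m ≠ 0 := by
    by_contra h
    push Not at h
    exact hF.ha (funext h)
  have hM1 : (1 : ℤ) ≤ M := by exact_mod_cast hB.hM
  have hdt : ∀ j k, |hypDet α ![j, k]| ≤ 2 * (M : ℤ) ^ 2 := by
    intro j k
    rw [dt_eq]
    have h1 := abs_sub_le' (abs_mul_le (hB.hα j 0) (hB.hα k 1)) (abs_mul_le (hB.hα j 1) (hB.hα k 0))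
    linarith
  have hdl : ∀ j, |dl α a j| ≤ 2 * (M : ℤ) ^ 2 := by
    intro j
    have h1 := abs_sub_le' (abs_mul_le (hF.haM 0) (hB.hα j 1)) (abs_mul_le (hF.haM 1) (hB.hα j 0))
    unfold dl
    linarith
  have hd3 : ∀ j k, |d3 α β a e j k| ≤ 6 * (M : ℤ) ^ 3 := by
    intro j k
    have h1 := abs_add_le' (abs_sub_le' (abs_mul_le hF.heM (hdt j k))
      (abs_mul_le (hB.hβ j) (hdl k))) (abs_mul_le (hB.hβ k) (hdl j))
    unfold d3
    linarith
  have hpw : 2 * (M : ℤ) ^ 2 ≤ 6 * (M : ℤ) ^ 3 := by nlinarith [sq_nonneg (M : ℤ)]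
  have hpw1 : (M : ℤ) ≤ 6 * (M : ℤ) ^ 3 := by nlinarith [sq_nonneg (M : ℤ)]
  have hAB : ∀ j, |a m * β j - α j m * e| ≤ 2 * (M : ℤ) ^ 2 := by
    intro j
    have h1 := abs_sub_le' (abs_mul_le (hF.haM m) (hB.hβ j)) (abs_mul_le (hB.hα j m) hF.heM)
    linarith
  obtain ⟨η, hη, hfac⟩ := fac (ι := Fin N × Fin N) π hπ.irr hπ.deg Λ
    (by have h1 := hπ.pos; have h2 := hπ.le; omega)
    (fun x => if x.1 = x.2 then α x.1 m else hypDet α ![x.1, x.2])
    (fun x => if x.1 = x.2 then a m * β x.1 - α x.1 m * e else - d3 α β a e x.1 x.2)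
    (6 * M ^ 3) (by have := Nat.one_le_pow 3 M hB.hM; omega)
    (by
      rintro ⟨j, k⟩
      dsimp only
      push_cast
      split_ifs with h
      · exact (hB.hα j m).trans hpw1
      · exact (hdt j k).trans hpw)
    (by
      rintro ⟨j, k⟩
      dsimp only
      push_cast
      split_ifs with h
      · exact (hAB j).trans hpw
      · rw [abs_neg]
        exact hd3 j k)
  by_cases h0 : ∀ j, dl α a j = 0 → lam α β a e η j ≠ 0
  swap
  · push Not at h0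
    obtain ⟨j, hj, hl⟩ := h0
    have h1 := lam_eq (β := β) (e := e) hF.ha η hj m
    rw [hl, mul_zero] at h1
    have hα := alpha_ne hG hj hm
    obtain ⟨-, r, hr, h2⟩ := lin_of_zero π hπ.irr hπ.deg (Or.inl hα) hη h1.symm
    exact Or.inl ⟨j, m, r, hj, hm, hr, h2⟩
  right
  have hcard : Fintype.card (Fin N × Fin N) = N ^ 2 := by
    rw [Fintype.card_prod, Fintype.card_fin, sq]
  rw [hcard] at hfac
  obtain ⟨ρ, hρ, hCρ, hsep⟩ := separation hG hB hF hm h0 (by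
    intro j k
    by_cases hjk : j = k
    · left
      subst hjk
      have h1 : hypDet α ![j, j] = 0 := by rw [dt_eq]; ring
      unfold d3
      rw [h1]
      push_cast
      ring
    · have h1 := hfac (j, k)
      dsimp only at h1
      rw [if_neg hjk, if_neg hjk] at h1
      push_cast at h1
      simpa only [sub_eq_add_neg] using h1) (by
    intro j
    have h1 := hfac (j, j)
    dsimp only at h1
    rw [if_pos rfl, if_pos rfl] at h1
    push_cast at h1 ⊢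
    exact h1)
  obtain ⟨H, hHc⟩ := hgt_const hF.ha h0 w hn q e' hw (fun φ φ' h h' =>
    hH φ φ' (h.trans h'.symm) (by rw [h]; exact hη))
  have hJ : ∀ j, j ∈ JJ α a ↔ dl α a j ≠ 0 := fun j => by simp [JJ]
  obtain ⟨κ, σ, hσ, hσ2, -⟩ := pairing (JJ α a) (tt α β a e η) e'
    (fun j hj k hk l hl h1 h2 h3 h4 h5 => tt_triple hG hF.ha h1 h2 h3 ((hJ j).1 hj) ((hJ k).1 hk)
      ((hJ l).1 hl) h4 h5)
    (fun k hk l hl => arch (JJ α a) (tt α β a e η) (CC α β c a e η) ρ hρ hCρ hsep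
      (fun j => (e' j : ℝ)) H hHc hk hl)
  refine ⟨κ, σ, hσ, fun j hj => ?_, fun j hj hne => ?_⟩
  · obtain ⟨h1, -, h3⟩ := hσ2 j ((hJ j).2 hj)
    exact ⟨(hJ _).1 h1, h3⟩
  · obtain ⟨h1, h2, -⟩ := hσ2 j ((hJ j).2 hj)
    obtain ⟨h3, h4⟩ := tt_det hG hF.ha hne.symm hj ((hJ _).1 h1) h2.symm
    obtain ⟨-, r, hr, h5⟩ := lin_of_zero π hπ.irr hπ.deg (Or.inl h3) hη h4
    exact ⟨h3, r, hr, h5⟩

end Pool.Agent.ISI
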