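import Mathlib
import Pool.Agent.ISI.Red1
import Pool.Agent.ISI.Stb

/-! MODULE ISI-Red2 (reduction of the symbols `{π(x), w}`).

PROOF. `w^n = cstA q ∏ crvU^e'` with `n ≠ 0` (`units_of_curve hG.hrk hG.hgp hG.hN hG.hc w`, Helper11/CUnits2.lean).
In `K`: `(uK w)^n = cst q ∏ LK j ^ e' j` (`map_cstA`, `LK` is by definition `uK` of `crvU`).
Apply `red1`. `x = xK α β c K a e`, `hx = transc ..`.
First case: `pz x π ∈ UA` by `par_val`, so `sy (pz x π) (uK w) ∈ US` (`sy_mem_US`, `uK_mem`).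
Second case: write `f = pz x π ∈ GP` (`π ≠ 0`, leading coefficient between 1 and Λ:
`natAbs ≤ Λ`). `(2 n) • {f, uK w} = {f, (uK w)^(2n)}`
`= {f, cst q²} + ∑_{dl j = 0} 2 e' j {f, LK j} + ∑_{dl j ≠ 0} 2 e' j {f, LK j}`.
The first two terms are in `LG` (all entries in `GP`). For the last:
`2 e' j = κ + (e' j - e' (σ j))`, so it is
`κ {f, ∏_{dl j ≠ 0} LK j} + ∑_{dl j ≠ 0} e' j ({f, LK j} - {f, LK (σ j)})` by reindexing with the
involution `σ` of `{j | dl j ≠ 0}` (`Finset.sum_nbij'`/`Finset.sum_bij'`), and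
`{f, LK j} - {f, LK (σ j)} = {f, LK j / LK (σ j)}` is `0` if `σ j = j` and otherwise in
`LG ⊔ US` by `pair_val` and `stb` (`{r₁,f}, {f,r₂} ∈ LG`; `{r₁, LK}, {LK, r₂}, {LK, LK} ∈ US`).
Finally `∏_{dl j ≠ 0} LK j = (cst c)⁻¹ ∏_{dl j = 0} (LK j)⁻¹` (from `crv_rel`: `c ∏_j L_j = 1`), so
`{f, ∏_{dl j ≠ 0} LK j} ∈ LG`. Divide by `2 n`. -/

namespace Pool.Agent.ISI

open Pool.Agent.Helper11 Polynomial

variable {N : ℕ} {α : Fin N → Fin 2 → ℤ} {β : Fin N → ℤ} {c : ℤ} {a : Fin 2 → ℤ} {e : ℤ}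

private lemma r2_sy_LG {K : Type} [Field K] [CharZero K] [Algebra (HypRingQ (n := 1) α β c) K]
    {Λ : ℕ} {f g : Kˣ} (hf : f ∈ GP α β c K Λ a e) (hg : g ∈ GP α β c K Λ a e) :
    sy f g ∈ LG α β c K Λ a e :=
  Submodule.subset_span ⟨f, g, hf, hg, rfl⟩

private lemma r2_cst_GP {K : Type} [Field K] [CharZero K]
    [Algebra (HypRingQ (n := 1) α β c) K] {Λ : ℕ} (q : ℚˣ) : cst K q ∈ GP α β c K Λ a e :=
  Subgroup.subset_closure (Or.inl (Or.inl ⟨q, rfl⟩))

private lemma r2_LK_GP {K : Type} [Field K] [CharZero K]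
    [Algebra (HypRingQ (n := 1) α β c) K] {Λ : ℕ} {j : Fin N} (hj : dl α a j = 0) :
    LK α β c K j ∈ GP α β c K Λ a e :=
  Subgroup.subset_closure (Or.inl (Or.inr ⟨j, hj, rfl⟩))

private lemma r2_pow {K : Type} [Field K] [CharZero K] [Algebra (HypRingQ (n := 1) α β c) K]
    {w : (HypRingQ (n := 1) α β c)ˣ} {n : ℕ} {q : ℚˣ} {e' : Fin N → ℤ}
    (hw : w ^ n = cstA α β c q * ∏ j, crvU α β c j ^ e' j) :
    (uK α β c K w) ^ n = cst K q * ∏ j, LK α β c K j ^ e' j := by
  have h := congrArg (Units.map (algebraMap (HypRingQ (n := 1) α β c) K :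
    HypRingQ (n := 1) α β c →* K)) hw
  rw [map_pow, map_mul, map_prod, map_cstA] at h
  refine h.trans ?_
  congr 1
  refine Finset.prod_congr rfl fun i _ => ?_
  rw [map_zpow]
  rfl

private lemma r2_rel {K : Type} [Field K] [CharZero K] [Algebra (HypRingQ (n := 1) α β c) K]
    (hc : c ≠ 0) : ∃ qc : ℚˣ, cst K qc * ∏ j, LK α β c K j = 1 := by
  have hc' : (c : ℚ) ≠ 0 := by exact_mod_cast hc
  refine ⟨Units.mk0 (c : ℚ) hc', ?_⟩
  apply Units.ext
  have h2 := congrArg (algebraMap (HypRingQ (n := 1) α β c) K)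
    (crv_rel (α := α) (β := β) (c := c))
  rw [map_mul, map_prod, map_one, map_intCast] at h2
  rw [Units.val_mul, Units.coe_prod, cst_val, Units.val_mk0, Rat.cast_intCast, Units.val_one]
  exact h2

theorem red2 (hG : Good α β c) {M Λ : ℕ} (hB : Bd α β c M Λ) (hF : Frm M a e) {π : ℤ[X]}
    (hπ : Irr Λ π) (w : (HypRingQ (n := 1) α β c)ˣ)
    (hH : ∀ φ φ' : HypRingQ (n := 1) α β c →+* ℂ,
      φ (affFun α β c a e) = φ' (affFun α β c a e) → aeval (φ (affFun α β c a e)) π = 0 →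
      ‖φ w‖ = ‖φ' w‖)
    (K : Type) [Field K] [CharZero K] [Algebra (HypRingQ (n := 1) α β c) K]
    [IsFractionRing (HypRingQ (n := 1) α β c) K] :
    sy (pz (xK α β c K a e) π) (uK α β c K w) ∈ LG α β c K Λ a e ⊔ US α β c K := by
  have hx : Transcendental ℚ (xK α β c K a e) := transc hG hF.ha K
  have hπ0 : π ≠ 0 := hπ.irr.ne_zero
  obtain ⟨n, hn, q, e', hw⟩ := units_of_curve hG.hrk hG.hgp hG.hN hG.hc w
  have hwK := r2_pow (K := K) hw
  rcases red1 hG hB hF hπ w hn q e' hw hH with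
    ⟨j, m, r, hj, hm, hr, heq⟩ | ⟨κ, σ, hσσ, hσ1, hσ2⟩
  · obtain ⟨q', hq'⟩ := par_val (K := K) hx hπ0 hj hm hr heq
    rw [hq']
    exact Submodule.mem_sup_right (sy_mem_US (mul_mem (cst_mem q') (LK_mem j)) (uK_mem w))
  · set f : Kˣ := pz (xK α β c K a e) π with hf
    set W : Submodule ℚ (KMQ K 2) := LG α β c K Λ a e ⊔ US α β c K with hW
    have hLW : LG α β c K Λ a e ≤ W := le_sup_left
    have hUW : US α β c K ≤ W := le_sup_right
    have hfG : f ∈ GP α β c K Λ a e := by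
      refine Subgroup.subset_closure (Or.inr ⟨π, hπ0, ?_, rfl⟩)
      have h1 := hπ.pos
      have h2 := hπ.le
      omega
    have hcst : ∀ q₁ : ℚˣ, sy f (cst K q₁) ∈ W := fun q₁ => hLW (r2_sy_LG hfG (r2_cst_GP q₁))
    have hcst' : ∀ q₁ : ℚˣ, sy (cst K q₁) f ∈ W := fun q₁ => hLW (r2_sy_LG (r2_cst_GP q₁) hfG)
    have hpar : ∀ j, dl α a j = 0 → sy f (LK α β c K j) ∈ W := fun j hj =>
      hLW (r2_sy_LG hfG (r2_LK_GP hj))
    classical
    set S1 : Finset (Fin N) := Finset.univ.filter fun j => dl α a j ≠ 0 with hS1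
    have hsplit : ∀ F : Fin N → KMQ K 2, ∑ j, F j =
        ∑ j ∈ S1, F j + ∑ j ∈ Finset.univ.filter (fun j => ¬ dl α a j ≠ 0), F j := fun F =>
      (Finset.sum_filter_add_sum_filter_not Finset.univ (fun j => dl α a j ≠ 0) F).symm
    -- the product over the forms which are not parallel
    have hprod : ∑ j ∈ S1, sy f (LK α β c K j) ∈ W := by
      obtain ⟨qc, hqc⟩ := r2_rel (α := α) (β := β) (K := K) hG.hc
      have h1 : sy f (cst K qc * ∏ j, LK α β c K j) = 0 := by
        rw [hqc]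
        exact sy_one_right f
      rw [sy_mul_right, sy_prod_right, hsplit] at h1
      have h2 : ∑ j ∈ S1, sy f (LK α β c K j) = -(sy f (cst K qc)) -
          ∑ j ∈ Finset.univ.filter (fun j => ¬ dl α a j ≠ 0), sy f (LK α β c K j) := by
        rw [← sub_eq_zero, ← h1]
        abel
      rw [h2]
      refine W.sub_mem (W.neg_mem (hcst qc)) (W.sum_mem fun j hj => hpar j ?_)
      have h3 := (Finset.mem_filter.1 hj).2
      exact not_not.1 h3
    -- the differences
    have hdiff : ∀ j ∈ S1, sy f (LK α β c K j) - sy f (LK α β c K (σ j)) ∈ W := by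
      intro j hj
      have hj0 : dl α a j ≠ 0 := (Finset.mem_filter.1 hj).2
      by_cases hjs : σ j = j
      · rw [hjs, sub_self]
        exact W.zero_mem
      · obtain ⟨_, r, hr, heq⟩ := hσ2 j hj0 hjs
        obtain ⟨r₁, r₂, h12⟩ := pair_val (K := K) hx hπ0 hj0 (hσ1 j hj0).1 hr heq
        rw [← sy_div_right, stb h12]
        refine W.sub_mem (W.sub_mem (W.sub_mem (W.add_mem (hcst' r₁) (hcst r₂)) ?_) ?_) ?_
        · exact hUW (sy_mem_US (cst_mem r₁) (LK_mem (σ j)))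
        · exact hUW (sy_mem_US (LK_mem j) (cst_mem r₂))
        · exact hUW (sy_mem_US (LK_mem j) (LK_mem (σ j)))
    -- the sum over the forms which are not parallel
    have hT : (2 : ℚ) • ∑ j ∈ S1, (e' j : ℚ) • sy f (LK α β c K j) ∈ W := by
      have hre : ∑ j ∈ S1, (e' (σ j) : ℚ) • sy f (LK α β c K j) =
          ∑ j ∈ S1, (e' j : ℚ) • sy f (LK α β c K (σ j)) := by
        refine Finset.sum_nbij' σ σ ?_ ?_ ?_ ?_ ?_
        · intro j hj
          exact Finset.mem_filter.2 ⟨Finset.mem_univ _, (hσ1 j (Finset.mem_filter.1 hj).2).1⟩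
        · intro j hj
          exact Finset.mem_filter.2 ⟨Finset.mem_univ _, (hσ1 j (Finset.mem_filter.1 hj).2).1⟩
        · intro j _
          exact hσσ j
        · intro j _
          exact hσσ j
        · intro j _
          rw [hσσ j]
      have h1 : (2 : ℚ) • ∑ j ∈ S1, (e' j : ℚ) • sy f (LK α β c K j) =
          (κ : ℚ) • ∑ j ∈ S1, sy f (LK α β c K j) +
            ∑ j ∈ S1, (e' j : ℚ) • (sy f (LK α β c K j) - sy f (LK α β c K (σ j))) := by
        have h2 : ∑ j ∈ S1, (e' j : ℚ) • (sy f (LK α β c K j) - sy f (LK α β c K (σ j))) =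
            ∑ j ∈ S1, (e' j : ℚ) • sy f (LK α β c K j) -
              ∑ j ∈ S1, (e' (σ j) : ℚ) • sy f (LK α β c K j) := by
          rw [hre, ← Finset.sum_sub_distrib]
          refine Finset.sum_congr rfl fun j _ => ?_
          rw [smul_sub]
        rw [h2, Finset.smul_sum, Finset.smul_sum, ← Finset.sum_sub_distrib,
          ← Finset.sum_add_distrib]
        refine Finset.sum_congr rfl fun j hj => ?_
        have h3 := (hσ1 j (Finset.mem_filter.1 hj).2).2
        rw [← h3, ← sub_smul, ← add_smul, smul_smul]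
        congr 1
        push_cast
        ring
      rw [h1]
      exact W.add_mem (W.smul_mem _ hprod) (W.sum_mem fun j hj => W.smul_mem _ (hdiff j hj))
    have hn0 : (n : ℚ) ≠ 0 := by exact_mod_cast hn
    have hfin : (2 : ℚ) • ((n : ℚ) • sy f (uK α β c K w)) ∈ W := by
      have h1 : (n : ℚ) • sy f (uK α β c K w) = sy f (cst K q) +
          (∑ j ∈ S1, (e' j : ℚ) • sy f (LK α β c K j) +
            ∑ j ∈ Finset.univ.filter (fun j => ¬ dl α a j ≠ 0),
              (e' j : ℚ) • sy f (LK α β c K j)) := by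
        have h2 := sy_zpow_right f (uK α β c K w) (n : ℤ)
        rw [zpow_natCast, hwK, sy_mul_right, sy_prod_right] at h2
        rw [Int.cast_natCast] at h2
        rw [← h2, ← hsplit]
        congr 1
        refine Finset.sum_congr rfl fun j _ => ?_
        rw [sy_zpow_right]
      rw [h1, smul_add, smul_add]
      refine W.add_mem (W.smul_mem _ (hcst q)) (W.add_mem hT (W.smul_mem _
        (W.sum_mem fun j hj => W.smul_mem _ (hpar j ?_))))
      have h3 := (Finset.mem_filter.1 hj).2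
      exact not_not.1 h3
    rw [smul_smul] at hfin
    exact (W.smul_mem_iff (mul_ne_zero two_ne_zero hn0)).1 hfin

end Pool.Agent.ISI
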