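import Mathlib

/-! MODULE ISI-Ptsb (extension of a homomorphism to ℂ along an integral extension; the valuation
ring of a maximal ideal of a Dedekind domain; Mathlib only).

`exists_ext`: PROOF. `A → B` (`b ↦ ⟨algebraMap A K b, hA b⟩`) is injective (`A` is a domain with
fraction field `K`; in fact only needed that the kernel of `A → B` is 0) and integral. Let
`P = ker φ`, a prime ideal of `A`. Lying over: a prime ideal `Q` of `B` with `Q ∩ A = P`
(`Ideal.exists_ideal_over_prime_of_isIntegral` or `..._of_isIntegral_of_isDomain`).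
`B/Q` is an integral domain, integral over `A/P`; `A/P` embeds in ℂ by `φ`. As ℂ is algebraically
closed, the embedding extends to `B/Q → ℂ` (`IsAlgClosed.lift`, for `Algebra.IsAlgebraic (A/P) (B/Q)`;
or pass to the fraction fields). Compose `B → B/Q → ℂ`.

`exists_val`: PROOF. `P = ker φ` is a prime ideal of the Dedekind domain `B`, non zero since
`b ∈ P`, so maximal. `K` is the fraction field of `B`; the localization of `B` at `P` inside `K`
(`IsLocalization.subalgebra`/`Localization.subalgebra.ofField K P.primeCompl`, or directly the set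
of the `x / y`, `x, y ∈ B`, `y ∉ P`) is a discrete valuation ring
(`IsLocalization.AtPrime.isDiscreteValuationRing_of_dedekind_domain`), hence a valuation subring
`O` of `K` (`ValuationSubring.ofSubring`: for `x : K`, `x ∈ O` or `x⁻¹ ∈ O`, valuation rings,
`ValuationRing.isInteger_or_isInteger`). Alternatively: `O` = valuation subring of the `P`-adic
valuation `IsDedekindDomain.HeightOneSpectrum.valuation K` and its DVR instances.
`ρ : O → ℂ` is the extension of `φ` to the localization (`IsLocalization.lift`, elements outside `P`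
have non zero image): `ρ (x/y) = φ x / φ y`. `ρ z = 0` iff `x ∈ P` iff `z` is in the maximal ideal
iff `O.valuation z < 1` (`ValuationSubring.valuation_lt_one_iff`). -/

namespace Pool.Agent.ISI

open Polynomial

theorem exists_ext (A : Type) [CommRing A] [IsDomain A] (K : Type) [Field K] [Algebra A K]
    [IsFractionRing A K] (B : Subring K) (hA : ∀ b : A, algebraMap A K b ∈ B)
    (hB : ∀ z ∈ B, (algebraMap A K).IsIntegralElem z) (φ : A →+* ℂ) :
    ∃ φ' : B →+* ℂ, ∀ b : A, φ' ⟨algebraMap A K b, hA b⟩ = φ b := by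
  classical
  let j : A →+* B := (algebraMap A K).codRestrict B hA
  have hj : ∀ a, j a = ⟨algebraMap A K a, hA a⟩ := fun a => rfl
  have hjinj : Function.Injective j := by
    intro a b hab
    have := congrArg Subtype.val hab
    exact IsFractionRing.injective A K this
  let _ : Algebra A B := j.toAlgebra
  have halg : algebraMap A B = j := rfl
  haveI hint : Algebra.IsIntegral A B := by
    refine ⟨fun z => ?_⟩
    obtain ⟨p, hp, hp0⟩ := hB z.1 z.2
    refine ⟨p, hp, ?_⟩
    apply Subtype.coe_injective
    have h1 : B.subtype (eval₂ (algebraMap A B) z p) = eval₂ (B.subtype.comp (algebraMap A B)) (B.subtype z) p :=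
      Polynomial.hom_eval₂ p (algebraMap A B) B.subtype z
    have h2 : B.subtype.comp (algebraMap A B) = algebraMap A K := by
      ext a; rfl
    rw [h2] at h1
    exact h1.trans hp0
  let P : Ideal A := RingHom.ker φ
  haveI hP : P.IsPrime := RingHom.ker_isPrime φ
  have hcomap : (⊥ : Ideal B).comap (algebraMap A B) ≤ P := by
    intro a ha
    have : j a = 0 := ha
    have h0 : a = 0 := hjinj (by rw [this, map_zero])
    rw [h0]; exact P.zero_mem
  obtain ⟨Q, -, hQ, hQP⟩ := Ideal.exists_ideal_over_prime_of_isIntegral P (⊥ : Ideal B) hcomap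
  haveI := hQ
  haveI hover : Q.LiesOver P := ⟨hQP.symm⟩
  haveI hintq : Algebra.IsIntegral (A ⧸ P) (B ⧸ Q) := by infer_instance
  let f : (A ⧸ P) →+* ℂ := RingHom.kerLift φ
  have hf : Function.Injective f := RingHom.kerLift_injective φ
  letI : Algebra (A ⧸ P) ℂ := f.toAlgebra
  haveI : FaithfulSMul (A ⧸ P) ℂ := (faithfulSMul_iff_algebraMap_injective _ _).2 hf
  haveI : FaithfulSMul (A ⧸ P) (B ⧸ Q) := by
    rw [faithfulSMul_iff_algebraMap_injective, injective_iff_map_eq_zero]
    intro x hx
    obtain ⟨a, rfl⟩ := Ideal.Quotient.mk_surjective x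
    have h1 : Ideal.Quotient.mk Q (j a) = 0 := hx
    rw [Ideal.Quotient.eq_zero_iff_mem] at h1 ⊢
    have h2 : a ∈ Q.comap (algebraMap A B) := h1
    rw [hQP] at h2
    exact h2
  haveI hTF : Module.IsTorsionFree (A ⧸ P) (B ⧸ Q) := .trans_faithfulSMul (A ⧸ P) (B ⧸ Q) (B ⧸ Q)
  haveI halg' : Algebra.IsAlgebraic (A ⧸ P) (B ⧸ Q) := Algebra.IsIntegral.isAlgebraic
  let g : (B ⧸ Q) →ₐ[A ⧸ P] ℂ := IsAlgClosed.lift
  refine ⟨g.toRingHom.comp (Ideal.Quotient.mk Q), fun b => ?_⟩
  have h1 : (Ideal.Quotient.mk Q ⟨algebraMap A K b, hA b⟩) = algebraMap (A ⧸ P) (B ⧸ Q) (Ideal.Quotient.mk P b) := rfl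
  have h2 : g (algebraMap (A ⧸ P) (B ⧸ Q) (Ideal.Quotient.mk P b)) = algebraMap (A ⧸ P) ℂ (Ideal.Quotient.mk P b) :=
    g.commutes _
  have h3 : algebraMap (A ⧸ P) ℂ (Ideal.Quotient.mk P b) = φ b := RingHom.kerLift_mk φ b
  exact (congrArg g h1).trans (h2.trans h3)

theorem exists_val (K : Type) [Field K] (B : Subring K) [IsDedekindDomain B] [IsFractionRing B K]
    (φ : B →+* ℂ) (b : B) (hb : b ≠ 0) (hφ : φ b = 0) :
    ∃ (O : ValuationSubring K) (ρ : O →+* ℂ), IsDiscreteValuationRing O ∧
      (∀ z : B, ∃ h : (z : K) ∈ O, ρ ⟨z, h⟩ = φ z) ∧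
      ∀ z : O, ρ z = 0 ↔ O.valuation (z : K) < 1 := by
  classical
  let P : Ideal B := RingHom.ker φ
  haveI hP : P.IsPrime := RingHom.ker_isPrime φ
  have hPne : P ≠ ⊥ := by
    intro h
    have : b ∈ P := hφ
    rw [h] at this
    exact hb this
  have hle : P.primeCompl ≤ nonZeroDivisors B := P.primeCompl_le_nonZeroDivisors
  let R : Subalgebra B K := Localization.subalgebra.ofField K P.primeCompl hle
  haveI hloc : IsLocalization P.primeCompl R := Localization.subalgebra.isLocalization_ofField K P.primeCompl hle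
  haveI hfrac : IsFractionRing R K := Localization.subalgebra.isFractionRing_ofField K P.primeCompl hle
  haveI hloc' : IsLocalization.AtPrime R P := hloc
  haveI hdvr : IsDiscreteValuationRing R :=
    IsLocalization.AtPrime.isDiscreteValuationRing_of_dedekind_domain B hPne R
  have hor : ∀ x : K, x ∈ R ∨ x⁻¹ ∈ R := by
    intro x
    rcases ValuationRing.isInteger_or_isInteger R x with h | h
    · left
      obtain ⟨r, hr⟩ := h
      rw [← hr]; exact r.2
    · right
      obtain ⟨r, hr⟩ := h
      rw [← hr]; exact r.2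
  let O : ValuationSubring K := { R.toSubring with mem_or_inv_mem' := hor }
  have hunit : ∀ y : P.primeCompl, IsUnit (φ y) := by
    intro y
    rw [isUnit_iff_ne_zero]
    exact fun h => y.2 h
  let ρ : O →+* ℂ := (IsLocalization.lift (M := P.primeCompl) (S := R) hunit : R →+* ℂ)
  have hρ : ∀ z : B, ρ (⟨(z : K), R.algebraMap_mem z⟩ : O) = φ z := by
    intro z
    exact IsLocalization.lift_eq (M := P.primeCompl) (S := R) hunit z
  refine ⟨O, ρ, hdvr, fun z => ⟨R.algebraMap_mem z, hρ z⟩, fun z => ?_⟩
  rw [← ValuationSubring.valuation_lt_one_iff O z, IsLocalRing.mem_maximalIdeal, mem_nonunits_iff]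
  constructor
  · intro h hu
    exact (hu.map ρ).ne_zero h
  · intro h
    by_contra hne
    apply h
    obtain ⟨⟨x, y⟩, hxy⟩ := IsLocalization.surj (M := P.primeCompl) (S := R) (z : R)
    have h1 : ρ z * φ y = φ x := by
      have := congrArg (IsLocalization.lift (M := P.primeCompl) (S := R) hunit : R →+* ℂ) hxy
      rw [map_mul, IsLocalization.lift_eq, IsLocalization.lift_eq] at this
      exact this
    have hx : φ x ≠ 0 := by
      rw [← h1]
      exact mul_ne_zero hne (hunit y).ne_zero
    have hx' : x ∈ P.primeCompl := fun h => hx h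
    have hux : IsUnit (algebraMap B R x) := IsLocalization.map_units (M := P.primeCompl) R ⟨x, hx'⟩
    rw [← hxy] at hux
    exact isUnit_of_mul_isUnit_left hux

end Pool.Agent.ISI
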