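import Mathlib
import Pool.Agent.ISI.Nor
import Pool.Agent.ISI.Ptsa
import Pool.Agent.ISI.Ptsb

/-! ISI-Pts (done by helper69): places over the points of the curve. -/

namespace Pool.Agent.ISI

open Pool.Agent.Helper11 Polynomial

variable {N : ℕ} {α : Fin N → Fin 2 → ℤ} {β : Fin N → ℤ} {c : ℤ}

theorem exists_place (hG : Good α β c) (K : Type) [Field K]
    [Algebra (HypRingQ (n := 1) α β c) K] [IsFractionRing (HypRingQ (n := 1) α β c) K]
    (φ : HypRingQ (n := 1) α β c →+* ℂ) {b : HypRingQ (n := 1) α β c} (hb : b ≠ 0)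
    (hφ : φ b = 0) :
    ∃ (O : ValuationSubring K) (ρ : O →+* ℂ), IsDiscreteValuationRing O ∧
      (∀ f : HypRingQ (n := 1) α β c, ∃ h : algebraMap _ K f ∈ O, ρ ⟨algebraMap _ K f, h⟩ = φ f) ∧
      ∀ z : O, ρ z = 0 ↔ O.valuation (z : K) < 1 := by
  have hD : IsDomain (HypRingQ (n := 1) α β c) := isDomain_hypRingQ hG.hrk hG.hgp hG.hN hG.hc
  obtain ⟨ψ, hψ, hf⟩ := noether hG
  obtain ⟨B, hB1, hB2, hA, hB⟩ := exists_dedekind _ ψ hψ hf K
  obtain ⟨φ', hφ'⟩ := exists_ext _ K B hA hB φ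
  obtain ⟨O, ρ, h1, h2, h3⟩ := exists_val K B φ' ⟨algebraMap _ K b, hA b⟩ (by
    intro h
    have h4 : algebraMap (HypRingQ (n := 1) α β c) K b = 0 := congrArg Subtype.val h
    exact hb ((map_eq_zero_iff _ (IsFractionRing.injective _ K)).1 h4)) (by rw [hφ', hφ])
  refine ⟨O, ρ, h1, fun f => ?_, h3⟩
  obtain ⟨h4, h5⟩ := h2 ⟨algebraMap _ K f, hA f⟩
  exact ⟨h4, by rw [← hφ' f, ← h5]⟩

end Pool.Agent.ISI
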