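import Mathlib
import Pool.Agent.ISI.Base

/-! MODULE ISI-Dsj (points with two integral affine coordinates do not lie on the curve).

PROOF. Put `η = φ (affFun a e)`, `η' = φ (affFun a' e')`, `X = φ (qmk (X 0))`, `Y = φ (qmk (X 1))`,
`l, l'` the leading coefficients of `p, p'` (non zero, absolute value ≤ Λ), `D₀ = a 0 a' 1 - a 1 a' 0`,
`D = D₀ l l' ≠ 0`. `l η` and `l' η'` are algebraic integers
(`IsIntegral ℤ`, `isIntegral_leadingCoeff_smul`). By `map_affFun`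
`η = a 0 X + a 1 Y + e`, `η' = a' 0 X + a' 1 Y + e'`; by Cramer
`D₀ X = a' 1 (η - e) - a 1 (η' - e')`, `D₀ Y = a 0 (η' - e') - a' 0 (η - e)`; so `D X`, `D Y` are
algebraic integers, and so is `D φ(L_j) = D (α j 0 X + α j 1 Y + β j)` for each `j`. By `hom_rel`
(Base.lean) `c ∏ φ(L_j) = 1`, so the product of the `D φ(L_j)` is `D^N / c`: a rational number
which is an algebraic integer, hence an integer (`IsIntegrallyClosed.isIntegral_iff` for ℤ in ℚ, or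
`IsIntegral` of `((D^N/c : ℚ) : ℂ)` descends to ℚ by injectivity, `isIntegral_algebraMap_iff`), so
`c ∣ D^N`, `D^N ≠ 0`, `|c| ≤ |D|^N ≤ (2 M² Λ²)^N`. But `(2 M² Λ²)^N < (10 M Λ)^(2N) ≤ (10 M Λ)^(10 N³) ≤ |c|`
(`N ≥ 1`, `hB.hc`). -/

namespace Pool.Agent.ISI

open Pool.Agent.Helper11 Polynomial

variable {N : ℕ} {α : Fin N → Fin 2 → ℤ} {β : Fin N → ℤ} {c : ℤ}

private lemma rat_of_integral {q : ℚ} (h : IsIntegral ℤ ((q : ℚ) : ℂ)) : ∃ z : ℤ, (z : ℚ) = q := by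
  have h1 : IsIntegral ℤ (algebraMap ℚ ℂ q) := by
    have : algebraMap ℚ ℂ q = (q : ℂ) := rfl
    rw [this]; exact h
  have h2 : IsIntegral ℤ q :=
    (isIntegral_algebraMap_iff (algebraMap ℚ ℂ).injective).1 h1
  obtain ⟨z, hz⟩ := IsIntegrallyClosed.isIntegral_iff.1 h2
  exact ⟨z, by rw [← hz]; rfl⟩

private lemma int_int (k : ℤ) : IsIntegral ℤ ((k : ℤ) : ℂ) := by
  have := isIntegral_algebraMap (R := ℤ) (A := ℂ) (x := k)
  exact this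

private lemma bound_D {M Λ : ℕ} {a0 a1 b0 b1 l l' : ℤ} (ha0 : |a0| ≤ M) (ha1 : |a1| ≤ M)
    (hb0 : |b0| ≤ M) (hb1 : |b1| ≤ M) (hl : |l| ≤ Λ) (hl' : |l'| ≤ Λ) :
    |(a0 * b1 - a1 * b0) * l * l'| ≤ 2 * (M : ℤ) ^ 2 * (Λ : ℤ) ^ 2 := by
  rw [abs_mul, abs_mul]
  have h1 : |a0 * b1 - a1 * b0| ≤ 2 * (M : ℤ) ^ 2 := by
    have h2 : |a0 * b1| ≤ (M : ℤ) * M := by
      rw [abs_mul]; exact mul_le_mul ha0 hb1 (abs_nonneg _) (by positivity)
    have h3 : |a1 * b0| ≤ (M : ℤ) * M := by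
      rw [abs_mul]; exact mul_le_mul ha1 hb0 (abs_nonneg _) (by positivity)
    have h4 := abs_sub (a0 * b1) (a1 * b0)
    nlinarith
  have h5 : |a0 * b1 - a1 * b0| * |l| ≤ 2 * (M : ℤ) ^ 2 * Λ :=
    mul_le_mul h1 hl (abs_nonneg _) (by positivity)
  have h6 : |a0 * b1 - a1 * b0| * |l| * |l'| ≤ 2 * (M : ℤ) ^ 2 * Λ * Λ :=
    mul_le_mul h5 hl' (abs_nonneg _) (by positivity)
  calc _ ≤ 2 * (M : ℤ) ^ 2 * Λ * Λ := h6
    _ = _ := by ring

theorem disjoint_pts (hG : Good α β c) {M Λ : ℕ} (hB : Bd α β c M Λ) {a a' : Fin 2 → ℤ}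
    {e e' : ℤ} (hF : Frm M a e) (hF' : Frm M a' e') (hd : a 0 * a' 1 - a 1 * a' 0 ≠ 0)
    (φ : HypRingQ (n := 1) α β c →+* ℂ) {p p' : ℤ[X]} (hp : p ≠ 0) (hp' : p' ≠ 0)
    (hpl : p.leadingCoeff.natAbs ≤ Λ) (hpl' : p'.leadingCoeff.natAbs ≤ Λ)
    (h : aeval (φ (affFun α β c a e)) p = 0) (h' : aeval (φ (affFun α β c a' e')) p' = 0) :
    False := by
  obtain ⟨η, hη⟩ : ∃ η, η = φ (affFun α β c a e) := ⟨_, rfl⟩
  obtain ⟨η', hη'⟩ : ∃ η', η' = φ (affFun α β c a' e') := ⟨_, rfl⟩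
  obtain ⟨X, hX⟩ : ∃ X, X = φ (qmk α β c (MvPolynomial.X 0)) := ⟨_, rfl⟩
  obtain ⟨Y, hY⟩ : ∃ Y, Y = φ (qmk α β c (MvPolynomial.X 1)) := ⟨_, rfl⟩
  rw [← hη] at h
  rw [← hη'] at h'
  have e1 : η = (a 0 : ℂ) * X + (a 1 : ℂ) * Y + (e : ℂ) := by
    rw [hη, map_affFun, hX, hY]
    unfold av
    simp only [Matrix.cons_val_zero, Matrix.cons_val_one]
  have e2 : η' = (a' 0 : ℂ) * X + (a' 1 : ℂ) * Y + (e' : ℂ) := by
    rw [hη', map_affFun, hX, hY]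
    unfold av
    simp only [Matrix.cons_val_zero, Matrix.cons_val_one]
  have i1 : IsIntegral ℤ ((p.leadingCoeff : ℂ) * η) := by
    have := isIntegral_leadingCoeff_smul p η h
    rwa [zsmul_eq_mul] at this
  have i2 : IsIntegral ℤ ((p'.leadingCoeff : ℂ) * η') := by
    have := isIntegral_leadingCoeff_smul p' η' h'
    rwa [zsmul_eq_mul] at this
  have hl : p.leadingCoeff ≠ 0 := leadingCoeff_ne_zero.2 hp
  have hl' : p'.leadingCoeff ≠ 0 := leadingCoeff_ne_zero.2 hp'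
  have hlb : |p.leadingCoeff| ≤ (Λ : ℤ) := by
    rw [Int.abs_eq_natAbs]; exact_mod_cast hpl
  have hlb' : |p'.leadingCoeff| ≤ (Λ : ℤ) := by
    rw [Int.abs_eq_natAbs]; exact_mod_cast hpl'
  generalize p.leadingCoeff = l at *
  generalize p'.leadingCoeff = l' at *
  obtain ⟨D, hD⟩ : ∃ D : ℤ, D = (a 0 * a' 1 - a 1 * a' 0) * l * l' := ⟨_, rfl⟩
  have hD0 : D ≠ 0 := by
    rw [hD]; exact mul_ne_zero (mul_ne_zero hd hl) hl'
  have jX : IsIntegral ℤ ((D : ℂ) * X) := by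
    have : (D : ℂ) * X = (a' 1 : ℂ) * (l' : ℂ) * ((l : ℂ) * η) - (a 1 : ℂ) * (l : ℂ) * ((l' : ℂ) * η')
        + ((- a' 1 * l * l' * e + a 1 * l * l' * e' : ℤ) : ℂ) := by
      rw [hD, e1, e2]; push_cast; ring
    rw [this]
    exact (((int_int _).mul (int_int _)).mul i1).sub (((int_int _).mul (int_int _)).mul i2)
      |>.add (int_int _)
  have jY : IsIntegral ℤ ((D : ℂ) * Y) := by
    have : (D : ℂ) * Y = (a 0 : ℂ) * (l : ℂ) * ((l' : ℂ) * η') - (a' 0 : ℂ) * (l' : ℂ) * ((l : ℂ) * η)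
        + ((- a 0 * l * l' * e' + a' 0 * l * l' * e : ℤ) : ℂ) := by
      rw [hD, e1, e2]; push_cast; ring
    rw [this]
    exact (((int_int _).mul (int_int _)).mul i2).sub (((int_int _).mul (int_int _)).mul i1)
      |>.add (int_int _)
  have jL : ∀ j : Fin N, IsIntegral ℤ ((D : ℂ) * φ (affFun α β c (α j) (β j))) := by
    intro j
    have : (D : ℂ) * φ (affFun α β c (α j) (β j)) = (α j 0 : ℂ) * ((D : ℂ) * X)
        + (α j 1 : ℂ) * ((D : ℂ) * Y) + ((D * β j : ℤ) : ℂ) := by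
      rw [map_affFun, ← hX, ← hY]
      unfold av
      simp only [Matrix.cons_val_zero, Matrix.cons_val_one]
      push_cast; ring
    rw [this]
    exact (((int_int _).mul jX).add ((int_int _).mul jY)).add (int_int _)
  have hrel := hom_rel φ
  have hprod : IsIntegral ℤ (∏ j : Fin N, ((D : ℂ) * φ (affFun α β c (α j) (β j)))) :=
    IsIntegral.prod _ (fun j _ => jL j)
  rw [Finset.prod_mul_distrib, Finset.prod_const, Finset.card_univ, Fintype.card_fin] at hprod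
  have hc : (c : ℂ) ≠ 0 := by exact_mod_cast hG.hc
  have hcq : (c : ℚ) ≠ 0 := by exact_mod_cast hG.hc
  have hval : (D : ℂ) ^ N * ∏ j : Fin N, φ (affFun α β c (α j) (β j))
      = (((D : ℚ) ^ N / (c : ℚ) : ℚ) : ℂ) := by
    push_cast
    rw [eq_div_iff hc, mul_assoc, mul_comm _ (c : ℂ), hrel, mul_one]
  rw [hval] at hprod
  obtain ⟨z, hz⟩ := rat_of_integral hprod
  rw [eq_div_iff hcq] at hz
  have hz' : z * c = D ^ N := by exact_mod_cast hz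
  have hdvd : c ∣ D ^ N := ⟨z, by rw [← hz']; ring⟩
  have hle : |c| ≤ |D ^ N| := by
    have hne : |D ^ N| ≠ 0 := abs_ne_zero.2 (pow_ne_zero N hD0)
    have hpos : 0 < |D ^ N| := abs_pos.2 (pow_ne_zero N hD0)
    exact Int.le_of_dvd hpos ((abs_dvd_abs c (D ^ N)).2 hdvd)
  have hDb : |D| ≤ 2 * (M : ℤ) ^ 2 * (Λ : ℤ) ^ 2 := by
    rw [hD]
    exact bound_D (hF.haM 0) (hF.haM 1) (hF'.haM 0) (hF'.haM 1) hlb hlb'
  have hM : (1 : ℤ) ≤ M := by exact_mod_cast hB.hM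
  have hΛ : (1 : ℤ) ≤ Λ := by exact_mod_cast hB.hΛ
  have hMΛ : (1 : ℤ) ≤ 10 * M * Λ := by nlinarith
  have hN := hG.hN
  have s1 : |D ^ N| ≤ (2 * (M : ℤ) ^ 2 * (Λ : ℤ) ^ 2) ^ N := by
    rw [abs_pow]; exact pow_le_pow_left₀ (abs_nonneg _) hDb N
  have s2 : (2 * (M : ℤ) ^ 2 * (Λ : ℤ) ^ 2) ^ N < ((10 * (M : ℤ) * Λ) ^ 2) ^ N := by
    refine pow_lt_pow_left₀ ?_ (by positivity) hN.ne'
    have : (0 : ℤ) < (M : ℤ) ^ 2 * (Λ : ℤ) ^ 2 := by positivity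
    nlinarith
  have s3 : ((10 * (M : ℤ) * Λ) ^ 2) ^ N ≤ (10 * (M : ℤ) * Λ) ^ (10 * N ^ 3) := by
    rw [← pow_mul]
    refine pow_le_pow_right₀ hMΛ ?_
    have : N ≤ N ^ 3 := Nat.le_self_pow (by norm_num) N
    omega
  have := hB.hc
  exact absurd (lt_of_le_of_lt (hle.trans s1) (s2.trans_le (s3.trans this))) (lt_irrefl _)

end Pool.Agent.ISI
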