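import Mathlib
import Pool.Agent.ISI.Base
import Pool.Agent.ISI.ExpA

/-! MODULE ISI-Unr (unramified symbols at a place over a point of the curve).

`O` contains the ring `A` of the curve, `ρ` extends `φ : A → ℂ` (`hO`) and `ρ z = 0` iff `z` is in the
maximal ideal.

PROOF. `UA_unit`: `u = algebraMap f`, `f` a unit of `A`; `u, u⁻¹ ∈ O` (`hO f`, `hO f⁻¹`), so the valuation
is 1 (`ValuationSubring.valuation_le_one_iff`, or `ρ u = φ f ≠ 0` and `hρ`).
`US_unr`: `US` is the range of `KMQ.map`; by `mem_span_symM` (CFinal.lean) and `KMQ.map_symM` it is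
spanned by symbols of elements of `UA`.
`pz_unit`: `(pz x p : K) = aeval x p = algebraMap (p evaluated at affFun in A)`
(`pz_val`; `x = algebraMap (affFun ..)`, `aeval_algebraMap_apply` for `ℤ`-algebras), in `O` with
`ρ = aeval (φ (affFun ..)) p ≠ 0` (`Polynomial.aeval` commutes with ring homs:
`Polynomial.hom_eval₂`, or `map_aeval`-like for ℤ), so it is a unit of `O`.
`LG_unr`: every element of `GP` is in `O.unitGroup` (closure induction `Subgroup.closure_le`:
`cst_mem`, `LK_mem` and `UA_unit`; `pz_unit`), and `sy f g ∈ unrM O 2` for `f, g ∈ O.unitGroup`. -/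

namespace Pool.Agent.ISI

open Pool.Agent.Helper11 Polynomial

variable {N : ℕ} {α : Fin N → Fin 2 → ℤ} {β : Fin N → ℤ} {c : ℤ} {a : Fin 2 → ℤ} {e : ℤ}
variable {K : Type} [Field K] [Algebra (HypRingQ (n := 1) α β c) K]
  {O : ValuationSubring K} {ρ : O →+* ℂ} {φ : HypRingQ (n := 1) α β c →+* ℂ}

theorem UA_unit
    (hO : ∀ f : HypRingQ (n := 1) α β c, ∃ h : algebraMap _ K f ∈ O, ρ ⟨algebraMap _ K f, h⟩ = φ f)
    {u : Kˣ} (hu : u ∈ UA α β c K) : u ∈ O.unitGroup := by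
  obtain ⟨w, rfl⟩ := hu
  have h1 : O.valuation (algebraMap (HypRingQ (n := 1) α β c) K (w : HypRingQ (n := 1) α β c)) ≤ 1 :=
    (O.valuation_le_one_iff _).mpr (hO _).1
  have h2 : O.valuation (algebraMap (HypRingQ (n := 1) α β c) K
      ((w⁻¹ : (HypRingQ (n := 1) α β c)ˣ) : HypRingQ (n := 1) α β c)) ≤ 1 :=
    (O.valuation_le_one_iff _).mpr (hO _).1
  have h3 : O.valuation (algebraMap (HypRingQ (n := 1) α β c) K (w : HypRingQ (n := 1) α β c)) *
      O.valuation (algebraMap (HypRingQ (n := 1) α β c) K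
      ((w⁻¹ : (HypRingQ (n := 1) α β c)ˣ) : HypRingQ (n := 1) α β c)) = 1 := by
    rw [← map_mul, ← map_mul, Units.mul_inv, map_one, map_one]
  rw [ValuationSubring.mem_unitGroup_iff]
  change O.valuation (algebraMap (HypRingQ (n := 1) α β c) K (w : HypRingQ (n := 1) α β c)) = 1
  refine le_antisymm h1 ?_
  calc (1 : O.ValueGroup) = _ := h3.symm
    _ ≤ O.valuation (algebraMap (HypRingQ (n := 1) α β c) K (w : HypRingQ (n := 1) α β c)) * 1 :=
      mul_le_mul_right h2 _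
    _ = _ := mul_one _

theorem US_unr
    (hO : ∀ f : HypRingQ (n := 1) α β c, ∃ h : algebraMap _ K f ∈ O, ρ ⟨algebraMap _ K f, h⟩ = φ f)
    {z : KMQ K 2} (hz : z ∈ US α β c K) : z ∈ unrM O 2 := by
  obtain ⟨w, rfl⟩ := hz
  have hw := mem_span_symM w
  induction hw using Submodule.span_induction with
  | mem w hw =>
    obtain ⟨f, rfl⟩ := hw
    rw [KMQ.map_symM]
    exact Submodule.subset_span ⟨_, fun i => UA_unit hO ⟨f i, rfl⟩, rfl⟩
  | zero => rw [map_zero]; exact Submodule.zero_mem _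
  | add x y _ _ h1 h2 => rw [map_add]; exact Submodule.add_mem _ h1 h2
  | smul r x _ h1 => rw [map_smul]; exact Submodule.smul_mem _ _ h1

variable [CharZero K]

theorem pz_unit
    (hO : ∀ f : HypRingQ (n := 1) α β c, ∃ h : algebraMap _ K f ∈ O, ρ ⟨algebraMap _ K f, h⟩ = φ f)
    (hρ : ∀ z : O, ρ z = 0 ↔ O.valuation (z : K) < 1)
    (hx : Transcendental ℚ (xK α β c K a e)) {p : ℤ[X]} (hp : p ≠ 0)
    (h : aeval (φ (affFun α β c a e)) p ≠ 0) : pz (xK α β c K a e) p ∈ O.unitGroup := by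
  obtain ⟨hxO, hρx⟩ := hO (affFun α β c a e)
  have h1 : (pz (xK α β c K a e) p : K) =
      O.subtype (eval₂ (Int.castRingHom O) ⟨algebraMap _ K (affFun α β c a e), hxO⟩ p) := by
    rw [pz_val hx hp, hom_eval₂, aeval_def, Subsingleton.elim (algebraMap ℤ K)
      (O.subtype.comp (Int.castRingHom O))]
    rfl
  have h2 : ρ (eval₂ (Int.castRingHom O) ⟨algebraMap _ K (affFun α β c a e), hxO⟩ p) ≠ 0 := by
    rw [hom_eval₂, hρx, Subsingleton.elim (ρ.comp (Int.castRingHom O)) (algebraMap ℤ ℂ)]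
    exact h
  rw [ValuationSubring.mem_unitGroup_iff, h1]
  rw [Ne, hρ, not_lt] at h2
  exact le_antisymm (O.valuation_le_one _) h2

private theorem rat_mem'
    (hO : ∀ f : HypRingQ (n := 1) α β c, ∃ h : algebraMap _ K f ∈ O, ρ ⟨algebraMap _ K f, h⟩ = φ f)
    (r : ℚ) : (r : K) ∈ O := by
  by_cases hr : r = 0
  · rw [hr, Rat.cast_zero]
    exact O.zero_mem
  · have h1 := UA_unit hO (cst_mem (α := α) (β := β) (c := c) (Units.mk0 r hr))
    rw [ValuationSubring.mem_unitGroup_iff, cst_val] at h1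
    rw [← ValuationSubring.valuation_le_one_iff]
    exact le_of_eq h1

/-- the rational numbers in `O` -/
private noncomputable def ratHom
    (hO : ∀ f : HypRingQ (n := 1) α β c, ∃ h : algebraMap _ K f ∈ O, ρ ⟨algebraMap _ K f, h⟩ = φ f) :
    ℚ →+* O where
  toFun r := ⟨(r : K), rat_mem' hO r⟩
  map_one' := Subtype.ext Rat.cast_one
  map_mul' x y := Subtype.ext (Rat.cast_mul x y)
  map_zero' := Subtype.ext Rat.cast_zero
  map_add' x y := Subtype.ext (Rat.cast_add x y)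

/-- the value of `π` is in the maximal ideal if `π (φ x) = 0` -/
theorem pz_lt
    (hO : ∀ f : HypRingQ (n := 1) α β c, ∃ h : algebraMap _ K f ∈ O, ρ ⟨algebraMap _ K f, h⟩ = φ f)
    (hρ : ∀ z : O, ρ z = 0 ↔ O.valuation (z : K) < 1) {p : ℚ[X]}
    (h : aeval (φ (affFun α β c a e)) p = 0) :
    O.valuation (aeval (xK α β c K a e) p) < 1 := by
  obtain ⟨hxO, hρx⟩ := hO (affFun α β c a e)
  have h1 : aeval (xK α β c K a e) p =
      O.subtype (eval₂ (ratHom hO) ⟨algebraMap _ K (affFun α β c a e), hxO⟩ p) := by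
    rw [hom_eval₂, aeval_def, Subsingleton.elim (algebraMap ℚ K) (O.subtype.comp (ratHom hO))]
    rfl
  rw [h1]
  refine (hρ _).mp ?_
  rw [hom_eval₂, hρx, Subsingleton.elim (ρ.comp (ratHom hO)) (algebraMap ℚ ℂ)]
  exact h

theorem LG_unr
    (hO : ∀ f : HypRingQ (n := 1) α β c, ∃ h : algebraMap _ K f ∈ O, ρ ⟨algebraMap _ K f, h⟩ = φ f)
    (hρ : ∀ z : O, ρ z = 0 ↔ O.valuation (z : K) < 1)
    (hx : Transcendental ℚ (xK α β c K a e)) {Λ : ℕ}
    (h : ∀ p : ℤ[X], p ≠ 0 → p.leadingCoeff.natAbs ≤ Λ → aeval (φ (affFun α β c a e)) p ≠ 0)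
    {z : KMQ K 2} (hz : z ∈ LG α β c K Λ a e) : z ∈ unrM O 2 := by
  have hG : GP α β c K Λ a e ≤ O.unitGroup := by
    unfold GP
    rw [Subgroup.closure_le]
    rintro u ((⟨q, rfl⟩ | ⟨j, -, rfl⟩) | ⟨p, hp, hpΛ, rfl⟩)
    · exact UA_unit hO (cst_mem (α := α) (β := β) (c := c) q)
    · exact UA_unit hO (LK_mem j)
    · exact pz_unit hO hρ hx hp (h p hp hpΛ)
  unfold LG at hz
  induction hz using Submodule.span_induction with
  | mem w hw =>
    obtain ⟨f, g, hf, hg, rfl⟩ := hw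
    refine Submodule.subset_span ⟨![f, g], fun i => ?_, rfl⟩
    fin_cases i
    · exact hG hf
    · exact hG hg
  | zero => exact Submodule.zero_mem _
  | add x y _ _ h1 h2 => exact Submodule.add_mem _ h1 h2
  | smul r x _ h1 => exact Submodule.smul_mem _ _ h1

/-- rational constants are in `O` -/
theorem rat_mem
    (hO : ∀ f : HypRingQ (n := 1) α β c, ∃ h : algebraMap _ K f ∈ O, ρ ⟨algebraMap _ K f, h⟩ = φ f)
    (r : ℚ) : (r : K) ∈ O := rat_mem' hO r

end Pool.Agent.ISI
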