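import Mathlib
import Pool.Agent.ISI.Unr
import Pool.Agent.ISI.Dsj
import Pool.Agent.ISI.ExpA
import Pool.Agent.ISI.TamB

/-! MODULE ISI-StpA (the tame symbol of an integral combination at one place).

PROOF. `z = ω + ∑ i', (γ i' + ∑ π' ∈ P i', {x_{i'}: π', w}) ∈ unrM O 2` (`integralM` is the infimum over the
DVRs `O`, `Submodule.mem_iInf`), so `τ z = 0`. Terms (`hz0 : ∀ z ∈ unrM O 2, τ z = 0`):
* `ω ∈ unrM O 2` (`US_unr`).
* `i' ≠ i`: for every `p ≠ 0` with `|lc p| ≤ Λ` we have `aeval (φ x_{i'}) p ≠ 0` by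
`disjoint_pts` (for `π` and `p`; `π` has `|lc| ≤ Λ` by `Irr`). So `γ i' ∈ unrM O 2` (`LG_unr`) and
`pz x_{i'} π' ∈ O.unitGroup` (`pz_unit`), `uK w ∈ O.unitGroup` (`UA_unit`, `uK_mem`): the symbol is in
`unrM O 2` (it is `symM ![_, _]`).
* `i' = i`, `π' ≠ π`: `aeval (φ x_i) π' ≠ 0` by `coprime_roots`, the same argument.
* `i' = i`, `π' = π`: `hτ` gives `ord (pz x_i π) * log ‖ρ (uK w)‖` and `ρ (uK w) = φ w` by `hO`. -/

namespace Pool.Agent.ISI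

open Pool.Agent.Helper11 Polynomial

variable {N : ℕ} {α : Fin N → Fin 2 → ℤ} {β : Fin N → ℤ} {c : ℤ}

theorem tame_value (hG : Good α β c) {M Λ : ℕ} (hB : Bd α β c M Λ) {t : ℕ}
    {a : Fin t → Fin 2 → ℤ} {e : Fin t → ℤ} (hF : ∀ i, Frm M (a i) (e i))
    (hd : ∀ i j, i ≠ j → a i 0 * a j 1 - a i 1 * a j 0 ≠ 0)
    {K : Type} [Field K] [CharZero K] [Algebra (HypRingQ (n := 1) α β c) K]
    [IsFractionRing (HypRingQ (n := 1) α β c) K]
    (hx : ∀ i, Transcendental ℚ (xK α β c K (a i) (e i)))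
    {ω : KMQ K 2} (hω : ω ∈ US α β c K) {γ : Fin t → KMQ K 2}
    (hγ : ∀ i, γ i ∈ LG α β c K Λ (a i) (e i)) {P : Fin t → Finset ℤ[X]}
    (hP : ∀ i, ∀ π ∈ P i, Irr Λ π) {w : Fin t → ℤ[X] → (HypRingQ (n := 1) α β c)ˣ}
    (hint : ω + ∑ i, (γ i + ∑ π ∈ P i,
      sy (pz (xK α β c K (a i) (e i)) π) (uK α β c K (w i π))) ∈ integralM K 2)
    {i : Fin t} {π : ℤ[X]} (hπ : π ∈ P i)
    {O : ValuationSubring K} (hO1 : IsDiscreteValuationRing O) {ρ : O →+* ℂ}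
    {φ : HypRingQ (n := 1) α β c →+* ℂ}
    (hO : ∀ f : HypRingQ (n := 1) α β c, ∃ h : algebraMap _ K f ∈ O, ρ ⟨algebraMap _ K f, h⟩ = φ f)
    (hρ : ∀ z : O, ρ z = 0 ↔ O.valuation (z : K) < 1)
    (h0 : aeval (φ (affFun α β c (a i) (e i))) π = 0)
    {τ : KMQ K 2 →ₗ[ℚ] ℝ} {ord : Kˣ → ℤ}
    (hτ : ∀ y : Kˣ, ∀ u ∈ O.unitGroup, ∀ h : (u : K) ∈ O,
      τ (sy y u) = ord y * Real.log ‖ρ ⟨u, h⟩‖)
    (hz0 : ∀ z ∈ unrM O 2, τ z = 0) :
    τ (γ i) + ord (pz (xK α β c K (a i) (e i)) π) * Real.log ‖φ (w i π)‖ = 0 := by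
  classical
  have hlc : ∀ i', ∀ π' ∈ P i', π' ≠ 0 ∧ π'.leadingCoeff.natAbs ≤ Λ := by
    intro i' π' h
    have h1 := hP i' π' h
    refine ⟨h1.irr.ne_zero, ?_⟩
    have h2 := h1.pos
    have h3 := h1.le
    omega
  have hz : τ (ω + ∑ i, (γ i + ∑ π ∈ P i,
      sy (pz (xK α β c K (a i) (e i)) π) (uK α β c K (w i π)))) = 0 := by
    refine hz0 _ ?_
    unfold integralM at hint
    rw [Submodule.mem_iInf] at hint
    have h1 := hint O
    rw [Submodule.mem_iInf] at h1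
    exact h1 hO1
  have hsy : ∀ u v : Kˣ, u ∈ O.unitGroup → v ∈ O.unitGroup → τ (sy u v) = 0 := by
    intro u v hu hv
    refine hz0 _ (Submodule.subset_span ⟨![u, v], ?_, rfl⟩)
    intro m
    fin_cases m
    · exact hu
    · exact hv
  have hw : ∀ i' π', uK α β c K (w i' π') ∈ O.unitGroup := fun i' π' =>
    UA_unit hO (uK_mem _)
  have hne : ∀ i', i' ≠ i → ∀ p : ℤ[X], p ≠ 0 → p.leadingCoeff.natAbs ≤ Λ →
      aeval (φ (affFun α β c (a i') (e i'))) p ≠ 0 := by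
    intro i' hi p hp hl h
    exact disjoint_pts hG hB (hF i) (hF i') (hd i i' (Ne.symm hi)) φ (hlc i π hπ).1 hp
      (hlc i π hπ).2 hl h0 h
  have hterm : ∀ i', i' ≠ i → τ (γ i' + ∑ π ∈ P i',
      sy (pz (xK α β c K (a i') (e i')) π) (uK α β c K (w i' π))) = 0 := by
    intro i' hi
    rw [map_add, map_sum, hz0 _ (LG_unr hO hρ (hx i') (hne i' hi) (hγ i')), zero_add]
    refine Finset.sum_eq_zero fun π' hπ' => hsy _ _ ?_ (hw i' π')
    exact pz_unit hO hρ (hx i') (hlc i' π' hπ').1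
      (hne i' hi π' (hlc i' π' hπ').1 (hlc i' π' hπ').2)
  have hown : ∀ π' ∈ P i, π' ≠ π →
      τ (sy (pz (xK α β c K (a i) (e i)) π') (uK α β c K (w i π'))) = 0 := by
    intro π' hπ' hn
    refine hsy _ _ ?_ (hw i π')
    refine pz_unit hO hρ (hx i) (hlc i π' hπ').1 fun h => ?_
    exact coprime_roots (hP i π' hπ') (hP i π hπ) hn h h0
  obtain ⟨hmem, hval⟩ := hO (w i π : HypRingQ (n := 1) α β c)
  rw [map_add, map_sum, hz0 _ (US_unr hO hω), zero_add,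
    Finset.sum_eq_single i (fun i' _ hi => hterm i' hi)
      (fun h => absurd (Finset.mem_univ i) h), map_add, map_sum,
    Finset.sum_eq_single π hown (fun h => absurd hπ h),
    hτ (pz (xK α β c K (a i) (e i)) π) (uK α β c K (w i π)) (hw i π) hmem] at hz
  have h5 : ρ ⟨(uK α β c K (w i π) : K), hmem⟩ = φ (w i π) := hval
  rw [h5] at hz
  exact hz

end Pool.Agent.ISI
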