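import Mathlib
import Pool.Agent.ISI.StpA
import Pool.Agent.ISI.Glp
import Pool.Agent.ISI.Cmp
import Pool.Agent.ISI.Pts
import Pool.Agent.ISI.Fib

/-! ISI-StpB (helper69): the absolute value of `w` is constant on the fibres. -/

namespace Pool.Agent.ISI

open Pool.Agent.Helper11 Polynomial

variable {N : ℕ} {α : Fin N → Fin 2 → ℤ} {β : Fin N → ℤ} {c : ℤ}

theorem norm_eq (hG : Good α β c) {M Λ : ℕ} (hB : Bd α β c M Λ) {t : ℕ}
    {a : Fin t → Fin 2 → ℤ} {e : Fin t → ℤ} (hF : ∀ i, Frm M (a i) (e i))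
    (hd : ∀ i j, i ≠ j → a i 0 * a j 1 - a i 1 * a j 0 ≠ 0)
    {K : Type} [Field K] [CharZero K] [Algebra (HypRingQ (n := 1) α β c) K]
    [IsFractionRing (HypRingQ (n := 1) α β c) K]
    {ω : KMQ K 2} (hω : ω ∈ US α β c K) {γ : Fin t → KMQ K 2}
    (hγ : ∀ i, γ i ∈ LG α β c K Λ (a i) (e i)) {P : Fin t → Finset ℤ[X]}
    (hP : ∀ i, ∀ π ∈ P i, Irr Λ π) {w : Fin t → ℤ[X] → (HypRingQ (n := 1) α β c)ˣ}
    (hint : ω + ∑ i, (γ i + ∑ π ∈ P i,
      sy (pz (xK α β c K (a i) (e i)) π) (uK α β c K (w i π))) ∈ integralM K 2)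
    {i : Fin t} {π : ℤ[X]} (hπ : π ∈ P i) (φ φ' : HypRingQ (n := 1) α β c →+* ℂ)
    (h : φ (affFun α β c (a i) (e i)) = φ' (affFun α β c (a i) (e i)))
    (h0 : aeval (φ (affFun α β c (a i) (e i))) π = 0) :
    ‖φ (w i π)‖ = ‖φ' (w i π)‖ := by
  have hx : ∀ i, Transcendental ℚ (xK α β c K (a i) (e i)) := fun i => transc hG (hF i).ha K
  have hIrr := hP i π hπ
  have hπ0 : π ≠ 0 := hIrr.irr.ne_zero
  -- the element of the ring of the curve
  set b : HypRingQ (n := 1) α β c := aeval (affFun α β c (a i) (e i)) π with hb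
  have hmapb : ∀ {S : Type} [CommRing S] (f : HypRingQ (n := 1) α β c →+* S),
      f b = aeval (f (affFun α β c (a i) (e i))) π := by
    intro S _ f
    rw [hb, aeval_def, aeval_def, hom_eval₂]
    congr 1
    exact RingHom.ext_int _ _
  have hbK : algebraMap _ K b = aeval (xK α β c K (a i) (e i)) π := hmapb _
  have hb0 : b ≠ 0 := by
    intro h1
    rw [h1, map_zero] at hbK
    have h2 := (pz (xK α β c K (a i) (e i)) π).ne_zero
    rw [pz_val (hx i) hπ0, ← hbK] at h2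
    exact h2 rfl
  have hφb : φ b = 0 := (hmapb φ).trans h0
  have hφb' : φ' b = 0 := by
    rw [hmapb φ', ← h]
    exact h0
  obtain ⟨O, ρ, hO1, hO, hρ⟩ := exists_place hG K φ hb0 hφb
  obtain ⟨O', ρ', hO1', hO', hρ'⟩ := exists_place hG K φ' hb0 hφb'
  obtain ⟨τ, ord, ϖ, H, hτ, hz⟩ := exists_tameR O ρ hρ
  obtain ⟨τ', ord', ϖ', H', hτ', hz'⟩ := exists_tameR O' ρ' hρ'
  have e1 := tame_value hG hB hF hd hx hω hγ hP hint hπ hO1 hO hρ h0 hτ hz
  have e2 := tame_value hG hB hF hd hx hω hγ hP hint hπ hO1' hO' hρ' (by rw [← h]; exact h0)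
    hτ' hz'
  -- the common value
  obtain ⟨m1, m2⟩ := hO (affFun α β c (a i) (e i))
  obtain ⟨m1', m2'⟩ := hO' (affFun α β c (a i) (e i))
  have hirrQ : Irreducible (π.map (Int.castRingHom ℚ)) :=
    (IsPrimitive.Int.irreducible_iff_irreducible_map_cast
      (hIrr.irr.isPrimitive hIrr.deg.ne')).1 hIrr.irr
  have e3 := tame_compare (hx i) hρ hρ' (rat_mem hO) (rat_mem hO') m1 m1' m2
    (m2'.trans h.symm) H H' hτ hτ' (π := π.map (Int.castRingHom ℚ)) hirrQ (by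
      rw [aeval_map]
      exact h0) (LG_le_LP (hx i) (hF i).ha Λ (hγ i))
  have hpz : pq (xK α β c K (a i) (e i)) (π.map (Int.castRingHom ℚ)) =
    pz (xK α β c K (a i) (e i)) π := rfl
  rw [hpz] at e3
  -- positivity of the orders
  have hval : ∀ (O : ValuationSubring K) (ρ : O →+* ℂ) (φ : HypRingQ (n := 1) α β c →+* ℂ)
      (ord : Kˣ → ℤ) (ϖ : Kˣ), IsOrd O ϖ ord →
      (∀ f : HypRingQ (n := 1) α β c, ∃ h : algebraMap _ K f ∈ O,
        ρ ⟨algebraMap _ K f, h⟩ = φ f) →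
      (∀ z : O, ρ z = 0 ↔ O.valuation (z : K) < 1) → φ b = 0 →
      0 < ord (pz (xK α β c K (a i) (e i)) π) := by
    intro O ρ φ ord ϖ H hO hρ hφb
    rw [← H.lt_one_iff, pz_val (hx i) hπ0, ← hbK]
    obtain ⟨h1, h2⟩ := hO b
    exact (hρ ⟨_, h1⟩).1 (h2.trans hφb)
  have p1 := hval O ρ φ ord ϖ H hO hρ hφb
  have p2 := hval O' ρ' φ' ord' ϖ' H' hO' hρ' hφb'
  have p1' : (0 : ℝ) < ord (pz (xK α β c K (a i) (e i)) π) := by exact_mod_cast p1
  have p2' : (0 : ℝ) < ord' (pz (xK α β c K (a i) (e i)) π) := by exact_mod_cast p2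
  have hlog : Real.log ‖φ (w i π)‖ = Real.log ‖φ' (w i π)‖ := by
    have h3 : τ (γ i) = - (ord (pz (xK α β c K (a i) (e i)) π) * Real.log ‖φ (w i π)‖) := by
      linarith
    have h4 : τ' (γ i) = - (ord' (pz (xK α β c K (a i) (e i)) π) * Real.log ‖φ' (w i π)‖) := by
      linarith
    rw [h3, h4] at e3
    have h5 : (ord' (pz (xK α β c K (a i) (e i)) π) : ℝ) *
        ord (pz (xK α β c K (a i) (e i)) π) *
        (Real.log ‖φ (w i π)‖ - Real.log ‖φ' (w i π)‖) = 0 := by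
      linear_combination -e3
    have h6 := (mul_eq_zero.1 h5).resolve_left (mul_pos p2' p1').ne'
    linarith
  have hne : ∀ φ : HypRingQ (n := 1) α β c →+* ℂ, 0 < ‖φ (w i π)‖ := fun φ =>
    norm_pos_iff.2 ((w i π).isUnit.map φ).ne_zero
  exact Real.log_injOn_pos (hne φ) (hne φ') hlog

end Pool.Agent.ISI
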