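import Mathlib
import Pool.Agent.ISI.Unr
import Pool.Agent.ISI.Dsj
import Pool.Agent.ISI.Glp
import Pool.Agent.ISI.Fib
import Pool.Agent.ISI.MilC
import Pool.Agent.ISI.Pts

/-! MODULE ISI-StpC (an integral sum of elements of the groups `LG` consists of unit symbols).

PROOF. Fix `i`, `x = xK α β c K (a i) (e i)`, choose `m` with `a i m ≠ 0`; for `j` with
`dl α (a i) j = 0` we have `α j m ≠ 0` (`alpha_ne`). Let `S` be the set of the
`s_j = -(a i m * β j - α j m * e i) / α j m` for these `j`. Apply `milnor` to `γ i ∈ LP x`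
(`LG_le_LP`) and `S`. The hypothesis of `milnor`: let `π ∈ ℚ[X]` be monic irreducible, not of the
form `X - C s`, `s ∈ S`; let `η` be a complex root (`IsAlgClosed.exists_aeval_eq_zero`, degree ≠ 0). Then
`lam j ≠ 0` for all parallel `j`: otherwise (`lam_eq`) `η = s_j` is rational, so `π` (irreducible,
monic, with root `s_j`) is `X - C s_j`. So there is `φ` with `φ (affFun) = η` (`exists_pt`). `exists_place`
(Pts.lean) with `b` = the value of `π` at `affFun` in `A` (non zero since `x` is transcendental: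
`b = eval₂ ((qmk α β c).comp MvPolynomial.C) (affFun ..) π`, whose image in `K` is `aeval x π`,
and `φ b = aeval η π = 0`) gives `O, ρ`. `rat_mem`, `pz_lt` (Unr.lean), `x ∈ O` from `hO`.
It remains to see that `γ i ∈ unrM O 2`.
* If no `p ∈ ℤ[X]`, `p ≠ 0`, `|lc p| ≤ Λ` vanishes at `η`: `LG_unr` directly.
* If such a `p₀` vanishes at `η`: for `i' ≠ i`, `disjoint_pts` (for `p₀` and `p`) shows that the
hypothesis of `LG_unr` holds for `i'`, so `γ i' ∈ unrM O 2`; also `ω ∈ unrM O 2` (`US_unr`) and the total sum is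
in `unrM O 2` (`integralM`), so `γ i` is (`Finset.sum_erase`/`Finset.add_sum_erase`).
The conclusion of `milnor`: `γ i` is in the span of the `sy (pq x (X - C s_j)) (cst q)`, which are in
`US` by `root_mem`, `cst_mem`, `sy_mem_US`. -/

namespace Pool.Agent.ISI

open Pool.Agent.Helper11 Polynomial

variable {N : ℕ} {α : Fin N → Fin 2 → ℤ} {β : Fin N → ℤ} {c : ℤ}

theorem all_units (hG : Good α β c) {M Λ : ℕ} (hB : Bd α β c M Λ) {t : ℕ}
    {a : Fin t → Fin 2 → ℤ} {e : Fin t → ℤ} (hF : ∀ i, Frm M (a i) (e i))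
    (hd : ∀ i j, i ≠ j → a i 0 * a j 1 - a i 1 * a j 0 ≠ 0)
    {K : Type} [Field K] [CharZero K] [Algebra (HypRingQ (n := 1) α β c) K]
    [IsFractionRing (HypRingQ (n := 1) α β c) K]
    {ω : KMQ K 2} (hω : ω ∈ US α β c K) {γ : Fin t → KMQ K 2}
    (hγ : ∀ i, γ i ∈ LG α β c K Λ (a i) (e i))
    (hint : ω + ∑ i, γ i ∈ integralM K 2) (i : Fin t) : γ i ∈ US α β c K := by
  obtain ⟨m, hm⟩ : ∃ m, a i m ≠ 0 := Function.ne_iff.1 (hF i).ha
  have hx : Transcendental ℚ (xK α β c K (a i) (e i)) := transc hG (hF i).ha K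
  set S : Set ℚ := {s | ∃ j, dl α (a i) j = 0 ∧
    s = -((a i m * β j - α j m * e i : ℤ) : ℚ) / α j m} with hS
  have hspan := milnor hx S (LG_le_LP hx (hF i).ha Λ (hγ i)) (by
    intro π hmon hirr hne
    have hdeg : π.degree ≠ 0 := by
      intro h
      have h1 := Polynomial.eq_C_of_degree_eq_zero h
      have h2 : IsUnit π := by
        rw [h1]
        apply Polynomial.isUnit_C.2
        rw [isUnit_iff_ne_zero]
        intro h3
        rw [h3, C_0] at h1
        exact hirr.ne_zero h1
      exact hirr.not_isUnit h2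
    obtain ⟨η, hη⟩ := IsAlgClosed.exists_aeval_eq_zero ℂ π hdeg
    have hlam : ∀ j, dl α (a i) j = 0 → lam α β (a i) (e i) η j ≠ 0 := by
      intro j hj hl
      have hα : α j m ≠ 0 := alpha_ne hG hj hm
      have h1 := lam_eq (β := β) (e := e i) (hF i).ha η hj m
      rw [hl, mul_zero] at h1
      have hαC : ((α j m : ℤ) : ℂ) ≠ 0 := Int.cast_ne_zero.2 hα
      set s : ℚ := -((a i m * β j - α j m * e i : ℤ) : ℚ) / α j m with hs
      have h2 : η = (algebraMap ℚ ℂ) s := by
        rw [hs, map_div₀, map_neg, map_intCast, map_intCast, eq_div_iff hαC]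
        linear_combination -h1
      have h3 : π.eval s = 0 := by
        rw [h2, aeval_algebraMap_apply, map_eq_zero] at hη
        rwa [coe_aeval_eq_eval] at hη
      have h4 : X - C s ∣ π := dvd_iff_isRoot.2 h3
      have h5 : Associated (X - C s) π :=
        (irreducible_X_sub_C s).associated_of_dvd hirr h4
      have h6 : X - C s = π := eq_of_monic_of_associated (monic_X_sub_C s) hmon h5
      exact hne s ⟨j, hj, hs⟩ h6.symm
    obtain ⟨φ, hφ⟩ := exists_pt hG (hF i).ha hlam
    set b : HypRingQ (n := 1) α β c := Polynomial.eval₂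
      ((qmk α β c : MvPolynomial (Fin 2) ℚ →+* HypRingQ (n := 1) α β c).comp MvPolynomial.C)
      (affFun α β c (a i) (e i)) π with hbdef
    have hbK : algebraMap _ K b = aeval (xK α β c K (a i) (e i)) π := by
      rw [hbdef, Polynomial.hom_eval₂, aeval_def]
      congr 1
      exact Subsingleton.elim _ _
    have hb : b ≠ 0 := by
      intro h
      rw [h, map_zero] at hbK
      exact aeval_ne hx hirr.ne_zero hbK.symm
    have hφb : φ b = 0 := by
      rw [← hη, hbdef, Polynomial.hom_eval₂, aeval_def, hφ]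
      congr 1
      exact Subsingleton.elim _ _
    obtain ⟨O, ρ, hdvr, hO, hρ⟩ := exists_place hG K φ hb hφb
    refine ⟨O, hdvr, rat_mem hO, (hO (affFun α β c (a i) (e i))).1, pz_lt hO hρ (by rw [hφ]; exact hη), ?_⟩
    by_cases h : ∀ p : ℤ[X], p ≠ 0 → p.leadingCoeff.natAbs ≤ Λ →
        aeval (φ (affFun α β c (a i) (e i))) p ≠ 0
    · exact LG_unr hO hρ hx h (hγ i)
    · push Not at h
      obtain ⟨p0, hp0, hl0, h0⟩ := h
      have hother : ∀ i', i' ≠ i → γ i' ∈ unrM O 2 := by
        intro i' hi'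
        exact LG_unr hO hρ (transc hG (hF i').ha K) (fun p hp hl hz =>
          disjoint_pts hG hB (hF i) (hF i') (hd i i' hi'.symm) φ hp0 hp hl0 hl h0 hz) (hγ i')
      have hωO := US_unr hO hω
      have htot : ω + ∑ i, γ i ∈ unrM O 2 := by
        unfold integralM at hint
        rw [Submodule.mem_iInf] at hint
        have h1 := hint O
        rw [Submodule.mem_iInf] at h1
        exact h1 hdvr
      have hsum : ∑ i' ∈ Finset.univ.erase i, γ i' ∈ unrM O 2 :=
        Submodule.sum_mem _ fun i' hi' => hother i' (Finset.ne_of_mem_erase hi')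
      have heq : γ i = (ω + ∑ i, γ i) - ω - ∑ i' ∈ Finset.univ.erase i, γ i' := by
        rw [← Finset.add_sum_erase Finset.univ γ (Finset.mem_univ i)]
        abel
      rw [heq]
      exact Submodule.sub_mem _ (Submodule.sub_mem _ htot hωO) hsum)
  refine (Submodule.span_le.2 ?_) hspan
  rintro v ⟨s, ⟨j, hj, hs⟩, q, rfl⟩
  exact sy_mem_US (root_mem hx hj hm (alpha_ne hG hj hm) hs) (cst_mem q)

end Pool.Agent.ISI
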