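import Mathlib
import Pool.Agent.ISI.StpB
import Pool.Agent.ISI.StpC
import Pool.Agent.ISI.Red2
import Pool.Agent.ISI.Exp

/-! ISI-Fin (helper69): the main theorem. -/

namespace Pool.Agent.ISI

open Pool.Agent.Helper11 Polynomial

variable {N : ℕ} {α : Fin N → Fin 2 → ℤ} {β : Fin N → ℤ} {c : ℤ}

theorem supp_le (hG : Good α β c) {M Λ : ℕ} (hB : Bd α β c M Λ) {t : ℕ}
    {a : Fin t → Fin 2 → ℤ} {e : Fin t → ℤ} (hF : ∀ i, Frm M (a i) (e i))
    (hd : ∀ i j, i ≠ j → a i 0 * a j 1 - a i 1 * a j 0 ≠ 0)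
    {K : Type} [Field K] [CharZero K] [Algebra (HypRingQ (n := 1) α β c) K]
    [IsFractionRing (HypRingQ (n := 1) α β c) K] :
    suppPart (HypRingQ (n := 1) α β c) K Λ (fun i => xK α β c K (a i) (e i)) ≤
      US α β c K := by
  classical
  rintro z ⟨hz1, hz2⟩
  have hx : ∀ i, Transcendental ℚ (xK α β c K (a i) (e i)) := fun i => transc hG (hF i).ha K
  obtain ⟨ω, hω, y, hy, rfl⟩ := Submodule.mem_sup.1 hz1
  obtain ⟨f, hf, rfl⟩ := (Submodule.mem_iSup_iff_exists_finsupp _ _).1 hy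
  rw [Finsupp.sum_fintype _ _ (fun _ => rfl)] at hz2 ⊢
  -- the normal forms
  choose m P w hm hP hn using fun i => normal_form (hx i) (hf i)
  have hdec : ∀ i, ∃ γ ∈ LG α β c K Λ (a i) (e i), ∃ ω' ∈ US α β c K,
      (m i : ℚ) • f i = γ + ω' +
        ∑ π ∈ P i, sy (pz (xK α β c K (a i) (e i)) π) (uK α β c K (w i π)) := by
    intro i
    obtain ⟨γ, hγ, ω', hω', h1⟩ := Submodule.mem_sup.1 (hn i)
    refine ⟨γ, hγ, ω', hω', ?_⟩
    rw [h1]
    abel
  choose γ hγ ω' hω' hdec using hdec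
  -- a common multiple
  set L : ℕ := ∏ i, m i with hL
  have hL0 : L ≠ 0 := Finset.prod_ne_zero_iff.2 fun i _ => hm i
  set l : Fin t → ℕ := fun i => ∏ j ∈ Finset.univ.erase i, m j with hl
  have hlm : ∀ i, l i * m i = L := fun i => Finset.prod_erase_mul _ _ (Finset.mem_univ i)
  have hsum : (L : ℚ) • (ω + ∑ i, f i) = ((L : ℚ) • ω + ∑ i, (l i : ℚ) • ω' i) +
      ∑ i, ((l i : ℚ) • γ i + ∑ π ∈ P i,
        sy (pz (xK α β c K (a i) (e i)) π) (uK α β c K (w i π ^ l i))) := by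
    rw [smul_add, Finset.smul_sum, add_assoc, ← Finset.sum_add_distrib]
    congr 1
    refine Finset.sum_congr rfl fun i _ => ?_
    have h1 : (L : ℚ) • f i = (l i : ℚ) • ((m i : ℚ) • f i) := by
      rw [smul_smul, ← hlm i]
      push_cast
      rfl
    rw [h1, hdec, smul_add, smul_add, Finset.smul_sum]
    have h2 : ∀ π, (l i : ℚ) • sy (pz (xK α β c K (a i) (e i)) π) (uK α β c K (w i π)) =
        sy (pz (xK α β c K (a i) (e i)) π) (uK α β c K (w i π ^ l i)) := by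
      intro π
      have h3 : uK α β c K (w i π ^ l i) = uK α β c K (w i π) ^ (l i : ℤ) := by
        unfold uK
        rw [map_pow, zpow_natCast]
      rw [h3, sy_zpow_right]
      push_cast
      rfl
    rw [Finset.sum_congr rfl fun π _ => h2 π]
    abel
  have hω2 : (L : ℚ) • ω + ∑ i, (l i : ℚ) • ω' i ∈ US α β c K :=
    Submodule.add_mem _ (Submodule.smul_mem _ _ hω)
      (Submodule.sum_mem _ fun i _ => Submodule.smul_mem _ _ (hω' i))
  have hγ2 : ∀ i, (l i : ℚ) • γ i ∈ LG α β c K Λ (a i) (e i) := fun i =>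
    Submodule.smul_mem _ _ (hγ i)
  have hint : ((L : ℚ) • ω + ∑ i, (l i : ℚ) • ω' i) +
      ∑ i, ((l i : ℚ) • γ i + ∑ π ∈ P i,
        sy (pz (xK α β c K (a i) (e i)) π) (uK α β c K (w i π ^ l i))) ∈ integralM K 2 := by
    rw [← hsum]
    exact Submodule.smul_mem _ _ hz2
  -- reduction of the symbols
  have hred : ∀ i, ∀ π ∈ P i, sy (pz (xK α β c K (a i) (e i)) π)
      (uK α β c K (w i π ^ l i)) ∈ LG α β c K Λ (a i) (e i) ⊔ US α β c K := by
    intro i π hπ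
    refine red2 hG hB (hF i) (hP i π hπ) _ ?_ K
    intro φ φ' h h0
    exact norm_eq hG hB hF hd hω2 hγ2 hP (w := fun i π => w i π ^ l i) hint hπ φ φ' h h0
  have hred2 : ∀ i, (l i : ℚ) • γ i + ∑ π ∈ P i, sy (pz (xK α β c K (a i) (e i)) π)
      (uK α β c K (w i π ^ l i)) ∈ LG α β c K Λ (a i) (e i) ⊔ US α β c K := fun i =>
    Submodule.add_mem _ (Submodule.mem_sup_left (hγ2 i)) (Submodule.sum_mem _ (hred i))
  have hdec2 : ∀ i, ∃ g ∈ LG α β c K Λ (a i) (e i), ∃ o ∈ US α β c K,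
      (l i : ℚ) • γ i + ∑ π ∈ P i, sy (pz (xK α β c K (a i) (e i)) π)
        (uK α β c K (w i π ^ l i)) = g + o := by
    intro i
    obtain ⟨g, hg, o, ho, h1⟩ := Submodule.mem_sup.1 (hred2 i)
    exact ⟨g, hg, o, ho, h1.symm⟩
  choose g hg o ho hgo using hdec2
  have hsum2 : (L : ℚ) • (ω + ∑ i, f i) =
      (((L : ℚ) • ω + ∑ i, (l i : ℚ) • ω' i) + ∑ i, o i) + ∑ i, g i := by
    rw [hsum, Finset.sum_congr rfl fun i _ => hgo i, Finset.sum_add_distrib]
    abel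
  have hω3 : ((L : ℚ) • ω + ∑ i, (l i : ℚ) • ω' i) + ∑ i, o i ∈ US α β c K :=
    Submodule.add_mem _ hω2 (Submodule.sum_mem _ fun i _ => ho i)
  have hall := all_units hG hB hF hd hω3 hg (by
    rw [← hsum2]
    exact Submodule.smul_mem _ _ hz2)
  have hfin : (L : ℚ) • (ω + ∑ i, f i) ∈ US α β c K := by
    rw [hsum2]
    exact Submodule.add_mem _ hω3 (Submodule.sum_mem _ fun i _ => hall i)
  have h9 := Submodule.smul_mem (US α β c K) ((L : ℚ)⁻¹) hfin
  rwa [smul_smul, inv_mul_cancel₀ (Nat.cast_ne_zero.2 hL0), one_smul] at h9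

end Pool.Agent.ISI
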